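import Mathlib
import Pool.Agent.H33.R45.Conn

set_option autoImplicit false
open Finset

/-! # Wires and frames outside of a box

The box is `[x0, x1) × [y0, y1)`; the far frame consists of the tiles of the boundary of
`[FL, FR] × [FB, FT]`. A *port* is a pair `(s, r)`: the row `r` to the left (`s = false`) or to the right
(`s = true`) of the box; the free side of a left port is below, the free side of a right port is above.
`Wi` : the thin wire of a port, from the box to the frame. `Fr` : the frame without the gap next to the wire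
of the port `X` on its free side. `c0 X` : the root corner at the end of the wire. -/

namespace Pool.Agent.H33.Sp

open Pool.Agent.H75.Perc hiding ph
open Pool.Agent.H75.TwoArm Pool.Agent.Q1 Pool.Agent.H33.Q1
open Pool.Agent.H69.Q1
open Pool.Agent.H74.R45
open Pool.Agent.H33.R45 (rco rdco vx_he_S vx_he_N low_of)
open Pool.Agent.H13.R45 (gp)

/-- the box and the frame -/
structure BF where
  x0 : ℤ
  x1 : ℤ
  y0 : ℤ
  y1 : ℤ
  FL : ℤ
  FR : ℤ
  FB : ℤ
  FT : ℤ
  hx : x0 < x1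
  hy : y0 < y1
  hL : FL + 2 ≤ x0
  hR : x1 + 1 ≤ FR
  hB : FB + 2 ≤ y0
  hT : y1 + 1 ≤ FT

namespace BF

variable (B : BF)

/-- the tiles of the box -/
def InB (x y : ℤ) : Prop := B.x0 ≤ x ∧ x < B.x1 ∧ B.y0 ≤ y ∧ y < B.y1

/-- the tiles of the region bounded by the frame -/
def InF (x y : ℤ) : Prop := B.FL ≤ x ∧ x ≤ B.FR ∧ B.FB ≤ y ∧ y ≤ B.FT

/-- the tiles of the wire of a port -/
def InW (X : Bool × ℤ) (x y : ℤ) : Prop := y = X.2 ∧
  ((X.1 = false ∧ B.FL ≤ x ∧ x < B.x0) ∨ (X.1 = true ∧ B.x1 ≤ x ∧ x ≤ B.FR))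

/-- the tiles of the frame without the gap of the port `X` -/
def InR (X : Bool × ℤ) (x y : ℤ) : Prop := B.InF x y ∧ (x = B.FL ∨ x = B.FR ∨ y = B.FB ∨ y = B.FT) ∧
  ¬ (X.1 = false ∧ x = B.FL ∧ y = X.2 - 1) ∧ ¬ (X.1 = true ∧ x = B.FR ∧ y = X.2 + 1)

open Classical in
/-- the labels with the property `p` -/
noncomputable def LS (p : ℤ → ℤ → Prop) : Finset (ℤ × ℤ) :=
  ((Icc B.FL B.FR ×ˢ Icc B.FB B.FT).filter fun t => p t.1 t.2).image lt

variable {B} {x y : ℤ} {p : ℤ → ℤ → Prop} {X Y : Bool × ℤ}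

lemma mem_LS : lt (x, y) ∈ B.LS p ↔ B.InF x y ∧ p x y := by
  classical
  unfold LS InF
  simp only [mem_image, mem_filter, mem_product, mem_Icc, Prod.exists]
  constructor
  · rintro ⟨x', y', ⟨⟨⟨h1, h2⟩, h3, h4⟩, h5⟩, h6⟩
    have := lt_inj h6
    simp only [Prod.mk.injEq] at this
    obtain ⟨rfl, rfl⟩ := this
    exact ⟨⟨h1, h2, h3, h4⟩, h5⟩
  · rintro ⟨⟨h1, h2, h3, h4⟩, h5⟩
    exact ⟨x, y, ⟨⟨⟨h1, h2⟩, h3, h4⟩, h5⟩, rfl⟩

lemma odd_LS {e : ℤ × ℤ} (he : e ∈ B.LS p) : (e.1 + e.2) % 2 = 1 := by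
  classical
  unfold LS at he
  simp only [mem_image] at he
  obtain ⟨t, -, rfl⟩ := he
  exact lt_odd t

variable (B)

/-- the wire of the port `X` -/
noncomputable def Wi (X : Bool × ℤ) : Finset (ℤ × ℤ) := B.LS (B.InW X)

/-- the wires of the ports `X`, `Y` and the frame with a gap at `X` -/
noncomputable def Wf (X Y : Bool × ℤ) : Finset (ℤ × ℤ) :=
  B.LS fun x y => B.InW X x y ∨ B.InW Y x y ∨ B.InR X x y

/-- the free row of the port `X` -/
def fr (_ : BF) (X : Bool × ℤ) : ℤ := if X.1 then X.2 + 1 else X.2 - 1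

/-- the root corner at the port `X` -/
def c0 (X : Bool × ℤ) : ℤ × ℤ := if X.1 then he (B.FR + 1, X.2 + 1) else he (B.FL - 1, X.2 + 1)

/-- the type of the root corner -/
def k0 (_ : BF) (X : Bool × ℤ) : ℤ := if X.1 then 2 else 0

/-- a bound for the coordinates -/
def K : ℤ := |B.FL| + |B.FB|

/-- a face below everything -/
def g : ℤ × ℤ := gp (-B.K - 1, -B.K - 2)

/-- the port is at a row of the box, its free row too, and the parity of the frame fits -/
structure IsP (X : Bool × ℤ) : Prop where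
  r0 : B.y0 ≤ X.2
  r1 : X.2 < B.y1
  f0 : X.1 = false → B.y0 ≤ X.2 - 1
  f1 : X.1 = true → X.2 + 1 < B.y1

/-- the frame fits to the port -/
structure Fit (X : Bool × ℤ) : Prop extends B.IsP X where
  pL : X.1 = false → (B.FL + X.2 + 1) % 2 = 0
  pR : X.1 = true → (B.FR + X.2) % 2 = 0

variable {B}

lemma K_le : -B.K ≤ B.FL ∧ -B.K ≤ B.FB := by
  unfold K
  have h1 := neg_abs_le B.FL
  have h2 := neg_abs_le B.FB
  have h3 := abs_nonneg B.FL
  have h4 := abs_nonneg B.FB
  omega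

lemma mem_Wi (hX : B.IsP X) : lt (x, y) ∈ B.Wi X ↔ B.InW X x y := by
  unfold Wi
  rw [mem_LS]
  refine ⟨fun h => h.2, fun h => ⟨?_, h⟩⟩
  obtain ⟨a1, a2, a3, a4⟩ := hX
  have := B.hx; have := B.hL; have := B.hR; have := B.hB; have := B.hT
  unfold InW at h
  unfold InF
  omega

lemma mem_Wf (hX : B.IsP X) (hY : B.IsP Y) : lt (x, y) ∈ B.Wf X Y ↔
    B.InW X x y ∨ B.InW Y x y ∨ B.InR X x y := by
  unfold Wf
  rw [mem_LS]
  refine ⟨fun h => h.2, fun h => ⟨?_, h⟩⟩
  obtain ⟨a1, a2, a3, a4⟩ := hX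
  obtain ⟨b1, b2, b3, b4⟩ := hY
  have := B.hx; have := B.hL; have := B.hR; have := B.hB; have := B.hT
  rcases h with h | h | h
  · unfold InW at h
    unfold InF
    omega
  · unfold InW at h
    unfold InF
    omega
  · exact h.1

lemma Wi_sub (hX : B.IsP X) (hY : B.IsP Y) : B.Wi X ⊆ B.Wf X Y ∧ B.Wi Y ⊆ B.Wf X Y := by
  constructor <;> intro e he <;> obtain ⟨x, y, rfl⟩ := exists_lt (odd_LS he)
  · rw [mem_Wi hX] at he; rw [mem_Wf hX hY]; exact Or.inl he
  · rw [mem_Wi hY] at he; rw [mem_Wf hX hY]; exact Or.inr (Or.inl he)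

lemma Wi_F (he : lt (x, y) ∈ B.Wi X) : B.InF x y := (mem_LS.1 he).1
lemma Wf_F (he : lt (x, y) ∈ B.Wf X Y) : B.InF x y := (mem_LS.1 he).1

/-! ### The root corner -/

lemma ty_c0 (hX : B.Fit X) : B.k0 X % 4 = ty (B.c0 X) := by
  unfold k0 c0
  rcases h : X.1 with _ | _
  · have := hX.pL h
    simp only [Bool.false_eq_true, if_false]
    rw [ty_he_S (by omega)]; rfl
  · have := hX.pR h
    simp only [if_true]
    rw [ty_he_N (by omega)]; rfl

/-- position of the root vertex and of the root face -/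
lemma vf_c0 (hX : B.Fit X) : vx (B.c0 X) = (if X.1 then gp (B.FR + 1, X.2 + 1) else gp (B.FL, X.2 + 1)) ∧
    fi (B.c0 X) = (if X.1 then gp (B.FR + 2, X.2 + 1) else gp (B.FL - 1, X.2 + 1)) := by
  unfold c0
  rcases h : X.1 with _ | _
  · have := hX.pL h
    simp only [Bool.false_eq_true, if_false]
    have e := vx_he_S (x := B.FL - 1) (y := X.2 + 1) (by omega)
    rw [show B.FL - 1 + 1 = B.FL by ring] at e
    exact e
  · have := hX.pR h
    simp only [if_true]
    have e := vx_he_N (x := B.FR + 1) (y := X.2 + 1) (by omega)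
    rw [show B.FR + 1 + 1 = B.FR + 2 by ring] at e
    exact e

lemma plab_c0 (hX : B.Fit X) : plab (B.c0 X) =
    if X.1 then lt (B.FR + 1, X.2) else lt (B.FL - 1, X.2 + 1) := by
  unfold c0
  rcases h : X.1 with _ | _
  · have := hX.pL h
    simp only [Bool.false_eq_true, if_false]
    rw [plab_he_S (by omega)]
  · have := hX.pR h
    simp only [if_true]
    rw [plab_he_N (by omega)]
    congr 2; ring

/-! ### The outer region -/

section out

variable {A : Finset (ℤ × ℤ)}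

lemma gp_snd (a b : ℤ) : (gp (a, b)).2 = (a + b + 1) / 2 := rfl

/-- the root face sees the face below everything -/
lemma dco_g (hX : B.Fit X) (hA : ∀ x y, lt (x, y) ∈ A → B.InF x y) : DCo A (fi (B.c0 X)) B.g := by
  have k := K_le (B := B)
  obtain ⟨⟨a1, a2, a3, a4⟩, a5, a6⟩ := hX
  have b1 := B.hx; have b2 := B.hy; have b3 := B.hL; have b4 := B.hR; have b5 := B.hB; have b6 := B.hT
  rw [(vf_c0 ⟨⟨a1, a2, a3, a4⟩, a5, a6⟩).2]
  unfold g
  unfold InF at hA
  rcases h : X.1 with _ | _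
  · have c1 := a5 h
    have c2 := a3 h
    simp only [Bool.false_eq_true, if_false]
    exact rdco (-B.K - 2) B.FL (-B.K - 3) (X.2 + 2) (by omega) (by omega)
      (fun x y d1 d2 d3 d4 h1 => by have := hA x y h1; omega) (by omega) (by omega)
  · have c1 := a6 h
    simp only [if_true]
    rcases Int.emod_two_eq_zero_or_one (B.FR + B.FB) with h2 | h2
    · refine (rdco (B.FR + 1) (B.FR + 3) (-B.K - 3) (X.2 + 2) (by omega) (by omega)
        (fun x y d1 d2 d3 d4 h1 => by have := hA x y h1; omega) (c := B.FR + 1) (d := B.FB)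
        (by omega) (by omega)).trans (rdco (-B.K - 2) (B.FR + 3) (-B.K - 3) B.FB (by omega) (by omega)
        (fun x y d1 d2 d3 d4 h1 => by have := hA x y h1; omega) (by omega) (by omega))
    · refine (rdco (B.FR + 1) (B.FR + 3) (-B.K - 3) (X.2 + 2) (by omega) (by omega)
        (fun x y d1 d2 d3 d4 h1 => by have := hA x y h1; omega) (c := B.FR + 2) (d := B.FB)
        (by omega) (by omega)).trans (rdco (-B.K - 2) (B.FR + 3) (-B.K - 3) B.FB (by omega) (by omega)
        (fun x y d1 d2 d3 d4 h1 => by have := hA x y h1; omega) (by omega) (by omega))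

/-- the face below everything is below the cluster of the root vertex -/
lemma low_g (hX : B.Fit X) (hA : ∀ x y, lt (x, y) ∈ A → B.InF x y) {v : ℤ × ℤ}
    (hv : Co A (vx (B.c0 X)) v) : B.g.2 < v.2 := by
  have k := K_le (B := B)
  obtain ⟨⟨a1, a2, a3, a4⟩, a5, a6⟩ := hX
  have b1 := B.hx; have b2 := B.hy; have b3 := B.hL; have b4 := B.hR; have b5 := B.hB; have b6 := B.hT
  have h1 := low_of (K := B.K) (fun x y h1 => by
    have := hA x y h1; unfold InF at this; omega) (v0 := vx (B.c0 X)) (v := v) ?_ hv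
  · unfold g
    rw [gp_snd]; omega
  · rw [(vf_c0 ⟨⟨a1, a2, a3, a4⟩, a5, a6⟩).1]
    split_ifs with h
    · rw [gp_snd]; omega
    · rw [gp_snd]
      omega

/-- the face of the root sees its free row -/
lemma dco_free (hX : B.Fit X) (hA : ∀ x y, lt (x, y) ∈ A → B.InB x y ∨ B.InW X x y ∨ B.InR X x y ∨
      (B.InW Y x y ∧ (X.1 = Y.1 → Y.2 ≠ B.fr X))) {a b : ℤ} (hb : B.fr X ≤ b ∧ b ≤ B.fr X + 1)
    (ha : (X.1 = false ∧ B.FL - 1 ≤ a ∧ a ≤ B.x0) ∨ (X.1 = true ∧ B.x1 ≤ a ∧ a ≤ B.FR + 2))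
    (hp : (a + b) % 2 = 1) : DCo A (fi (B.c0 X)) (gp (a, b)) := by
  rw [(vf_c0 hX).2]
  obtain ⟨⟨a1, a2, a3, a4⟩, a5, a6⟩ := hX
  have b1 := B.hx; have b2 := B.hy; have b3 := B.hL; have b4 := B.hR; have b5 := B.hB; have b6 := B.hT
  unfold InB InW InR InF fr at hA
  unfold fr at hb
  rcases h : X.1 with _ | _
  · have c1 := a5 h
    have c2 := a3 h
    simp only [h, Bool.false_eq_true, if_false, true_and, false_and, and_true, or_false] at hA ha hb ⊢
    have k1 : ∀ y, lt (B.FL - 1, y) ∉ A := by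
      intro y h1
      have := hA _ _ h1
      omega
    have k2 : ∀ x, B.FL - 1 ≤ x → x < B.x0 → lt (x, X.2 - 1) ∉ A := by
      intro x h2 h3 h1
      rcases hA _ _ h1 with h4 | h4 | h4 | ⟨h4, h5⟩
      · omega
      · omega
      · omega
      · rcases h4 with ⟨h6, ⟨h7, -⟩ | ⟨-, h7⟩⟩
        · exact h5 h7.symm h6.symm
        · omega
    refine (rdco (B.FL - 1) B.FL (X.2 - 1) (X.2 + 1) (by omega) (by omega)
      (fun x y d1 d2 d3 d4 => ?_) (c := B.FL - 1) (d := X.2 - 1) (by omega) (by omega)).trans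
      (rdco (B.FL - 1) B.x0 (X.2 - 1) X.2 (by omega) (by omega) (fun x y d1 d2 d3 d4 => ?_)
        (by omega) (by omega))
    · obtain rfl : x = B.FL - 1 := by omega
      exact k1 y
    · obtain rfl : y = X.2 - 1 := by omega
      exact k2 x d1 d2
  · have c1 := a6 h
    have c2 := a4 h
    simp only [h, Bool.true_eq_false, if_true, true_and, false_and, false_or] at hA ha hb ⊢
    have k1 : ∀ x y, B.FR + 1 ≤ x → lt (x, y) ∉ A := by
      intro x y h2 h1
      have := hA _ _ h1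
      omega
    have k2 : ∀ x, B.x1 ≤ x → lt (x, X.2 + 1) ∉ A := by
      intro x h2 h1
      rcases hA _ _ h1 with h4 | h4 | h4 | ⟨h4, h5⟩
      · omega
      · omega
      · omega
      · rcases h4 with ⟨h6, ⟨-, h7⟩ | ⟨h7, -⟩⟩
        · omega
        · exact h5 h7.symm h6.symm
    exact rdco B.x1 (B.FR + 2) (X.2 + 1) (X.2 + 2) (by omega) (by omega)
        (fun x y d1 d2 d3 d4 => by
          obtain rfl : y = X.2 + 1 := by omega
          exact k2 x d1)
        (by omega) (by omega)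

end out

end BF

end Pool.Agent.H33.Sp
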