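import Mathlib
import Pool.Agent.H33.Sp.Frame

set_option autoImplicit false
open Finset

/-! # The rows of a box in cyclic order

Positions `0 ≤ p < 2 N`, `N = y1 - y0`: the rows to the left of the box from the top to the bottom, then the
rows to the right from the bottom to the top (counterclockwise). `nv p`, `nd p` : the vertex and the face
of the boundary of the box in the row `p`. `corr`, `corrI` : the faces (vertices) in consecutive rows
are joined outside (inside) of the box. -/

namespace Pool.Agent.H33.Sp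

open Pool.Agent.H75.Perc hiding ph
open Pool.Agent.H75.TwoArm Pool.Agent.Q1 Pool.Agent.H33.Q1
open Pool.Agent.H69.Q1
open Pool.Agent.H74.R45
open Pool.Agent.H33.R45 (rco rdco vx_he_S vx_he_N low_of)
open Pool.Agent.H13.R45 (gp)

namespace BF

variable (B : BF)

/-- number of rows of the box -/
def N : ℤ := B.y1 - B.y0

/-- column of the boundary at the position `p` -/
def px (p : ℤ) : ℤ := if p < B.N then B.x0 else B.x1

/-- row at the position `p` -/
def py (p : ℤ) : ℤ := if p < B.N then B.y1 - 1 - p else B.y0 + (p - B.N)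

/-- column of the outer tile at the position `p` -/
def ox (p : ℤ) : ℤ := if p < B.N then B.x0 - 1 else B.x1

/-- column of the inner tile at the position `p` -/
def ix (p : ℤ) : ℤ := if p < B.N then B.x0 else B.x1 - 1

/-- the vertex of the boundary in the row of the position `p` -/
def nv (p : ℤ) : ℤ × ℤ := gp (B.px p, B.py p + (B.px p + B.py p) % 2)

/-- the face of the boundary in the row of the position `p` -/
def nd (p : ℤ) : ℤ × ℤ := gp (B.px p, B.py p + (B.px p + B.py p + 1) % 2)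

/-- position of a port -/
def pos (X : Bool × ℤ) : ℤ := if X.1 then B.N + (X.2 - B.y0) else B.y1 - 1 - X.2

/-- the closed cyclic interval from `p` to `q` -/
def Bt (p q r : ℤ) : Prop := (p ≤ q ∧ p ≤ r ∧ r ≤ q) ∨ (q < p ∧ (p ≤ r ∨ r ≤ q))

/-- the tiles around the box are closed, except for the rows with `P` -/
structure Cor (A : Finset (ℤ × ℤ)) (P : ℤ → Prop) : Prop where
  lf : ∀ p, 0 ≤ p → p < 2 * B.N → ¬ P p → lt (B.ox p, B.py p) ∉ A
  bt : ∀ x, B.x0 - 1 ≤ x → x ≤ B.x1 → lt (x, B.y0 - 1) ∉ A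
  tp : ∀ x, B.x0 - 1 ≤ x → x ≤ B.x1 → lt (x, B.y1) ∉ A

/-- the boundary tiles of the box in the rows with `C` are open -/
structure CorI (W : Finset (ℤ × ℤ)) (C : ℤ → Prop) : Prop where
  lf : ∀ p, 0 ≤ p → p < 2 * B.N → C p → lt (B.ix p, B.py p) ∈ W
  bt : C (B.N - 1) → C B.N → ∀ x, B.x0 ≤ x → x < B.x1 → lt (x, B.y0) ∈ W
  tp : C (2 * B.N - 1) → C 0 → ∀ x, B.x0 ≤ x → x < B.x1 → lt (x, B.y1 - 1) ∈ W

variable {B} {A W : Finset (ℤ × ℤ)} {P C : ℤ → Prop} {p q r : ℤ}

lemma N_pos : 0 < B.N := by have := B.hy; unfold N; omega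

lemma nd_step (H : B.Cor A P) (h0 : 0 ≤ p) (h1 : p + 1 < 2 * B.N) (hp : ¬ P p) (hq : ¬ P (p + 1)) :
    DCo A (B.nd p) (B.nd (p + 1)) := by
  have e1 := H.lf p h0 (by omega) hp
  have e2 := H.lf (p + 1) (by omega) h1 hq
  have e3 := H.bt
  have hx := B.hx
  have hN : B.N = B.y1 - B.y0 := rfl
  unfold nd
  unfold ox py at e1 e2
  unfold px py
  rcases lt_trichotomy (p + 1) B.N with h | h | h
  · rw [if_pos (by omega), if_pos (by omega)] at e1 e2
    simp only [if_pos (show p < B.N by omega), if_pos (show p + 1 < B.N by omega)]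
    refine rdco (B.x0 - 1) B.x0 (B.y1 - 1 - (p + 1)) (B.y1 - 1 - p + 1) (by omega) (by omega)
      (fun x y d1 d2 d3 d4 => ?_) (by omega) (by omega)
    obtain rfl : x = B.x0 - 1 := by omega
    rcases (by omega : y = B.y1 - 1 - p ∨ y = B.y1 - 1 - (p + 1)) with rfl | rfl
    · exact e1
    · exact e2
  · rw [if_pos (by omega), if_pos (by omega)] at e1
    rw [if_neg (by omega), if_neg (by omega)] at e2
    simp only [if_pos (show p < B.N by omega), if_neg (show ¬ p + 1 < B.N by omega)]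
    have f1 : B.y1 - 1 - p = B.y0 := by omega
    have f2 : B.y0 + (p + 1 - B.N) = B.y0 := by omega
    rw [f1] at e1 ⊢
    rw [f2] at e2 ⊢
    rcases Int.emod_two_eq_zero_or_one (B.x0 + B.y0) with k1 | k1 <;>
      rcases Int.emod_two_eq_zero_or_one (B.x1 + B.y0) with k2 | k2
    all_goals
      refine (rdco (B.x0 - 1) B.x0 (B.y0 - 1) (B.y0 + 1) (by omega) (by omega)
        (fun x y d1 d2 d3 d4 => ?_) (c := B.x0 - 1 + (B.x0 + B.y0) % 2) (d := B.y0) (by omega)
        (by omega)).trans ((rdco (B.x0 - 1) (B.x1 + 1) (B.y0 - 1) B.y0 (by omega) (by omega)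
        (fun x y d1 d2 d3 d4 => ?_) (c := B.x1 + 1 - (B.x1 + B.y0) % 2) (d := B.y0) (by omega)
        (by omega)).trans (rdco B.x1 (B.x1 + 1) (B.y0 - 1) (B.y0 + 1) (by omega) (by omega)
        (fun x y d1 d2 d3 d4 => ?_) (by omega) (by omega)))
      · obtain rfl : x = B.x0 - 1 := by omega
        rcases (by omega : y = B.y0 ∨ y = B.y0 - 1) with rfl | rfl
        · exact e1
        · exact e3 _ (by omega) (by omega)
      · obtain rfl : y = B.y0 - 1 := by omega
        exact e3 _ (by omega) (by omega)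
      · obtain rfl : x = B.x1 := by omega
        rcases (by omega : y = B.y0 ∨ y = B.y0 - 1) with rfl | rfl
        · exact e2
        · exact e3 _ (by omega) (by omega)
  · rw [if_neg (by omega), if_neg (by omega)] at e1 e2
    simp only [if_neg (show ¬ p < B.N by omega), if_neg (show ¬ p + 1 < B.N by omega)]
    refine rdco B.x1 (B.x1 + 1) (B.y0 + (p - B.N)) (B.y0 + (p + 1 - B.N) + 1) (by omega) (by omega)
      (fun x y d1 d2 d3 d4 => ?_) (by omega) (by omega)
    obtain rfl : x = B.x1 := by omega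
    rcases (by omega : y = B.y0 + (p - B.N) ∨ y = B.y0 + (p + 1 - B.N)) with rfl | rfl
    · exact e1
    · exact e2

lemma nd_wrap (H : B.Cor A P) (hp : ¬ P (2 * B.N - 1)) (hq : ¬ P 0) :
    DCo A (B.nd (2 * B.N - 1)) (B.nd 0) := by
  have hN0 := B.N_pos
  have e1 := H.lf 0 le_rfl (by omega) hq
  have e2 := H.lf (2 * B.N - 1) (by omega) (by omega) hp
  have e3 := H.tp
  have hx := B.hx
  have hN : B.N = B.y1 - B.y0 := rfl
  unfold nd
  unfold ox py at e1 e2
  unfold px py
  rw [if_pos (by omega), if_pos (by omega)] at e1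
  rw [if_neg (by omega), if_neg (by omega)] at e2
  simp only [if_pos (show (0 : ℤ) < B.N by omega), if_neg (show ¬ 2 * B.N - 1 < B.N by omega)]
  have f1 : B.y1 - 1 - 0 = B.y1 - 1 := by omega
  have f2 : B.y0 + (2 * B.N - 1 - B.N) = B.y1 - 1 := by omega
  rw [f1] at e1 ⊢
  rw [f2] at e2 ⊢
  refine DCo.symm ?_
  rcases Int.emod_two_eq_zero_or_one (B.x0 + B.y1) with k1 | k1 <;>
    rcases Int.emod_two_eq_zero_or_one (B.x1 + B.y1) with k2 | k2
  all_goals
    refine (rdco (B.x0 - 1) B.x0 (B.y1 - 1) (B.y1 + 1) (by omega) (by omega)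
      (fun x y d1 d2 d3 d4 => ?_) (c := B.x0 - 1 + (B.x0 + B.y1) % 2) (d := B.y1) (by omega)
      (by omega)).trans ((rdco (B.x0 - 1) (B.x1 + 1) B.y1 (B.y1 + 1) (by omega) (by omega)
      (fun x y d1 d2 d3 d4 => ?_) (c := B.x1 + 1 - (B.x1 + B.y1) % 2) (d := B.y1) (by omega)
      (by omega)).trans (rdco B.x1 (B.x1 + 1) (B.y1 - 1) (B.y1 + 1) (by omega) (by omega)
      (fun x y d1 d2 d3 d4 => ?_) (by omega) (by omega)))
    · obtain rfl : x = B.x0 - 1 := by omega
      rcases (by omega : y = B.y1 - 1 ∨ y = B.y1) with rfl | rfl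
      · exact e1
      · exact e3 _ (by omega) (by omega)
    · obtain rfl : y = B.y1 := by omega
      exact e3 _ (by omega) (by omega)
    · obtain rfl : x = B.x1 := by omega
      rcases (by omega : y = B.y1 - 1 ∨ y = B.y1) with rfl | rfl
      · exact e2
      · exact e3 _ (by omega) (by omega)

lemma corr_le (H : B.Cor A P) (n : ℕ) : ∀ p, 0 ≤ p → p + n < 2 * B.N →
    (∀ r, p ≤ r → r ≤ p + n → ¬ P r) → DCo A (B.nd p) (B.nd (p + n)) := by
  induction n with
  | zero => intro p _ _ _; simpa using DCo.refl _ _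
  | succ n ih =>
    intro p h0 h1 h2
    push_cast at h1 h2 ⊢
    refine (ih p h0 (by omega) fun r h3 h4 => h2 r h3 (by omega)).trans ?_
    rw [← add_assoc]
    exact nd_step H (by omega) (by omega) (h2 _ (by omega) (by omega)) (h2 _ (by omega) (by omega))

/-- **The faces next to a cyclic interval of rows without ports are joined outside of the box.** -/
theorem corr (H : B.Cor A P) (h0 : 0 ≤ p) (h1 : p < 2 * B.N) (h2 : 0 ≤ q) (h3 : q < 2 * B.N)
    (h : ∀ r, 0 ≤ r → r < 2 * B.N → Bt p q r → ¬ P r) : DCo A (B.nd p) (B.nd q) := by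
  have key : ∀ p q, 0 ≤ p → p ≤ q → q < 2 * B.N → (∀ r, p ≤ r → r ≤ q → ¬ P r) →
      DCo A (B.nd p) (B.nd q) := by
    intro p q k0 k1 k2 k3
    obtain ⟨n, hn⟩ := Int.le.dest k1
    rw [← hn]
    exact corr_le H n p k0 (by omega) fun r h3 h4 => k3 r h3 (by omega)
  rcases le_or_gt p q with h4 | h4
  · exact key p q h0 h4 h3 fun r h5 h6 => h r (by omega) (by omega) (by unfold Bt; omega)
  · refine ((key p (2 * B.N - 1) h0 (by omega) (by omega) fun r h5 h6 =>
      h r (by omega) (by omega) (by unfold Bt; omega)).trans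
      (nd_wrap H (h _ (by omega) (by omega) (by unfold Bt; omega))
        (h _ (by omega) (by omega) (by unfold Bt; omega)))).trans
      (key 0 q le_rfl h2 h3 fun r h5 h6 => h r (by omega) (by omega) (by unfold Bt; omega))

lemma nv_step (H : B.CorI W C) (h0 : 0 ≤ p) (h1 : p + 1 < 2 * B.N) (hp : C p) (hq : C (p + 1)) :
    Co W (B.nv p) (B.nv (p + 1)) := by
  have e1 := H.lf p h0 (by omega) hp
  have e2 := H.lf (p + 1) (by omega) h1 hq
  have e3 := H.bt
  have hx := B.hx
  have hN : B.N = B.y1 - B.y0 := rfl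
  unfold nv
  unfold ix py at e1 e2
  unfold px py
  rcases lt_trichotomy (p + 1) B.N with h | h | h
  · rw [if_pos (by omega), if_pos (by omega)] at e1 e2
    simp only [if_pos (show p < B.N by omega), if_pos (show p + 1 < B.N by omega)]
    refine rco B.x0 (B.x0 + 1) (B.y1 - 1 - (p + 1)) (B.y1 - 1 - p + 1) (by omega) (by omega)
      (fun x y d1 d2 d3 d4 => ?_) (by omega) (by omega)
    obtain rfl : x = B.x0 := by omega
    rcases (by omega : y = B.y1 - 1 - p ∨ y = B.y1 - 1 - (p + 1)) with rfl | rfl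
    · exact e1
    · exact e2
  · simp only [if_pos (show p < B.N by omega), if_neg (show ¬ p + 1 < B.N by omega)]
    have f1 : B.y1 - 1 - p = B.y0 := by omega
    have f2 : B.y0 + (p + 1 - B.N) = B.y0 := by omega
    rw [f1, f2]
    have e4 := e3 (by rwa [show B.N - 1 = p by omega]) (by rwa [← h])
    refine rco B.x0 B.x1 B.y0 (B.y0 + 1) (by omega) (by omega)
      (fun x y d1 d2 d3 d4 => ?_) (by omega) (by omega)
    obtain rfl : y = B.y0 := by omega
    exact e4 _ d1 d2
  · rw [if_neg (by omega), if_neg (by omega)] at e1 e2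
    simp only [if_neg (show ¬ p < B.N by omega), if_neg (show ¬ p + 1 < B.N by omega)]
    refine rco (B.x1 - 1) B.x1 (B.y0 + (p - B.N)) (B.y0 + (p + 1 - B.N) + 1) (by omega) (by omega)
      (fun x y d1 d2 d3 d4 => ?_) (by omega) (by omega)
    obtain rfl : x = B.x1 - 1 := by omega
    rcases (by omega : y = B.y0 + (p - B.N) ∨ y = B.y0 + (p + 1 - B.N)) with rfl | rfl
    · exact e1
    · exact e2

lemma nv_wrap (H : B.CorI W C) (hp : C (2 * B.N - 1)) (hq : C 0) :
    Co W (B.nv (2 * B.N - 1)) (B.nv 0) := by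
  have hN0 := B.N_pos
  have e3 := H.tp hp hq
  have hx := B.hx
  have hN : B.N = B.y1 - B.y0 := rfl
  unfold nv px py
  simp only [if_pos (show (0 : ℤ) < B.N by omega), if_neg (show ¬ 2 * B.N - 1 < B.N by omega)]
  have f1 : B.y1 - 1 - 0 = B.y1 - 1 := by omega
  have f2 : B.y0 + (2 * B.N - 1 - B.N) = B.y1 - 1 := by omega
  rw [f1, f2]
  refine rco B.x0 B.x1 (B.y1 - 1) (B.y1 - 1 + 1) (by omega) (by omega)
    (fun x y d1 d2 d3 d4 => ?_) (by omega) (by omega)
  obtain rfl : y = B.y1 - 1 := by omega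
  exact e3 _ d1 d2

lemma corrI_le (H : B.CorI W C) (n : ℕ) : ∀ p, 0 ≤ p → p + n < 2 * B.N →
    (∀ r, p ≤ r → r ≤ p + n → C r) → Co W (B.nv p) (B.nv (p + n)) := by
  induction n with
  | zero => intro p _ _ _; simpa using Co.refl _ _
  | succ n ih =>
    intro p h0 h1 h2
    push_cast at h1 h2 ⊢
    refine (ih p h0 (by omega) fun r h3 h4 => h2 r h3 (by omega)).trans ?_
    rw [← add_assoc]
    exact nv_step H (by omega) (by omega) (h2 _ (by omega) (by omega)) (h2 _ (by omega) (by omega))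

/-- **The vertices next to a cyclic interval of wired rows are joined inside the box.** -/
theorem corrI (H : B.CorI W C) (h0 : 0 ≤ p) (h1 : p < 2 * B.N) (h2 : 0 ≤ q) (h3 : q < 2 * B.N)
    (h : ∀ r, 0 ≤ r → r < 2 * B.N → Bt p q r → C r) : Co W (B.nv p) (B.nv q) := by
  have key : ∀ p q, 0 ≤ p → p ≤ q → q < 2 * B.N → (∀ r, p ≤ r → r ≤ q → C r) →
      Co W (B.nv p) (B.nv q) := by
    intro p q k0 k1 k2 k3
    obtain ⟨n, hn⟩ := Int.le.dest k1
    rw [← hn]
    exact corrI_le H n p k0 (by omega) fun r h3 h4 => k3 r h3 (by omega)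
  rcases le_or_gt p q with h4 | h4
  · exact key p q h0 h4 h3 fun r h5 h6 => h r (by omega) (by omega) (by unfold Bt; omega)
  · refine ((key p (2 * B.N - 1) h0 (by omega) (by omega) fun r h5 h6 =>
      h r (by omega) (by omega) (by unfold Bt; omega)).trans
      (nv_wrap H (h _ (by omega) (by omega) (by unfold Bt; omega))
        (h _ (by omega) (by omega) (by unfold Bt; omega)))).trans
      (key 0 q le_rfl h2 h3 fun r h5 h6 => h r (by omega) (by omega) (by unfold Bt; omega))

end BF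

end Pool.Agent.H33.Sp
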