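import Mathlib
import Pool.Agent.H33.Sp.Cyc
import Pool.Agent.H33.FM.TConnTL
import Pool.Agent.H74.R45.Geo
import Pool.Agent.Q1.M6c.Uniq

set_option autoImplicit false
open Finset

/-! # Far labels seen from the box

`FX Wo p` : one wire, at the position `p`. `FY Wo p q` : wires at the positions `p`, `q`, joined outside.
`fx_Wi`, `fy_Wf` : the wires and frames of `Frame` have these properties. -/

namespace Pool.Agent.H33.Sp

open Pool.Agent.H75.Perc hiding ph
open Pool.Agent.H75.TwoArm Pool.Agent.Q1 Pool.Agent.H33.Q1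
open Pool.Agent.H69.Q1
open Pool.Agent.H74.R45
open Pool.Agent.H33.R45 (rco rdco vx_he_S vx_he_N vx_ve_E vx_ve_W low_of)
open Pool.Agent.H13.R45 (gp)
open Pool.Agent.Q1.Env (TConn TAdj)
open Pool.Agent.Q1.M6c (entrance_unique)

/-! ### Rectangles are connected -/

lemma tr_row {A : Finset (ℤ × ℤ)} {xa xb y : ℤ} (h : ∀ x, (xa ≤ x ∧ x ≤ xb) ∨ (xb ≤ x ∧ x ≤ xa) → lt (x, y) ∈ A) :
    TR A (xa, y) (xb, y) := by
  rcases le_total xa xb with h1 | h1
  · have h2 := trun (A := A) (p := (xa, y)) (k := 0) (xb - xa).toNat fun i hi hi2 => by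
      have e : dir 0 = (1, 0) := rfl
      rw [e]
      have := h (xa + i) (by omega)
      simpa using this
    have e : ((xa, y) : ℤ × ℤ) + ((((xb - xa).toNat : ℕ) : ℤ) * (dir 0).1, (((xb - xa).toNat : ℕ) : ℤ) *
        (dir 0).2) = (xb, y) := by
      have : dir 0 = (1, 0) := rfl
      rw [this]; refine Prod.ext ?_ ?_ <;> simp only [Prod.fst_add, Prod.snd_add] <;> omega
    rwa [e] at h2
  · have h2 := trun (A := A) (p := (xa, y)) (k := 2) (xa - xb).toNat fun i hi hi2 => by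
      have e : dir 2 = (-1, 0) := rfl
      rw [e]
      have := h (xa - i) (by omega)
      have e2 : ((xa, y) : ℤ × ℤ) + (i * (-1, 0).1, i * (-1, 0).2) = (xa - i, y) := by
        refine Prod.ext ?_ ?_ <;> simp only [Prod.fst_add, Prod.snd_add] <;> ring
      rw [e2]; exact this
    have e : ((xa, y) : ℤ × ℤ) + ((((xa - xb).toNat : ℕ) : ℤ) * (dir 2).1, (((xa - xb).toNat : ℕ) : ℤ) *
        (dir 2).2) = (xb, y) := by
      have : dir 2 = (-1, 0) := rfl
      rw [this]; refine Prod.ext ?_ ?_ <;> simp only [Prod.fst_add, Prod.snd_add] <;> omega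
    rwa [e] at h2

lemma tr_col {A : Finset (ℤ × ℤ)} {ya yb x : ℤ} (h : ∀ y, (ya ≤ y ∧ y ≤ yb) ∨ (yb ≤ y ∧ y ≤ ya) → lt (x, y) ∈ A) :
    TR A (x, ya) (x, yb) := by
  rcases le_total ya yb with h1 | h1
  · have h2 := trun (A := A) (p := (x, ya)) (k := 1) (yb - ya).toNat fun i hi hi2 => by
      have e : dir 1 = (0, 1) := rfl
      rw [e]
      have := h (ya + i) (by omega)
      have e2 : ((x, ya) : ℤ × ℤ) + (i * (0, 1).1, i * (0, 1).2) = (x, ya + i) := by
        refine Prod.ext ?_ ?_ <;> simp only [Prod.fst_add, Prod.snd_add] <;> ring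
      rw [e2]; exact this
    have e : ((x, ya) : ℤ × ℤ) + ((((yb - ya).toNat : ℕ) : ℤ) * (dir 1).1, (((yb - ya).toNat : ℕ) : ℤ) *
        (dir 1).2) = (x, yb) := by
      have : dir 1 = (0, 1) := rfl
      rw [this]; refine Prod.ext ?_ ?_ <;> simp only [Prod.fst_add, Prod.snd_add] <;> omega
    rwa [e] at h2
  · have h2 := trun (A := A) (p := (x, ya)) (k := 3) (ya - yb).toNat fun i hi hi2 => by
      have e : dir 3 = (0, -1) := rfl
      rw [e]
      have := h (ya - i) (by omega)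
      have e2 : ((x, ya) : ℤ × ℤ) + (i * (0, -1).1, i * (0, -1).2) = (x, ya - i) := by
        refine Prod.ext ?_ ?_ <;> simp only [Prod.fst_add, Prod.snd_add] <;> ring
      rw [e2]; exact this
    have e : ((x, ya) : ℤ × ℤ) + ((((ya - yb).toNat : ℕ) : ℤ) * (dir 3).1, (((ya - yb).toNat : ℕ) : ℤ) *
        (dir 3).2) = (x, yb) := by
      have : dir 3 = (0, -1) := rfl
      rw [this]; refine Prod.ext ?_ ?_ <;> simp only [Prod.fst_add, Prod.snd_add] <;> omega
    rwa [e] at h2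

theorem tConn_RT (x0 x1 y0 y1 : ℤ) : TConn (RT x0 x1 y0 y1) := by
  intro a ha b hb
  obtain ⟨x, y, rfl, h1⟩ := mem_RT.1 ha
  obtain ⟨x', y', rfl, h2⟩ := mem_RT.1 hb
  refine (tr_row (A := RT x0 x1 y0 y1) (xa := x) (xb := x') (y := y) fun z hz => ?_).trans
    (tr_col (A := RT x0 x1 y0 y1) (ya := y) (yb := y') (x := x') fun z hz => ?_)
  · rw [lt_mem_RT]; omega
  · rw [lt_mem_RT]; omega

/-! ### Positions of adjacent vertices and faces -/

/-- the label between two adjacent vertices -/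
lemma touch_v {u v : ℤ × ℤ} (h : IsUnit4 (v - u)) : ∃ x y, u + v = lt (x, y) ∧
    (x ≤ (tv u).1 ∧ (tv u).1 ≤ x + 1 ∧ y ≤ (tv u).2 ∧ (tv u).2 ≤ y + 1) ∧
    (x ≤ (tv v).1 ∧ (tv v).1 ≤ x + 1 ∧ y ≤ (tv v).2 ∧ (tv v).2 ≤ y + 1) := by
  obtain ⟨u1, u2⟩ := u
  obtain ⟨v1, v2⟩ := v
  have := unit_cases h
  simp only at this
  unfold lt tv
  simp only [Prod.mk_add_mk, Prod.mk.injEq]
  rcases this with h1 | h1 | h1 | h1
  · exact ⟨u1 + u2, u2 - u1 - 1, by omega⟩
  · exact ⟨u1 + u2, u2 - u1, by omega⟩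
  · exact ⟨u1 + u2 - 1, u2 - u1, by omega⟩
  · exact ⟨u1 + u2 - 1, u2 - u1 - 1, by omega⟩

/-- the label between two adjacent faces -/
lemma touch_f {f g : ℤ × ℤ} (h : IsUnit4 (g - f)) : ∃ x y, f + g - (1, 1) = lt (x, y) ∧
    (x ≤ (tf f).1 ∧ (tf f).1 ≤ x + 1 ∧ y ≤ (tf f).2 ∧ (tf f).2 ≤ y + 1) ∧
    (x ≤ (tf g).1 ∧ (tf g).1 ≤ x + 1 ∧ y ≤ (tf g).2 ∧ (tf g).2 ≤ y + 1) := by
  obtain ⟨u1, u2⟩ := f
  obtain ⟨v1, v2⟩ := g
  have := unit_cases h
  simp only at this
  unfold lt tf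
  simp only [Prod.mk_add_mk, Prod.mk_sub_mk, Prod.mk.injEq]
  rcases this with h1 | h1 | h1 | h1
  · exact ⟨u1 + u2 - 1, u2 - u1 - 1, by omega⟩
  · exact ⟨u1 + u2 - 1, u2 - u1, by omega⟩
  · exact ⟨u1 + u2 - 2, u2 - u1, by omega⟩
  · exact ⟨u1 + u2 - 2, u2 - u1 - 1, by omega⟩

lemma gp_tv (u : ℤ × ℤ) : gp (tv u) = u ∧ ((tv u).1 + (tv u).2) % 2 = 0 := by
  unfold gp tv
  refine ⟨Prod.ext ?_ ?_, ?_⟩ <;> simp only <;> omega

lemma gp_tf (u : ℤ × ℤ) : gp (tf u) = u ∧ ((tf u).1 + (tf u).2) % 2 = 1 := by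
  unfold gp tf
  refine ⟨Prod.ext ?_ ?_, ?_⟩ <;> simp only <;> omega

lemma tv_gp {a b : ℤ} (h : (a + b) % 2 = 0) : tv (gp (a, b)) = (a, b) := by
  unfold tv gp
  refine Prod.ext ?_ ?_ <;> simp only <;> omega

lemma tf_gp {a b : ℤ} (h : (a + b) % 2 = 1) : tf (gp (a, b)) = (a, b) := by
  unfold tf gp
  refine Prod.ext ?_ ?_ <;> simp only <;> omega

lemma gp_inj_v {a b c d : ℤ} (h : (a + b) % 2 = 0) (h' : (c + d) % 2 = 0) (e : gp (a, b) = gp (c, d)) :
    a = c ∧ b = d := by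
  have := congrArg tv e
  rw [tv_gp h, tv_gp h'] at this
  simpa using this

/-- a vertex of a connected pair touches a label -/
lemma co_touch {W : Finset (ℤ × ℤ)} {u v : ℤ × ℤ} (h : Co W u v) (hne : u ≠ v) :
    ∃ x y, lt (x, y) ∈ W ∧ (x ≤ (tv u).1 ∧ (tv u).1 ≤ x + 1 ∧ y ≤ (tv u).2 ∧ (tv u).2 ≤ y + 1) := by
  rcases Relation.ReflTransGen.cases_head h with h1 | ⟨w, h1, -⟩
  · exact absurd h1 hne
  · obtain ⟨x, y, e, h2, -⟩ := touch_v h1.1
    exact ⟨x, y, by rw [← e]; exact h1.2, h2⟩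

namespace BF

variable (B : BF)

/-- all labels of the box -/
noncomputable def GB : Finset (ℤ × ℤ) := RT B.x0 B.x1 B.y0 B.y1

/-- the entrance of the box next to a port -/
def eX (X : Bool × ℤ) : ℤ × ℤ :=
  if X.1 then ve (B.x1, X.2 + (B.x1 + X.2) % 2) else ve (B.x0, X.2 + (B.x0 + X.2) % 2 - 1)

variable {B} {X Y : Bool × ℤ} {A W Wo : Finset (ℤ × ℤ)} {p q r x y : ℤ}

lemma mem_GB : lt (x, y) ∈ B.GB ↔ B.InB x y := by
  unfold GB InB
  rw [lt_mem_RT]

lemma px_pos (hX : B.IsP X) : B.px (B.pos X) = if X.1 then B.x1 else B.x0 := by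
  obtain ⟨a1, a2, a3, a4⟩ := hX
  unfold px pos N
  rcases h : X.1 with _ | _
  · simp only [Bool.false_eq_true, if_false]
    rw [if_pos (by omega)]
  · simp only [if_true]
    rw [if_neg (by omega)]

lemma py_pos (hX : B.IsP X) : B.py (B.pos X) = X.2 := by
  obtain ⟨a1, a2, a3, a4⟩ := hX
  unfold py pos N
  rcases h : X.1 with _ | _
  · simp only [Bool.false_eq_true, if_false]
    rw [if_pos (by omega)]; omega
  · simp only [if_true]
    rw [if_neg (by omega)]; omega

lemma pos_range (hX : B.IsP X) : 0 ≤ B.pos X ∧ B.pos X + 1 < 2 * B.N := by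
  obtain ⟨a1, a2, a3, a4⟩ := hX
  have := B.hy
  unfold pos N
  rcases h : X.1 with _ | _
  · have := a3 h
    simp only [Bool.false_eq_true, if_false]; omega
  · have := a4 h
    simp only [if_true]; omega

/-- the entrance next to a port -/
lemma eX_spec (hX : B.IsP X) : vx (B.eX X) = B.nv (B.pos X) ∧ fi (B.eX X) = B.nd (B.pos X + 1) ∧
    lab (B.eX X) ∈ B.GB ∧ plab (B.eX X) ∉ B.GB := by
  have e1 := px_pos hX
  have e2 := py_pos hX
  obtain ⟨a1, a2, a3, a4⟩ := hX
  have b1 := B.hx; have b2 := B.hy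
  unfold nv nd
  rw [e1, e2]
  unfold eX
  rcases h : X.1 with _ | _
  · have c1 := a3 h
    have e3 : B.px (B.pos X + 1) = B.x0 ∧ B.py (B.pos X + 1) = X.2 - 1 := by
      unfold px py pos N
      simp only [h, Bool.false_eq_true, if_false]
      rw [if_pos (by omega), if_pos (by omega)]
      exact ⟨rfl, by omega⟩
    rw [e3.1, e3.2]
    simp only [Bool.false_eq_true, if_false]
    have hp : (B.x0 + (X.2 + (B.x0 + X.2) % 2 - 1)) % 2 = 1 := by omega
    refine ⟨?_, ?_, ?_, ?_⟩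
    · rw [(vx_ve_E hp).1]; congr 2; ring
    · rw [(vx_ve_E hp).2]; congr 2; omega
    · rw [lab_ve_E hp, mem_GB]; unfold InB; omega
    · rw [plab_ve_E hp, mem_GB]; unfold InB; omega
  · have c1 := a4 h
    have e3 : B.px (B.pos X + 1) = B.x1 ∧ B.py (B.pos X + 1) = X.2 + 1 := by
      unfold px py pos N
      simp only [h, if_true]
      rw [if_neg (by omega), if_neg (by omega)]
      exact ⟨rfl, by omega⟩
    rw [e3.1, e3.2]
    simp only [if_true]
    have hp : (B.x1 + (X.2 + (B.x1 + X.2) % 2)) % 2 = 0 := by omega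
    refine ⟨?_, ?_, ?_, ?_⟩
    · rw [(vx_ve_W hp).1]
    · rw [(vx_ve_W hp).2]; congr 2; omega
    · rw [lab_ve_W hp, mem_GB]; unfold InB; omega
    · rw [plab_ve_W hp, mem_GB]; unfold InB; omega

/-- **The two sides of the joined wires are separated.** -/
theorem sep (hX : B.IsP X) (hY : B.IsP Y) (hne : X.1 = Y.1 → X.2 + 2 ≤ Y.2 ∨ Y.2 + 2 ≤ X.2)
    (hd : Disjoint Wo B.GB) (hc : Co Wo (B.nv (B.pos X)) (B.nv (B.pos Y))) :
    ¬ DCo (B.GB ∪ Wo) (B.nd (B.pos X + 1)) (B.nd (B.pos Y + 1)) := by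
  intro h
  obtain ⟨k1, k2, k3, k4⟩ := eX_spec hX
  obtain ⟨l1, l2, l3, l4⟩ := eX_spec hY
  have h1 := entrance_unique (tConn_RT B.x0 B.x1 B.y0 B.y1) (fun e he => odd_RT he) hd k3 k4 l3 l4
    (by rw [k1, l1]; exact hc) (by rw [k2, l2, union_comm]; exact h)
  have h2 : B.nv (B.pos X) = B.nv (B.pos Y) := by rw [← k1, ← l1, h1]
  have h3 : B.px (B.pos X) = B.px (B.pos Y) ∧ B.py (B.pos X) + (B.px (B.pos X) + B.py (B.pos X)) % 2 =
      B.py (B.pos Y) + (B.px (B.pos Y) + B.py (B.pos Y)) % 2 := by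
    unfold nv at h2
    exact gp_inj_v (by omega) (by omega) h2
  rw [px_pos hX, px_pos hY, py_pos hX, py_pos hY] at h3
  have b1 := B.hx
  rcases hs : X.1 with _ | _ <;> rcases ht : Y.1 with _ | _ <;>
    simp only [hs, ht, Bool.false_eq_true, if_false, if_true, true_implies] at h3 hne <;> omega

/-! ### Connections through the wires and the frame -/

/-- a vertex of the tile `(x, y)` -/
def et (x y : ℤ) : ℤ × ℤ := gp (x + (x + y) % 2, y)

lemma et_row {D : Finset (ℤ × ℤ)} {xa xb y : ℤ}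
    (h : ∀ x, (xa ≤ x ∧ x ≤ xb) ∨ (xb ≤ x ∧ x ≤ xa) → lt (x, y) ∈ D) : Co D (et xa y) (et xb y) := by
  unfold et
  rcases le_total xa xb with h1 | h1
  · refine rco xa (xb + 1) y (y + 1) (by omega) (by omega) (fun x z d1 d2 d3 d4 => ?_) (by omega) (by omega)
    obtain rfl : z = y := by omega
    exact h x (by omega)
  · refine rco xb (xa + 1) y (y + 1) (by omega) (by omega) (fun x z d1 d2 d3 d4 => ?_) (by omega) (by omega)
    obtain rfl : z = y := by omega
    exact h x (by omega)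

lemma et_col {D : Finset (ℤ × ℤ)} {ya yb x : ℤ}
    (h : ∀ y, (ya ≤ y ∧ y ≤ yb) ∨ (yb ≤ y ∧ y ≤ ya) → lt (x, y) ∈ D) : Co D (et x ya) (et x yb) := by
  unfold et
  rcases le_total ya yb with h1 | h1
  · refine rco x (x + 1) ya (yb + 1) (by omega) (by omega) (fun z y d1 d2 d3 d4 => ?_) (by omega) (by omega)
    obtain rfl : z = x := by omega
    exact h y (by omega)
  · refine rco x (x + 1) yb (ya + 1) (by omega) (by omega) (fun z y d1 d2 d3 d4 => ?_) (by omega) (by omega)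
    obtain rfl : z = x := by omega
    exact h y (by omega)

/-- the frame tiles are joined -/
lemma et_frame {D : Finset (ℤ × ℤ)} (hX : B.IsP X) (hD : ∀ x y, B.InR X x y → lt (x, y) ∈ D)
    (h : B.InR X x y) : Co D (et x y) (et B.FL B.FT) := by
  obtain ⟨a1, a2, a3, a4⟩ := hX
  have b1 := B.hx; have b2 := B.hy; have b3 := B.hL; have b4 := B.hR; have b5 := B.hB; have b6 := B.hT
  have hD' := hD
  unfold InR InF at hD h
  obtain ⟨⟨h1, h2, h3, h4⟩, h5, h6, h7⟩ := h
  have top : ∀ x, B.FL ≤ x → x ≤ B.FR → Co D (et x B.FT) (et B.FL B.FT) := fun x c1 c2 =>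
    et_row fun z hz => hD _ _ (by omega)
  have bot : ∀ x, B.FL ≤ x → x ≤ B.FR → Co D (et x B.FB) (et B.FL B.FB) := fun x c1 c2 =>
    et_row fun z hz => hD _ _ (by omega)
  rcases hs : X.1 with _ | _
  · simp only [hs, true_and, Bool.false_eq_true, false_and, not_false_eq_true, and_true] at hD h6 h7
    have right : ∀ y, B.FB ≤ y → y ≤ B.FT → Co D (et B.FR y) (et B.FL B.FT) := fun y c1 c2 =>
      (et_col (yb := B.FT) fun z hz => hD _ _ (by omega)).trans (top _ (by omega) le_rfl)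
    have botm : ∀ x, B.FL ≤ x → x ≤ B.FR → Co D (et x B.FB) (et B.FL B.FT) := fun x c1 c2 =>
      (et_row (xb := B.FR) fun z hz => hD _ _ (by omega)).trans (right _ le_rfl (by omega))
    rcases h5 with rfl | rfl | rfl | rfl
    · rcases (by omega : X.2 ≤ y ∨ y ≤ X.2 - 2) with c | c
      · exact et_col fun z hz => hD _ _ (by omega)
      · exact (et_col (yb := B.FB) fun z hz => hD _ _ (by omega)).trans (botm _ le_rfl (by omega))
    · exact right y h3 h4
    · exact botm x h1 h2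
    · exact top x h1 h2
  · simp only [hs, true_and, Bool.true_eq_false, false_and, not_false_eq_true, true_and] at hD h6 h7
    have left : ∀ y, B.FB ≤ y → y ≤ B.FT → Co D (et B.FL y) (et B.FL B.FT) := fun y c1 c2 =>
      et_col (yb := B.FT) fun z hz => hD _ _ (by omega)
    have botm : ∀ x, B.FL ≤ x → x ≤ B.FR → Co D (et x B.FB) (et B.FL B.FT) := fun x c1 c2 =>
      (bot x c1 c2).trans (left _ le_rfl (by omega))
    rcases h5 with rfl | rfl | rfl | rfl
    · exact left y h3 h4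
    · rcases (by omega : X.2 + 2 ≤ y ∨ y ≤ X.2) with c | c
      · exact (et_col (yb := B.FT) fun z hz => hD _ _ (by omega)).trans (top _ (by omega) le_rfl)
      · exact (et_col (yb := B.FB) fun z hz => hD _ _ (by omega)).trans (botm _ (by omega) le_rfl)
    · exact botm x h1 h2
    · exact top x h1 h2

/-- column of the frame at a port -/
def fx (B : BF) (X : Bool × ℤ) : ℤ := if X.1 then B.FR else B.FL

/-- along the wire -/
lemma co_wire {D : Finset (ℤ × ℤ)} (hX : B.IsP X) (hD : ∀ x y, B.InW X x y → lt (x, y) ∈ D) :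
    Co D (et (B.fx X) X.2) (B.nv (B.pos X)) := by
  have e1 := px_pos hX
  have e2 := py_pos hX
  have b1 := B.hx; have b2 := B.hy; have b3 := B.hL; have b4 := B.hR
  unfold nv et fx
  rw [e1, e2]
  unfold InW at hD
  rcases hs : X.1 with _ | _
  · simp only [hs, Bool.false_eq_true, if_false, true_and, false_and, or_false] at hD ⊢
    refine rco B.FL B.x0 X.2 (X.2 + 1) (by omega) (by omega) (fun x y d1 d2 d3 d4 => ?_) (by omega) (by omega)
    obtain rfl : y = X.2 := by omega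
    exact hD _ _ (by omega)
  · simp only [hs, Bool.true_eq_false, if_true, true_and, false_and, false_or] at hD ⊢
    refine rco B.x1 (B.FR + 1) X.2 (X.2 + 1) (by omega) (by omega) (fun x y d1 d2 d3 d4 => ?_) (by omega)
      (by omega)
    obtain rfl : y = X.2 := by omega
    exact hD _ _ (by omega)

/-- the root vertex is at the end of the wire -/
lemma co_root {D : Finset (ℤ × ℤ)} (hX : B.Fit X) (hD : ∀ x y, B.InW X x y → lt (x, y) ∈ D) :
    Co D (vx (B.c0 X)) (B.nv (B.pos X)) := by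
  have e1 := px_pos hX.toIsP
  have e2 := py_pos hX.toIsP
  have b1 := B.hx; have b2 := B.hy; have b3 := B.hL; have b4 := B.hR
  rw [(vf_c0 hX).1]
  unfold nv
  rw [e1, e2]
  unfold InW at hD
  rcases hs : X.1 with _ | _
  · have := hX.pL hs
    simp only [hs, Bool.false_eq_true, if_false, true_and, false_and, or_false] at hD ⊢
    refine rco B.FL B.x0 X.2 (X.2 + 1) (by omega) (by omega) (fun x y d1 d2 d3 d4 => ?_) (by omega) (by omega)
    obtain rfl : y = X.2 := by omega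
    exact hD _ _ (by omega)
  · have := hX.pR hs
    simp only [hs, Bool.true_eq_false, if_true, true_and, false_and, false_or] at hD ⊢
    refine rco B.x1 (B.FR + 1) X.2 (X.2 + 1) (by omega) (by omega) (fun x y d1 d2 d3 d4 => ?_) (by omega)
      (by omega)
    obtain rfl : y = X.2 := by omega
    exact hD _ _ (by omega)

/-- two ports are not in adjacent rows of the same side -/
def Ap (X Y : Bool × ℤ) : Prop := X.1 = Y.1 → X.2 + 2 ≤ Y.2 ∨ Y.2 + 2 ≤ X.2

lemma Ap.ne_fr (h : Ap X Y) : X.1 = Y.1 → Y.2 ≠ B.fr X := by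
  intro h1
  have := h h1
  unfold fr
  split_ifs <;> omega

/-- **The two wires are joined through the frame.** -/
theorem co_frame (hX : B.IsP X) (hY : B.IsP Y) (hA : Ap X Y) :
    Co (B.Wf X Y) (B.nv (B.pos X)) (B.nv (B.pos Y)) := by
  have k1 := hX
  have k2 := hY
  obtain ⟨a1, a2, a3, a4⟩ := k1
  obtain ⟨c1, c2, c3, c4⟩ := k2
  have b1 := B.hx; have b2 := B.hy; have b3 := B.hL; have b4 := B.hR; have b5 := B.hB; have b6 := B.hT
  have hD : ∀ x y, B.InR X x y → lt (x, y) ∈ B.Wf X Y := fun x y h => by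
    rw [mem_Wf hX hY]; exact Or.inr (Or.inr h)
  have rX : B.InR X (B.fx X) X.2 := by
    unfold InR InF fx
    rcases hs : X.1 with _ | _ <;>
      simp only [Bool.false_eq_true, Bool.true_eq_false, if_false, if_true, true_and, false_and,
        not_false_eq_true, and_true, true_or, or_true] <;> omega
  have rY : B.InR X (B.fx Y) Y.2 := by
    unfold Ap at hA
    unfold InR InF fx
    rcases hs : X.1 with _ | _ <;> rcases ht : Y.1 with _ | _ <;>
      simp only [hs, ht, Bool.false_eq_true, Bool.true_eq_false, if_false, if_true, true_and,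
        false_and, true_implies, not_false_eq_true, and_true, true_or, or_true] at hA ⊢ <;> omega
  exact (co_wire hX fun x y h => by rw [mem_Wf hX hY]; exact Or.inl h).symm.trans
    (((et_frame hX hD rX).trans (et_frame hX hD rY).symm).trans
      (co_wire hY fun x y h => by rw [mem_Wf hX hY]; exact Or.inr (Or.inl h)))

end BF

end Pool.Agent.H33.Sp
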