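import Mathlib
import Pool.Agent.H33.Sp.Far
import Pool.Agent.H33.FM.SameType

set_option autoImplicit false
open Finset

/-! # Far labels of the same type give the same increments

`same_conn` : two environments with the same random labels whose outer connections agree have the same
increments up to a unit. `sameX`, `sameY` : the far labels are changed into far labels of the same type;
only the colours of the boundary tiles of the box are used. -/

namespace Pool.Agent.H33.Sp

open Pool.Agent.H75.Perc hiding ph cc EE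
open Pool.Agent.H75.TwoArm Pool.Agent.Q1 Pool.Agent.H33.Q1
open Pool.Agent.H69.Q1
open Pool.Agent.H74.R45 hiding plab_nx
open Pool.Agent.H13.R45 (gp)
open Pool.Agent.Q1.Env (TConn TAdj ArcN SamePat)
open Pool.Agent.Q1.M6c (PlaneEnv co_nx_step dco_nx_step entrance_unique)
open Pool.Agent.H33.FM (stdEnv stdEnv_inc plane_start plane_arc)

/-! ### Dual connections as paths -/

/-- closed dual adjacency -/
def DAd (w : Finset (ℤ × ℤ)) (f g : ℤ × ℤ) : Prop := IsUnit4 (g - f) ∧ f + g - (1, 1) ∉ w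

lemma dco_iff {w : Finset (ℤ × ℤ)} {f g : ℤ × ℤ} : DCo w f g ↔ Relation.ReflTransGen (DAd w) f g := by
  constructor
  · rintro ⟨F, hF⟩
    have key : ∀ a b, Ad (du F w) a b → DAd w a b := by
      intro a b h
      refine ⟨h.1, ?_⟩
      have h2 := h.2
      unfold du at h2
      rw [mem_map] at h2
      obtain ⟨m, hm, e⟩ := h2
      have e' : (m.1 + 1, m.2 + 1) = a + b := e
      have e2 : a + b - (1, 1) = m := by
        rw [← e']
        refine Prod.ext ?_ ?_ <;> simp
      rw [e2]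
      exact (mem_sdiff.1 hm).2
    exact Relation.ReflTransGen.mono key _ _ hF
  · intro h
    induction h with
    | refl => exact DCo.refl _ _
    | tail _ h2 ih => exact ih.trans (DCo.step h2.1 h2.2)

/-- near and far steps -/
lemma rtg_transfer {α : Type*} {R F G : α → α → Prop} {T : α → Prop} (gr : ∀ a, G a a)
    (gt : ∀ a b c, G a b → G b c → G a c) (hR : ∀ a b, R a b → T a ∧ T b ∧ G a b)
    (hF : ∀ a b, T a → T b → Relation.ReflTransGen F a b → G a b) {u v : α} (hu : T u) (hv : T v)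
    (h : Relation.ReflTransGen (fun a b => R a b ∨ F a b) u v) : G u v := by
  have key : ∀ w, Relation.ReflTransGen (fun a b => R a b ∨ F a b) u w →
      ∃ t, T t ∧ G u t ∧ Relation.ReflTransGen F t w := by
    intro w hw
    induction hw with
    | refl => exact ⟨u, hu, gr u, Relation.ReflTransGen.refl⟩
    | tail _ h2 ih =>
      obtain ⟨t, h3, h4, h5⟩ := ih
      rcases h2 with h2 | h2
      · obtain ⟨k1, k2, k3⟩ := hR _ _ h2
        exact ⟨_, k2, gt _ _ _ (gt _ _ _ h4 (hF _ _ h3 k1 h5)) k3, Relation.ReflTransGen.refl⟩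
      · exact ⟨t, h3, h4, h5.tail h2⟩
  obtain ⟨t, h3, h4, h5⟩ := key v h
  exact gt _ _ _ h4 (hF _ _ h3 hv h5)

/-! ### Arcs from connections -/

lemma arc_conn {E W : Finset (ℤ × ℤ)} {c0 c : ℤ × ℤ} (h : Arc E W c0 c) :
    Co W (vx c0) (vx c) ∧ DCo (E ∪ W) (fi c0) (fi c) := by
  obtain ⟨n, hlt, he, -⟩ := h
  have hcoz : ∀ i ≤ n, Co W (vx c0) (vx ((nx W)^[i] c0)) ∧
      DCo (E ∪ W) (fi c0) (fi ((nx W)^[i] c0)) := by
    intro i
    induction i with
    | zero => intro _; exact ⟨Co.refl _ _, DCo.refl _ _⟩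
    | succ i ih =>
      intro hi
      obtain ⟨h1, h2⟩ := ih (by omega)
      rw [Function.iterate_succ_apply']
      refine ⟨h1.trans (co_nx_step fun hl => hl), h2.trans (dco_nx_step fun hl => ?_)⟩
      rw [mem_union, not_or]
      exact ⟨hlt i (by omega), hl⟩
  rw [← he]
  exact hcoz n le_rfl

/-- the entrance reached from a corner -/
theorem arc_of {E W : Finset (ℤ × ℤ)} (hodd : ∀ e ∈ E, (e.1 + e.2) % 2 = 1) (hconn : TConn E)
    (hd : Disjoint W E) {c0 c : ℤ × ℤ} (h0 : lab c0 ∈ E → plab c0 ∉ E) (hc : lab c ∈ E)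
    (hc' : plab c ∉ E)
    (hco : Co W (vx c0) (vx c)) (hdco : DCo (E ∪ W) (fi c0) (fi c)) : Arc E W c0 c := by
  classical
  obtain ⟨F, hF⟩ := hdco.anti subset_union_right
  obtain ⟨n0, hn0⟩ := inOrb_of_co W hco hF
  have hex : ∃ n, lab ((nx W)^[n] c0) ∈ E := ⟨n0, by rw [hn0]; exact hc⟩
  set n := Nat.find hex with hn
  have hz : lab ((nx W)^[n] c0) ∈ E := Nat.find_spec hex
  have hlt : ∀ i < n, lab ((nx W)^[i] c0) ∉ E := fun i hi => Nat.find_min hex hi
  have harc : Arc E W c0 ((nx W)^[n] c0) := ⟨n, hlt, rfl, hz⟩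
  have hpl : plab ((nx W)^[n] c0) ∉ E := by
    rcases Nat.eq_zero_or_pos n with h1 | h1
    · rw [h1] at hz ⊢; exact h0 hz
    · obtain ⟨m, hm⟩ : ∃ m, n = m + 1 := ⟨n - 1, by omega⟩
      rw [hm, Function.iterate_succ_apply', plab_nx]
      exact hlt m (by omega)
  obtain ⟨g1, g2⟩ := arc_conn harc
  have heq := entrance_unique hconn hodd hd hz hpl hc hc'
    (g1.symm.trans hco) (by rw [union_comm]; exact g2.symm.trans hdco)
  rw [← heq]; exact harc

/-! ### The same outer connections -/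

/-- `W'` has the outer connections of `W`, between vertices and faces of the corners of `E` -/
structure Tr (E W W' : Finset (ℤ × ℤ)) : Prop where
  co : ∀ c c', (lab c ∈ E ∨ plab c ∈ E) → (lab c' ∈ E ∨ plab c' ∈ E) → Co W (vx c) (vx c') →
    Co W' (vx c) (vx c')
  dco : ∀ c c', (lab c ∈ E ∨ plab c ∈ E) → (lab c' ∈ E ∨ plab c' ∈ E) →
    DCo (E ∪ W) (fi c) (fi c') → DCo (E ∪ W') (fi c) (fi c')

lemma arc_tr {E W W' : Finset (ℤ × ℤ)} (hodd : ∀ e ∈ E, (e.1 + e.2) % 2 = 1) (hconn : TConn E)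
    (hd : Disjoint W' E) (H : Tr E W W') {x c : ℤ × ℤ} (hx : plab x ∈ E) (h : Arc E W x c) :
    Arc E W' x c := by
  obtain ⟨g1, g2⟩ := arc_conn h
  obtain ⟨n, hlt, he, hc⟩ := h
  by_cases hl : lab x ∈ E
  · have hn : n = 0 := by
      by_contra h1
      exact hlt 0 (by omega) hl
    subst hn
    exact ⟨0, fun i hi => absurd hi (by omega), he, hc⟩
  · have hn : n ≠ 0 := by
      rintro rfl
      apply hl
      have : x = c := he
      rw [this]; exact hc
    obtain ⟨m, rfl⟩ : ∃ m, n = m + 1 := ⟨n - 1, by omega⟩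
    have hpc : plab c ∉ E := by
      rw [← he, Function.iterate_succ_apply', plab_nx]
      exact hlt m (by omega)
    exact arc_of hodd hconn hd (fun h => absurd h hl) hc hpc (H.co _ _ (Or.inr hx) (Or.inl hc) g1)
      (H.dco _ _ (Or.inr hx) (Or.inl hc) g2)

/-- a start is an entrance -/
lemma arc_entrance {E W : Finset (ℤ × ℤ)} {c0 c : ℤ × ℤ} (h0 : plab c0 ∉ E) (h : Arc E W c0 c) :
    lab c ∈ E ∧ plab c ∉ E := by
  obtain ⟨n, hlt, he, hc⟩ := h
  refine ⟨hc, ?_⟩
  rcases Nat.eq_zero_or_pos n with h1 | h1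
  · subst h1
    have : c0 = c := he
    rw [← this]; exact h0
  · obtain ⟨m, rfl⟩ : ∃ m, n = m + 1 := ⟨n - 1, by omega⟩
    rw [← he, Function.iterate_succ_apply', plab_nx]
    exact hlt m (by omega)

/-- **Environments with the same outer connections have the same increments**, up to a unit. -/
theorem same_conn {E W W' : Finset (ℤ × ℤ)} (hconn : TConn E) (H : Tr E W W') (H' : Tr E W' W)
    {X Y : Env} (pX : PlaneEnv X W) (pY : PlaneEnv Y W') (eX : X.E = E) (eY : Y.E = E)
    (hs : ∀ c, lab c ∈ E → (Co W (vx X.c0) (vx c) ∧ DCo (E ∪ W) (fi X.c0) (fi c) ↔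
      Co W' (vx Y.c0) (vx c) ∧ DCo (E ∪ W') (fi Y.c0) (fi c))) :
    ∃ κ : ℤ, ∀ c, (lab c ∈ E ∨ plab c ∈ E) → Y.inc c = ph κ * X.inc c := by
  subst eX
  have hodd := X.odd
  have hdW : Disjoint W X.E := pX.disj.symm
  have hdW' : Disjoint W' X.E := by rw [← eY]; exact pY.disj.symm
  have r1 : plab X.c0 ∉ X.E := Env.plab_root
  have r2 : plab Y.c0 ∉ X.E := by rw [← eY]; exact Env.plab_root
  have hst : ∀ c, Arc X.E W X.c0 c ↔ Arc X.E W' Y.c0 c := by
    intro c
    constructor
    · intro h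
      obtain ⟨k1, k2⟩ := arc_entrance r1 h
      have k3 := (hs c k1).1 (arc_conn h)
      exact arc_of hodd hconn hdW' (fun _ => r2) k1 k2 k3.1 k3.2
    · intro h
      obtain ⟨k1, k2⟩ := arc_entrance r2 h
      have k3 := (hs c k1).2 (arc_conn h)
      exact arc_of hodd hconn hdW (fun _ => r1) k1 k2 k3.1 k3.2
  have hconn' : TConn (stdEnv X W pX).E := hconn
  have hp : SamePat (stdEnv X W pX) (stdEnv Y W' pY) := by
    refine ⟨?_, ?_, ?_⟩
    · change Y.E = X.E
      exact eY
    · intro x c hx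
      have hx' : plab x ∈ X.E := hx
      have h1 : (stdEnv X W pX).Arc x c ↔ Arc X.E W x c ∧ ¬ Arc X.E W X.c0 c := plane_arc hx'
      have h2 : (stdEnv Y W' pY).Arc x c ↔ Arc Y.E W' x c ∧ ¬ Arc Y.E W' Y.c0 c :=
        plane_arc (by rw [eY]; exact hx')
      rw [h1, h2, eY, hst c]
      exact and_congr_left fun _ => ⟨arc_tr hodd hconn hdW' H hx', arc_tr hodd hconn hdW H' hx'⟩
    · intro c
      have h1 : (stdEnv X W pX).Start c ↔ Arc X.E W X.c0 c := plane_start
      have h2 : (stdEnv Y W' pY).Start c ↔ Arc Y.E W' Y.c0 c := plane_start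
      rw [h1, h2, eY]
      exact hst c
  obtain ⟨κ, hκ⟩ := hp.exists_inc hconn'
  refine ⟨κ, fun c hc => ?_⟩
  have := hκ c hc
  rw [stdEnv_inc, stdEnv_inc] at this
  exact this

end Pool.Agent.H33.Sp
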