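import Mathlib
import Pool.Agent.H33.Sp.SameFar

set_option autoImplicit false
open Finset

/-! # Far labels of the same type give the same increments, ports

`B.Nr E W C` : near the box, `C p` says that the boundary tile at the position `p` is open. `B.FX W p`,
`B.FY W p q` : the labels of `W` outside of the box are of type X (one wire, at the position `p`), Y (two
wires at the positions `p`, `q`, joined outside). `sameX`, `sameY` : the positions of the wires do not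
matter. -/

namespace Pool.Agent.H33.Sp

open Pool.Agent.H75.Perc hiding ph cc EE
open Pool.Agent.H75.TwoArm Pool.Agent.Q1 Pool.Agent.H33.Q1
open Pool.Agent.H69.Q1
open Pool.Agent.H74.R45 hiding plab_nx
open Pool.Agent.H33.R45 (rco rdco vx_he_S vx_he_N vx_ve_E vx_ve_W)
open Pool.Agent.H13.R45 (gp)
open Pool.Agent.Q1.Env (TConn TAdj ArcN SamePat)
open Pool.Agent.Q1.M6c (PlaneEnv)

/-- the grid point `p` is a corner of the tile `(x, y)` -/
def Tch (x y : ℤ) (p : ℤ × ℤ) : Prop := x ≤ p.1 ∧ p.1 ≤ x + 1 ∧ y ≤ p.2 ∧ p.2 ≤ y + 1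

/-- the vertex and the face of a corner touch its labels -/
lemma lab_touch (c : ℤ × ℤ) : (∃ x y, lab c = lt (x, y) ∧ Tch x y (tv (vx c)) ∧ Tch x y (tf (fi c))) ∧
    (∃ x y, plab c = lt (x, y) ∧ Tch x y (tv (vx c)) ∧ Tch x y (tf (fi c))) := by
  unfold Tch
  rcases Int.emod_two_eq_zero_or_one (c.1 + c.2) with h | h
  · obtain ⟨x, y, rfl⟩ : ∃ x y, c = he (x, y) := ⟨(c.1 + c.2 - 2) / 2, (c.2 - c.1) / 2, by
      unfold he; refine Prod.ext ?_ ?_ <;> simp only <;> omega⟩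
    rcases Int.emod_two_eq_zero_or_one (x + y) with h1 | h1
    · rw [lab_he_N h1, plab_he_N h1, (vx_he_N h1).1, (vx_he_N h1).2, tv_gp h1, tf_gp (by omega)]
      exact ⟨⟨x, y, rfl, by simp only; omega⟩, ⟨x, y - 1, rfl, by simp only; omega⟩⟩
    · rw [lab_he_S h1, plab_he_S h1, (vx_he_S h1).1, (vx_he_S h1).2, tv_gp (by omega), tf_gp h1]
      exact ⟨⟨x, y - 1, rfl, by simp only; omega⟩, ⟨x, y, rfl, by simp only; omega⟩⟩
  · obtain ⟨x, y, rfl⟩ : ∃ x y, c = ve (x, y) := ⟨(c.1 + c.2 - 1) / 2, (c.2 - c.1 - 1) / 2, by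
      unfold ve; refine Prod.ext ?_ ?_ <;> simp only <;> omega⟩
    rcases Int.emod_two_eq_zero_or_one (x + y) with h1 | h1
    · rw [lab_ve_W h1, plab_ve_W h1, (vx_ve_W h1).1, (vx_ve_W h1).2, tv_gp h1, tf_gp (by omega)]
      exact ⟨⟨x - 1, y, rfl, by simp only; omega⟩, ⟨x, y, rfl, by simp only; omega⟩⟩
    · rw [lab_ve_E h1, plab_ve_E h1, (vx_ve_E h1).1, (vx_ve_E h1).2, tv_gp (by omega), tf_gp h1]
      exact ⟨⟨x, y, rfl, by simp only; omega⟩, ⟨x - 1, y, rfl, by simp only; omega⟩⟩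

namespace BF

variable (B : BF)

/-- the closed box -/
def InC (p : ℤ × ℤ) : Prop := B.x0 ≤ p.1 ∧ p.1 ≤ B.x1 ∧ B.y0 ≤ p.2 ∧ p.2 ≤ B.y1

/-- the open box -/
def InI (p : ℤ × ℤ) : Prop := B.x0 < p.1 ∧ p.1 < B.x1 ∧ B.y0 < p.2 ∧ p.2 < B.y1

/-- **Random and open labels near the box**; `C p` : the row at the position `p` is wired -/
structure Nr (E W : Finset (ℤ × ℤ)) (C : ℤ → Prop) : Prop where
  odd : ∀ e ∈ E, (e.1 + e.2) % 2 = 1
  inE : ∀ x y, lt (x, y) ∈ E → B.x0 < x ∧ x + 1 < B.x1 ∧ B.y0 < y ∧ y + 1 < B.y1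
  lf : ∀ p, 0 ≤ p → p < 2 * B.N → (lt (B.ix p, B.py p) ∈ W ↔ C p)
  bt : ∀ x, B.x0 ≤ x → x < B.x1 → (lt (x, B.y0) ∈ W ↔ C B.N)
  tp : ∀ x, B.x0 ≤ x → x < B.x1 → (lt (x, B.y1 - 1) ∈ W ↔ C 0)

/-- the face touches a closed label of the box -/
def TF (E W : Finset (ℤ × ℤ)) (f : ℤ × ℤ) : Prop :=
  ∃ x y, B.InB x y ∧ lt (x, y) ∉ E ∪ W ∧ Tch x y (tf f)

/-- **Type X**: one wire, at the position `p`. -/
structure FX (W : Finset (ℤ × ℤ)) (p : ℤ) : Prop where
  cor : B.Cor (B.GB ∪ W) (fun r => r = p)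
  r0 : 0 ≤ p
  r1 : p + 1 < 2 * B.N

/-- **Type Y**: two wires, at the positions `p` and `q`, joined outside of the box. -/
structure FY (W : Finset (ℤ × ℤ)) (p q : ℤ) : Prop where
  cor : B.Cor (B.GB ∪ W) (fun r => r = p ∨ r = q)
  r0 : 0 ≤ p
  r1 : p + 1 < 2 * B.N
  s0 : 0 ≤ q
  s1 : q + 1 < 2 * B.N
  ne : p ≠ q
  co : Co W (B.nv p) (B.nv q)
  sep : ¬ DCo (B.GB ∪ W) (B.nd (p + 1)) (B.nd (q + 1))

variable {B} {E W W' A : Finset (ℤ × ℤ)} {C P : ℤ → Prop} {p q r p' q' x y : ℤ}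

lemma Nr.sub (N : B.Nr E W C) : E ⊆ B.GB := by
  intro e he
  obtain ⟨x, y, rfl⟩ := exists_lt (N.odd e he)
  have := N.inE x y he
  rw [mem_GB]
  unfold InB
  omega

lemma Nr.corI (N : B.Nr E W C) : B.CorI W C where
  lf := fun p h0 h1 h2 => (N.lf p h0 h1).2 h2
  bt := fun _ h2 x h3 h4 => (N.bt x h3 h4).2 h2
  tp := fun _ h2 x h3 h4 => (N.tp x h3 h4).2 h2

lemma Nr.corner (N : B.Nr E W C) {c : ℤ × ℤ} (hc : lab c ∈ E ∨ plab c ∈ E) :
    B.InI (tv (vx c)) ∧ B.InI (tf (fi c)) := by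
  obtain ⟨⟨x, y, e, h1, h2⟩, ⟨x', y', e', h1', h2'⟩⟩ := lab_touch c
  unfold Tch at h1 h2 h1' h2'
  unfold InI
  rcases hc with hc | hc
  · rw [e] at hc
    have := N.inE x y hc
    omega
  · rw [e'] at hc
    have := N.inE x' y' hc
    omega

lemma nv_InC (h0 : 0 ≤ p) (h1 : p < 2 * B.N) : B.InC (tv (B.nv p)) := by
  have hN : B.N = B.y1 - B.y0 := rfl
  have := B.hx
  unfold nv
  rw [tv_gp (by omega)]
  unfold InC px py
  split_ifs <;> simp only <;> omega

/-- a far label at a vertex of the closed box is a port -/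
lemma touch_v_far (H : B.Cor (B.GB ∪ W) P) {u : ℤ × ℤ} (hu : B.InC (tv u)) (hl : lt (x, y) ∈ W)
    (hn : ¬ B.InB x y) (ht : Tch x y (tv u)) : ∃ r, 0 ≤ r ∧ r < 2 * B.N ∧ P r ∧ u = B.nv r := by
  have hN : B.N = B.y1 - B.y0 := rfl
  have hx := B.hx
  have hy := B.hy
  unfold InC at hu
  unfold InB at hn
  unfold Tch at ht
  obtain ⟨e1, e2⟩ := gp_tv u
  have hb : y ≠ B.y0 - 1 := fun h => H.bt x (by omega) (by omega) (by
    rw [← h]; exact mem_union_right _ hl)
  have ht' : y ≠ B.y1 := fun h => H.tp x (by omega) (by omega) (by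
    rw [← h]; exact mem_union_right _ hl)
  have hc : (x = B.x0 - 1 ∧ (tv u).1 = B.x0) ∨ (x = B.x1 ∧ (tv u).1 = B.x1) := by omega
  rcases hc with ⟨h1, h2⟩ | ⟨h1, h2⟩
  · refine ⟨B.y1 - 1 - y, by omega, by omega, ?_, ?_⟩
    · by_contra hP
      have := H.lf (B.y1 - 1 - y) (by omega) (by omega) hP
      unfold ox py at this
      rw [if_pos (by omega), if_pos (by omega), show B.y1 - 1 - (B.y1 - 1 - y) = y by ring, ← h1] at this
      exact this (mem_union_right _ hl)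
    · rw [← e1]
      unfold nv px py
      rw [if_pos (by omega), if_pos (by omega)]
      congr 1
      refine Prod.ext ?_ ?_ <;> simp only <;> omega
  · refine ⟨B.N + (y - B.y0), by omega, by omega, ?_, ?_⟩
    · by_contra hP
      have := H.lf (B.N + (y - B.y0)) (by omega) (by omega) hP
      unfold ox py at this
      rw [if_neg (by omega), if_neg (by omega), show B.y0 + (B.N + (y - B.y0) - B.N) = y by ring,
        ← h1] at this
      exact this (mem_union_right _ hl)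
    · rw [← e1]
      unfold nv px py
      rw [if_neg (by omega), if_neg (by omega)]
      congr 1
      refine Prod.ext ?_ ?_ <;> simp only <;> omega

/-- a face of the boundary which touches a closed label of the box is next to a free row -/
lemma face_pos (N : B.Nr E W C) {f : ℤ × ℤ} (hf : B.TF E W f)
    (hb : (tf f).1 = B.x0 ∨ (tf f).1 = B.x1 ∨ (tf f).2 = B.y0 ∨ (tf f).2 = B.y1) :
    ∃ r, 0 ≤ r ∧ r < 2 * B.N ∧ ¬ C r ∧ ∀ (A : Finset (ℤ × ℤ)) (P : ℤ → Prop), B.Cor A P →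
      (∀ s, P s → C s) → DCo A f (B.nd r) := by
  have hN : B.N = B.y1 - B.y0 := rfl
  have hx := B.hx
  have hy := B.hy
  obtain ⟨e1, e2⟩ := gp_tf f
  obtain ⟨x, y, h1, h2, h3⟩ := hf
  obtain ⟨a, b, hab⟩ : ∃ a b, tf f = (a, b) := ⟨_, _, rfl⟩
  rw [hab] at e1 e2 h3 hb
  unfold InB at h1
  unfold Tch at h3
  simp only at e2 h3 hb
  have hW : lt (x, y) ∉ W := fun h => h2 (mem_union_right _ h)
  rcases hb with hb | hb | hb | hb
  · refine ⟨B.y1 - 1 - y, by omega, by omega, fun hC => ?_, fun A P _ _ => ?_⟩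
    · have := (N.lf (B.y1 - 1 - y) (by omega) (by omega)).2 hC
      unfold ix py at this
      rw [if_pos (by omega), if_pos (by omega), show B.y1 - 1 - (B.y1 - 1 - y) = y by ring,
        show B.x0 = x by omega] at this
      exact hW this
    · have : f = B.nd (B.y1 - 1 - y) := by
        rw [← e1]
        unfold nd px py
        rw [if_pos (by omega), if_pos (by omega)]
        congr 1
        refine Prod.ext ?_ ?_ <;> simp only <;> omega
      rw [← this]
      exact DCo.refl _ _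
  · refine ⟨B.N + (y - B.y0), by omega, by omega, fun hC => ?_, fun A P _ _ => ?_⟩
    · have := (N.lf (B.N + (y - B.y0)) (by omega) (by omega)).2 hC
      unfold ix py at this
      rw [if_neg (by omega), if_neg (by omega), show B.y0 + (B.N + (y - B.y0) - B.N) = y by ring,
        show B.x1 - 1 = x by omega] at this
      exact hW this
    · have : f = B.nd (B.N + (y - B.y0)) := by
        rw [← e1]
        unfold nd px py
        rw [if_neg (by omega), if_neg (by omega)]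
        congr 1
        refine Prod.ext ?_ ?_ <;> simp only <;> omega
      rw [← this]
      exact DCo.refl _ _
  · have hC : ¬ C B.N := fun hC => hW (by
      have := (N.bt x (by omega) (by omega)).2 hC
      rwa [show B.y0 = y by omega] at this)
    refine ⟨B.N, by omega, by omega, hC, fun A P H hP => ?_⟩
    have c1 := H.lf B.N (by omega) (by omega) fun h => hC (hP _ h)
    have c2 := H.bt
    unfold ox py at c1
    rw [if_neg (by omega), if_neg (by omega), show B.y0 + (B.N - B.N) = B.y0 by ring] at c1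
    rw [← e1]
    unfold nd px py
    rw [if_neg (by omega), if_neg (by omega), show B.y0 + (B.N - B.N) = B.y0 by ring]
    refine (rdco (B.x0 - 1) (B.x1 + 1) (B.y0 - 1) B.y0 (by omega) (by omega)
      (fun x y d1 d2 d3 d4 => ?_) (c := B.x1 + 1 - (B.x1 + B.y0) % 2) (d := B.y0) (by omega)
      (by omega)).trans (rdco B.x1 (B.x1 + 1) (B.y0 - 1) (B.y0 + 1) (by omega) (by omega)
      (fun x y d1 d2 d3 d4 => ?_) (by omega) (by omega))
    · obtain rfl : y = B.y0 - 1 := by omega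
      exact c2 _ (by omega) (by omega)
    · obtain rfl : x = B.x1 := by omega
      rcases (by omega : y = B.y0 ∨ y = B.y0 - 1) with rfl | rfl
      · exact c1
      · exact c2 _ (by omega) (by omega)
  · have hC : ¬ C 0 := fun hC => hW (by
      have := (N.tp x (by omega) (by omega)).2 hC
      rwa [show B.y1 - 1 = y by omega] at this)
    refine ⟨0, by omega, by omega, hC, fun A P H hP => ?_⟩
    have c1 := H.lf 0 (by omega) (by omega) fun h => hC (hP _ h)
    have c2 := H.tp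
    unfold ox py at c1
    rw [if_pos (by omega), if_pos (by omega), show B.y1 - 1 - 0 = B.y1 - 1 by ring] at c1
    rw [← e1]
    unfold nd px py
    rw [if_pos (by omega), if_pos (by omega), show B.y1 - 1 - 0 = B.y1 - 1 by ring]
    refine (rdco (B.x0 - 1) (B.x1 + 1) B.y1 (B.y1 + 1) (by omega) (by omega)
      (fun x y d1 d2 d3 d4 => ?_) (c := B.x0 - 1 + (B.x0 + B.y1) % 2) (d := B.y1) (by omega)
      (by omega)).trans (rdco (B.x0 - 1) B.x0 (B.y1 - 1) (B.y1 + 1) (by omega) (by omega)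
      (fun x y d1 d2 d3 d4 => ?_) (by omega) (by omega))
    · obtain rfl : y = B.y1 := by omega
      exact c2 _ (by omega) (by omega)
    · obtain rfl : x = B.x0 - 1 := by omega
      rcases (by omega : y = B.y1 - 1 ∨ y = B.y1) with rfl | rfl
      · exact c1
      · exact c2 _ (by omega) (by omega)

/-- the face at a free row touches a closed label -/
lemma nd_TF (N : B.Nr E W C) (h0 : 0 ≤ r) (h1 : r < 2 * B.N) (hC : ¬ C r) : B.TF E W (B.nd r) := by
  have hN : B.N = B.y1 - B.y0 := rfl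
  have hx := B.hx
  have hy := B.hy
  refine ⟨B.ix r, B.py r, ?_, ?_, ?_⟩
  · unfold InB ix py
    split_ifs <;> omega
  · rw [mem_union, not_or]
    refine ⟨fun h => ?_, fun h => hC ((N.lf r h0 h1).1 h)⟩
    have := N.inE _ _ h
    unfold ix py at this
    split_ifs at this <;> omega
  · unfold nd Tch
    rw [tf_gp (by omega)]
    unfold px py ix
    split_ifs <;> simp only <;> omega

/-! ### Transfer of connections -/

/-- transfer of connections between vertices of the closed box -/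
theorem co_tr (hn : ∀ e ∈ B.GB, e ∈ W → e ∈ W')
    (hF : ∀ u v, B.InC (tv u) → B.InC (tv v) → Co (W \ B.GB) u v → Co W' u v) {u v : ℤ × ℤ}
    (hu : B.InC (tv u)) (hv : B.InC (tv v)) (h : Co W u v) : Co W' u v := by
  refine rtg_transfer (R := Ad (W ∩ B.GB)) (F := Ad (W \ B.GB)) (G := Co W')
    (T := fun u => B.InC (tv u)) (fun a => Co.refl _ _) (fun a b c h1 h2 => h1.trans h2) ?_ hF hu hv ?_
  · intro a b hab
    obtain ⟨x, y, e, h1, h2⟩ := touch_v hab.1
    have h3 := hab.2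
    rw [mem_inter] at h3
    have h4 := h3.2
    rw [e, mem_GB] at h4
    unfold InB at h4
    refine ⟨?_, ?_, Relation.ReflTransGen.single ⟨hab.1, hn _ h3.2 h3.1⟩⟩ <;> unfold InC <;> omega
  · refine Relation.ReflTransGen.mono (fun a b hab => ?_) _ _ h
    by_cases hg : a + b ∈ B.GB
    · exact Or.inl ⟨hab.1, mem_inter.2 ⟨hab.2, hg⟩⟩
    · exact Or.inr ⟨hab.1, mem_sdiff.2 ⟨hab.2, hg⟩⟩

/-- the first step of a path of faces -/
lemma head_TF {f g : ℤ × ℤ} (hf : B.TF E W f ∨ B.InI (tf f)) (hne : f ≠ g)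
    (h : Relation.ReflTransGen (DAd (E ∪ W)) f g) : B.TF E W f := by
  rcases hf with hf | hf
  · exact hf
  · rcases Relation.ReflTransGen.cases_head h with h1 | ⟨w, h1, -⟩
    · exact absurd h1 hne
    · obtain ⟨x, y, e, h2, -⟩ := touch_f h1.1
      refine ⟨x, y, ?_, ?_, h2⟩
      · unfold InI at hf
        unfold InB
        omega
      · rw [← e]; exact h1.2

/-- transfer of dual connections -/
theorem dco_tr (hn : ∀ e ∈ B.GB, e ∈ W' → e ∈ W)
    (hF : ∀ f g, B.TF E W f → B.TF E W g → DCo (B.GB ∪ W) f g → DCo (E ∪ W') f g) {f g : ℤ × ℤ}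
    (hf : B.TF E W f ∨ B.InI (tf f)) (hg : B.TF E W g ∨ B.InI (tf g))
    (h : DCo (E ∪ W) f g) : DCo (E ∪ W') f g := by
  by_cases hne : f = g
  · rw [hne]; exact DCo.refl _ _
  have hf' := head_TF hf hne (dco_iff.1 h)
  have hg' := head_TF hg (Ne.symm hne) (dco_iff.1 h.symm)
  refine rtg_transfer (R := fun a b => DAd (E ∪ W) a b ∧ a + b - (1, 1) ∈ B.GB)
    (F := DAd (B.GB ∪ W)) (G := DCo (E ∪ W')) (T := fun u => B.TF E W u) (fun a => DCo.refl _ _)
    (fun a b c h1 h2 => h1.trans h2) ?_ (fun a b h1 h2 h3 => hF a b h1 h2 (dco_iff.2 h3)) hf' hg' ?_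
  · rintro a b ⟨hab, hl⟩
    obtain ⟨x, y, e, h1, h2⟩ := touch_f hab.1
    have h4 := hl
    rw [e, mem_GB] at h4
    have h5 := hab.2
    rw [e] at h5
    refine ⟨⟨x, y, h4, h5, h1⟩, ⟨x, y, h4, h5, h2⟩, DCo.step hab.1 fun h6 => ?_⟩
    rw [mem_union] at h6
    rcases h6 with h6 | h6
    · exact hab.2 (mem_union_left _ h6)
    · exact hab.2 (mem_union_right _ (hn _ hl h6))
  · refine Relation.ReflTransGen.mono (fun a b hab => ?_) _ _ (dco_iff.1 h)
    by_cases hg : a + b - (1, 1) ∈ B.GB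
    · exact Or.inl ⟨hab, hg⟩
    · refine Or.inr ⟨hab.1, fun h6 => ?_⟩
      rw [mem_union] at h6
      rcases h6 with h6 | h6
      · exact hg h6
      · exact hab.2 (mem_union_right _ h6)

/-- a face which is joined outside lies on the boundary -/
lemma far_bd {f g : ℤ × ℤ} (hf : B.TF E W f) (hne : f ≠ g) (h : DCo (B.GB ∪ W) f g) :
    (tf f).1 = B.x0 ∨ (tf f).1 = B.x1 ∨ (tf f).2 = B.y0 ∨ (tf f).2 = B.y1 := by
  obtain ⟨x, y, h1, -, h3⟩ := hf
  rcases Relation.ReflTransGen.cases_head (dco_iff.1 h) with h4 | ⟨w, h4, -⟩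
  · exact absurd h4 hne
  · obtain ⟨x', y', e, h5, -⟩ := touch_f h4.1
    have h6 : ¬ B.InB x' y' := fun h7 => h4.2 (mem_union_left _ (by rw [e, mem_GB]; exact h7))
    unfold InB at h1 h6
    unfold Tch at h3
    omega

/-! ### Type X -/

lemma FX.co (F : B.FX W p) {u v : ℤ × ℤ} (hu : B.InC (tv u)) (hv : B.InC (tv v))
    (h : Co (W \ B.GB) u v) : u = v := by
  by_contra hne
  obtain ⟨x, y, h1, h2⟩ := co_touch h hne
  obtain ⟨x', y', h1', h2'⟩ := co_touch h.symm (Ne.symm hne)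
  rw [mem_sdiff, mem_GB] at h1 h1'
  obtain ⟨r, -, -, k1, k2⟩ := touch_v_far F.cor hu h1.1 h1.2 h2
  obtain ⟨r', -, -, k1', k2'⟩ := touch_v_far F.cor hv h1'.1 h1'.2 h2'
  subst k1 k1'
  exact hne (k2.trans k2'.symm)

lemma FX.join (F : B.FX W p) (hC : C p) {r s : ℤ} (h0 : 0 ≤ r) (h1 : r < 2 * B.N) (hr : ¬ C r)
    (h2 : 0 ≤ s) (h3 : s < 2 * B.N) (hs : ¬ C s) : DCo (B.GB ∪ W) (B.nd r) (B.nd s) := by
  have hrp : r ≠ p := fun h => hr (h ▸ hC)
  have hsp : s ≠ p := fun h => hs (h ▸ hC)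
  by_cases h : Bt r s p
  · refine (corr F.cor h2 h3 h0 h1 fun t k1 k2 k3 k4 => ?_).symm
    subst k4
    unfold Bt at h k3
    omega
  · exact corr F.cor h0 h1 h2 h3 fun t k1 k2 k3 k4 => h (k4 ▸ k3)

lemma FX.far (N : B.Nr E W C) (F : B.FX W p) (F' : B.FX W' p') (hC : C p) (hC' : C p')
    {f g : ℤ × ℤ} (hf : B.TF E W f) (hg : B.TF E W g) (h : DCo (B.GB ∪ W) f g) :
    DCo (E ∪ W') f g := by
  by_cases hne : f = g
  · rw [hne]; exact DCo.refl _ _
  obtain ⟨r, r0, r1, r2, r3⟩ := face_pos N hf (far_bd hf hne h)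
  obtain ⟨s, s0, s1, s2, s3⟩ := face_pos N hg (far_bd hg (Ne.symm hne) h.symm)
  have hP : ∀ t, t = p' → C t := fun t ht => ht ▸ hC'
  exact (((r3 _ _ F'.cor hP).trans (F'.join hC' r0 r1 r2 s0 s1 s2)).trans (s3 _ _ F'.cor hP).symm).anti
    (union_subset_union_left N.sub)

/-! ### Type Y -/

lemma FY.symm (F : B.FY W p q) : B.FY W q p where
  cor := ⟨fun r h0 h1 h2 => F.cor.lf r h0 h1 fun h => h2 h.symm, F.cor.bt, F.cor.tp⟩
  r0 := F.s0
  r1 := F.s1
  s0 := F.r0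
  s1 := F.r1
  ne := F.ne.symm
  co := F.co.symm
  sep := fun h => F.sep h.symm

lemma FY.side (F : B.FY W p q) {r : ℤ} (h0 : 0 ≤ r) (h1 : r < 2 * B.N) (h2 : r ≠ p) (h3 : r ≠ q)
    (h : Bt p q r) : DCo (B.GB ∪ W) (B.nd (p + 1)) (B.nd r) := by
  have k1 := F.r0; have k2 := F.r1; have k3 := F.s0; have k4 := F.s1
  refine corr F.cor (by omega) k2 h0 h1 fun t d1 d2 d3 d4 => ?_
  unfold Bt at h d3
  omega

lemma FY.far (N : B.Nr E W C) (F : B.FY W p q) (F' : B.FY W' p' q') (hp : C p) (hq : C q)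
    (hp' : C p') (hq' : C q')
    (hs : ∀ r, 0 ≤ r → r < 2 * B.N → ¬ C r → (Bt p q r ↔ Bt p' q' r))
    {f g : ℤ × ℤ} (hf : B.TF E W f) (hg : B.TF E W g) (h : DCo (B.GB ∪ W) f g) :
    DCo (E ∪ W') f g := by
  by_cases hne : f = g
  · rw [hne]; exact DCo.refl _ _
  obtain ⟨r, r0, r1, r2, r3⟩ := face_pos N hf (far_bd hf hne h)
  obtain ⟨s, s0, s1, s2, s3⟩ := face_pos N hg (far_bd hg (Ne.symm hne) h.symm)
  have hP : ∀ t, t = p ∨ t = q → C t := by rintro t (rfl | rfl) <;> assumption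
  have hP' : ∀ t, t = p' ∨ t = q' → C t := by rintro t (rfl | rfl) <;> assumption
  have hr : r ≠ p ∧ r ≠ q ∧ r ≠ p' ∧ r ≠ q' :=
    ⟨fun h => r2 (h ▸ hp), fun h => r2 (h ▸ hq), fun h => r2 (h ▸ hp'), fun h => r2 (h ▸ hq')⟩
  have hs0 : s ≠ p ∧ s ≠ q ∧ s ≠ p' ∧ s ≠ q' :=
    ⟨fun h => s2 (h ▸ hp), fun h => s2 (h ▸ hq), fun h => s2 (h ▸ hp'), fun h => s2 (h ▸ hq')⟩
  have hne1 := F.ne
  have hne2 := F'.ne
  have hrs := ((r3 _ _ F.cor hP).symm.trans h).trans (s3 _ _ F.cor hP)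
  have hr' := hs r r0 r1 r2
  have hs' := hs s s0 s1 s2
  have k : DCo (B.GB ∪ W') (B.nd r) (B.nd s) := by
    by_cases c1 : Bt p q r
    · by_cases c2 : Bt p q s
      · exact (F'.side r0 r1 hr.2.2.1 hr.2.2.2 (hr'.1 c1)).symm.trans
          (F'.side s0 s1 hs0.2.2.1 hs0.2.2.2 (hs'.1 c2))
      · exfalso
        have c3 : Bt q p s := by unfold Bt at c2 ⊢; omega
        exact F.sep (((F.side r0 r1 hr.1 hr.2.1 c1).trans hrs).trans
          (F.symm.side s0 s1 hs0.2.1 hs0.1 c3).symm)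
    · have c3 : Bt q p r := by unfold Bt at c1 ⊢; omega
      by_cases c2 : Bt p q s
      · exfalso
        exact F.sep (((F.side s0 s1 hs0.1 hs0.2.1 c2).trans hrs.symm).trans
          (F.symm.side r0 r1 hr.2.1 hr.1 c3).symm)
      · have c4 : Bt q' p' r := by
          have := (not_congr hr').1 c1
          unfold Bt at this ⊢; omega
        have c5 : Bt q' p' s := by
          have := (not_congr hs').1 c2
          unfold Bt at this ⊢; omega
        exact (F'.symm.side r0 r1 hr.2.2.2 hr.2.2.1 c4).symm.trans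
          (F'.symm.side s0 s1 hs0.2.2.2 hs0.2.2.1 c5)
  exact (((r3 _ _ F'.cor hP').trans k).trans (s3 _ _ F'.cor hP').symm).anti
    (union_subset_union_left N.sub)

lemma FY.co_far (F : B.FY W p q) (hw : Co W' (B.nv p) (B.nv q)) {u v : ℤ × ℤ} (hu : B.InC (tv u))
    (hv : B.InC (tv v)) (h : Co (W \ B.GB) u v) : Co W' u v := by
  by_cases hne : u = v
  · rw [hne]; exact Co.refl _ _
  obtain ⟨x, y, h1, h2⟩ := co_touch h hne
  obtain ⟨x', y', h1', h2'⟩ := co_touch h.symm (Ne.symm hne)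
  rw [mem_sdiff, mem_GB] at h1 h1'
  obtain ⟨r, -, -, k1, k2⟩ := touch_v_far F.cor hu h1.1 h1.2 h2
  obtain ⟨r', -, -, k1', k2'⟩ := touch_v_far F.cor hv h1'.1 h1'.2 h2'
  rw [k2, k2'] at hne ⊢
  rcases k1 with rfl | rfl <;> rcases k1' with rfl | rfl
  · exact absurd rfl hne
  · exact hw
  · exact hw.symm
  · exact absurd rfl hne

/-! ### The two theorems -/

section main

variable (hconn : TConn E) (N : B.Nr E W C) (N' : B.Nr E W' C)
  (hn : ∀ e ∈ B.GB, (e ∈ W ↔ e ∈ W'))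

include hn in
lemma TF_congr {f : ℤ × ℤ} : B.TF E W f ↔ B.TF E W' f := by
  constructor
  · rintro ⟨x, y, h1, h2, h3⟩
    refine ⟨x, y, h1, ?_, h3⟩
    rw [mem_union, hn _ (mem_GB.2 h1), ← mem_union] at h2
    exact h2
  · rintro ⟨x, y, h1, h2, h3⟩
    refine ⟨x, y, h1, ?_, h3⟩
    rw [mem_union, hn _ (mem_GB.2 h1), ← mem_union]
    exact h2

include hconn N N' hn in
/-- the general form -/
theorem same_gen (hF : ∀ u v, B.InC (tv u) → B.InC (tv v) → Co (W \ B.GB) u v → Co W' u v)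
    (hF' : ∀ u v, B.InC (tv u) → B.InC (tv v) → Co (W' \ B.GB) u v → Co W u v)
    (hD : ∀ f g, B.TF E W f → B.TF E W g → DCo (B.GB ∪ W) f g → DCo (E ∪ W') f g)
    (hD' : ∀ f g, B.TF E W' f → B.TF E W' g → DCo (B.GB ∪ W') f g → DCo (E ∪ W) f g)
    {X Y : Env} (pX : PlaneEnv X W) (pY : PlaneEnv Y W') (eX : X.E = E) (eY : Y.E = E)
    {a i : ℤ × ℤ} (ha : B.InC (tv a)) (hi : B.TF E W i)
    (x1 : Co W (vx X.c0) a) (x2 : DCo (E ∪ W) (fi X.c0) i)
    (y1 : Co W' (vx Y.c0) a) (y2 : DCo (E ∪ W') (fi Y.c0) i) :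
    ∃ κ : ℤ, ∀ c, (lab c ∈ E ∨ plab c ∈ E) → Y.inc c = ph κ * X.inc c := by
  have hc : ∀ c, (lab c ∈ E ∨ plab c ∈ E) → B.InC (tv (vx c)) := fun c hc => by
    have := (N.corner hc).1
    unfold InI at this
    unfold InC
    omega
  have hi' : B.TF E W' i := (TF_congr hn).1 hi
  refine same_conn hconn ⟨?_, ?_⟩ ⟨?_, ?_⟩ pX pY eX eY ?_
  · intro c c' h1 h2 h3
    exact co_tr (fun e he => (hn e he).1) hF (hc c h1) (hc c' h2) h3
  · intro c c' h1 h2 h3
    exact dco_tr (fun e he => (hn e he).2) hD (Or.inr (N.corner h1).2) (Or.inr (N.corner h2).2) h3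
  · intro c c' h1 h2 h3
    exact co_tr (fun e he => (hn e he).2) hF' (hc c h1) (hc c' h2) h3
  · intro c c' h1 h2 h3
    exact dco_tr (fun e he => (hn e he).1) hD' (Or.inr (N'.corner h1).2) (Or.inr (N'.corner h2).2) h3
  · intro c hcE
    constructor
    · rintro ⟨h1, h2⟩
      exact ⟨y1.trans (co_tr (fun e he => (hn e he).1) hF ha (hc c (Or.inl hcE)) (x1.symm.trans h1)),
        y2.trans (dco_tr (fun e he => (hn e he).2) hD (Or.inl hi) (Or.inr (N.corner (Or.inl hcE)).2)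
          (x2.symm.trans h2))⟩
    · rintro ⟨h1, h2⟩
      exact ⟨x1.trans (co_tr (fun e he => (hn e he).2) hF' ha (hc c (Or.inl hcE)) (y1.symm.trans h1)),
        x2.trans (dco_tr (fun e he => (hn e he).1) hD' (Or.inl hi') (Or.inr (N'.corner (Or.inl hcE)).2)
          (y2.symm.trans h2))⟩

include hconn N N' hn in
/-- **Type X.** One wire, at any wired row of the same arc. -/
theorem sameX (F : B.FX W p) (F' : B.FX W' p') (hp : C p) (hp' : C p')
    (hpp : (∀ r, 0 ≤ r → r < 2 * B.N → Bt p p' r → C r) ∨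
      ∀ r, 0 ≤ r → r < 2 * B.N → Bt p' p r → C r)
    {r : ℤ} (r0 : 0 ≤ r) (r1 : r < 2 * B.N) (hr : ¬ C r)
    {X Y : Env} (pX : PlaneEnv X W) (pY : PlaneEnv Y W') (eX : X.E = E) (eY : Y.E = E)
    (x1 : Co W (vx X.c0) (B.nv p)) (x2 : DCo (B.GB ∪ W) (fi X.c0) (B.nd (p + 1)))
    (y1 : Co W' (vx Y.c0) (B.nv p')) (y2 : DCo (B.GB ∪ W') (fi Y.c0) (B.nd (p' + 1))) :
    ∃ κ : ℤ, ∀ c, (lab c ∈ E ∨ plab c ∈ E) → Y.inc c = ph κ * X.inc c := by
  have hw : Co W' (B.nv p') (B.nv p) := by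
    have k1 := F.r1; have k2 := F'.r1
    rcases hpp with h | h
    · exact (corrI N'.corI F.r0 (by omega) F'.r0 (by omega) h).symm
    · exact corrI N'.corI F'.r0 (by omega) F.r0 (by omega) h
  have key : ∀ (V : Finset (ℤ × ℤ)) (s : ℤ), B.FX V s → C s → DCo (B.GB ∪ V) (B.nd (s + 1)) (B.nd r) := by
    intro V s FV hs
    have k0 := FV.r0; have k1 := FV.r1
    have hrs : r ≠ s := fun h => hr (h ▸ hs)
    refine corr FV.cor (by omega) k1 r0 r1 fun t d1 d2 d3 d4 => ?_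
    unfold Bt at d3
    omega
  refine same_gen hconn N N' hn (fun u v hu hv h => by rw [F.co hu hv h]; exact Co.refl _ _)
    (fun u v hu hv h => by rw [F'.co hu hv h]; exact Co.refl _ _)
    (fun f g hf hg h => FX.far N F F' hp hp' hf hg h) (fun f g hf hg h => FX.far N' F' F hp' hp hf hg h)
    pX pY eX eY (a := B.nv p) (i := B.nd r) (nv_InC F.r0 (by have := F.r1; omega)) (nd_TF N r0 r1 hr)
    x1 ?_ (y1.trans hw) ?_
  · exact (x2.trans (key W p F hp)).anti (union_subset_union_left N.sub)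
  · exact (y2.trans (key W' p' F' hp')).anti (union_subset_union_left N.sub)

include hconn N N' hn in
/-- **Type Y.** Two wires, at any wired rows of the same two arcs. -/
theorem sameY (F : B.FY W p q) (F' : B.FY W' p' q') (hp : C p) (hq : C q) (hp' : C p') (hq' : C q')
    (hpp : (∀ r, 0 ≤ r → r < 2 * B.N → Bt p p' r → C r) ∨
      ∀ r, 0 ≤ r → r < 2 * B.N → Bt p' p r → C r)
    (hqq : (∀ r, 0 ≤ r → r < 2 * B.N → Bt q q' r → C r) ∨
      ∀ r, 0 ≤ r → r < 2 * B.N → Bt q' q r → C r)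
    (hs : ∀ r, 0 ≤ r → r < 2 * B.N → ¬ C r → (Bt p q r ↔ Bt p' q' r))
    {r : ℤ} (r0 : 0 ≤ r) (r1 : r < 2 * B.N) (hr : ¬ C r) (hr' : Bt p q r)
    {X Y : Env} (pX : PlaneEnv X W) (pY : PlaneEnv Y W') (eX : X.E = E) (eY : Y.E = E)
    (x1 : Co W (vx X.c0) (B.nv p)) (x2 : DCo (B.GB ∪ W) (fi X.c0) (B.nd (p + 1)))
    (y1 : Co W' (vx Y.c0) (B.nv p')) (y2 : DCo (B.GB ∪ W') (fi Y.c0) (B.nd (p' + 1))) :
    ∃ κ : ℤ, ∀ c, (lab c ∈ E ∨ plab c ∈ E) → Y.inc c = ph κ * X.inc c := by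
  have k1 := F.r0; have k2 := F.r1; have k3 := F.s0; have k4 := F.s1
  have l1 := F'.r0; have l2 := F'.r1; have l3 := F'.s0; have l4 := F'.s1
  have cV : ∀ (V : Finset (ℤ × ℤ)), B.CorI V C → Co V (B.nv p') (B.nv p) ∧ Co V (B.nv q') (B.nv q) := by
    intro V HV
    constructor
    · rcases hpp with h | h
      · exact (corrI HV k1 (by omega) l1 (by omega) h).symm
      · exact corrI HV l1 (by omega) k1 (by omega) h
    · rcases hqq with h | h
      · exact (corrI HV k3 (by omega) l3 (by omega) h).symm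
      · exact corrI HV l3 (by omega) k3 (by omega) h
  obtain ⟨w1, w2⟩ := cV W N.corI
  obtain ⟨w1', w2'⟩ := cV W' N'.corI
  have n1 : r ≠ p := fun h => hr (h ▸ hp)
  have n2 : r ≠ q := fun h => hr (h ▸ hq)
  have n3 : r ≠ p' := fun h => hr (h ▸ hp')
  have n4 : r ≠ q' := fun h => hr (h ▸ hq')
  refine same_gen hconn N N' hn
    (fun u v hu hv h => F.co_far ((w1'.symm.trans F'.co).trans w2') hu hv h)
    (fun u v hu hv h => F'.co_far ((w1.trans F.co).trans w2.symm) hu hv h)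
    (fun f g hf hg h => FY.far N F F' hp hq hp' hq' hs hf hg h)
    (fun f g hf hg h => FY.far N' F' F hp' hq' hp hq (fun r r0 r1 r2 => (hs r r0 r1 r2).symm) hf hg h)
    pX pY eX eY (a := B.nv p) (i := B.nd r) (nv_InC F.r0 (by omega)) (nd_TF N r0 r1 hr)
    x1 ?_ (y1.trans w1') ?_
  · exact (x2.trans (F.side r0 r1 n1 n2 hr')).anti (union_subset_union_left N.sub)
  · exact (y2.trans (F'.side r0 r1 n3 n4 ((hs r r0 r1 hr).1 hr'))).anti (union_subset_union_left N.sub)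

end main

end BF

end Pool.Agent.H33.Sp
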