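import Mathlib
import Pool.Agent.H33.Sp.SameXY

set_option autoImplicit false
open Finset

/-! # The types of the far labels with one or two ports

`fx_of`, `fy_of` : one wire is of type X, two wires and the frame are of type Y. `dco_nd` : the face of the
root is joined to the boundary of the box next to the port. -/

namespace Pool.Agent.H33.Sp

open Pool.Agent.H75.Perc hiding ph cc EE
open Pool.Agent.H75.TwoArm Pool.Agent.Q1 Pool.Agent.H33.Q1
open Pool.Agent.H69.Q1
open Pool.Agent.H74.R45 hiding plab_nx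
open Pool.Agent.H33.R45 (rco rdco vx_he_S vx_he_N vx_ve_E vx_ve_W)
open Pool.Agent.H13.R45 (gp)

namespace BF

variable {B : BF} {X Y : Bool × ℤ} {A W Wo : Finset (ℤ × ℤ)} {p q r x y : ℤ}

/-- the outer tile at a position is a tile of the wire only at the port -/
lemma ox_port (hX : B.IsP X) (h0 : 0 ≤ p) (h1 : p < 2 * B.N) (h : B.InW X (B.ox p) (B.py p)) :
    p = B.pos X := by
  have hN : B.N = B.y1 - B.y0 := rfl
  have b1 := B.hx; have b2 := B.hy; have b3 := B.hL; have b4 := B.hR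
  obtain ⟨a1, a2, a3, a4⟩ := hX
  unfold InW ox py at h
  unfold pos
  split_ifs at h ⊢ with c1 c2 <;> simp_all <;> omega

lemma cor_of (P : ℤ → Prop) (hf : ∀ x y, lt (x, y) ∈ A → B.x0 - 1 ≤ x → x ≤ B.x1 → B.y0 - 1 ≤ y → y ≤ B.y1 →
      ¬ B.InB x y → (x = B.x0 - 1 ∨ x = B.x1) ∧ B.y0 ≤ y ∧ y < B.y1 ∧
        ∀ p, 0 ≤ p → p < 2 * B.N → B.ox p = x → B.py p = y → P p) : B.Cor A P := by
  have hN : B.N = B.y1 - B.y0 := rfl
  have b1 := B.hx; have b2 := B.hy
  refine ⟨fun p h0 h1 h2 h3 => ?_, fun x h0 h1 h2 => ?_, fun x h0 h1 h2 => ?_⟩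
  · have k : B.x0 - 1 ≤ B.ox p ∧ B.ox p ≤ B.x1 ∧ B.y0 ≤ B.py p ∧ B.py p < B.y1 ∧
        (B.ox p < B.x0 ∨ B.x1 ≤ B.ox p) := by
      unfold ox py
      split_ifs <;> omega
    have := hf _ _ h3 k.1 k.2.1 (by omega) (by omega) (by unfold InB; omega)
    exact h2 (this.2.2.2 p h0 h1 rfl rfl)
  · have := hf _ _ h2 h0 h1 (by omega) (by omega) (by unfold InB; omega)
    omega
  · have := hf _ _ h2 h0 h1 (by omega) (by omega) (by unfold InB; omega)
    omega

/-- one wire -/
theorem cor_Wi (hX : B.IsP X) (hA : ∀ x y, lt (x, y) ∈ A → B.InB x y ∨ B.InW X x y) :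
    B.Cor A (fun r => r = B.pos X) := by
  have b1 := B.hx; have b2 := B.hy; have b3 := B.hL; have b4 := B.hR
  refine cor_of _ fun x y h h1 h2 h3 h4 h5 => ?_
  have h6 := (hA x y h).resolve_left h5
  have h7 := h6
  obtain ⟨a1, a2, a3, a4⟩ := hX
  unfold InW at h7
  refine ⟨by omega, by omega, by omega, fun p p0 p1 p2 p3 => ?_⟩
  subst p2 p3
  exact ox_port ⟨a1, a2, a3, a4⟩ p0 p1 h6

/-- two wires and the frame -/
theorem cor_Wf (hX : B.IsP X) (hY : B.IsP Y)
    (hA : ∀ x y, lt (x, y) ∈ A → B.InB x y ∨ B.InW X x y ∨ B.InW Y x y ∨ B.InR X x y) :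
    B.Cor A (fun r => r = B.pos X ∨ r = B.pos Y) := by
  have b1 := B.hx; have b2 := B.hy; have b3 := B.hL; have b4 := B.hR; have b5 := B.hB; have b6 := B.hT
  refine cor_of _ fun x y h h1 h2 h3 h4 h5 => ?_
  have h6 := (hA x y h).resolve_left h5
  have hX' := hX
  have hY' := hY
  obtain ⟨a1, a2, a3, a4⟩ := hX
  obtain ⟨c1, c2, c3, c4⟩ := hY
  rcases h6 with h6 | h6 | h6
  · have h7 := h6
    unfold InW at h7
    refine ⟨by omega, by omega, by omega, fun p p0 p1 p2 p3 => ?_⟩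
    subst p2 p3
    exact Or.inl (ox_port hX' p0 p1 h6)
  · have h7 := h6
    unfold InW at h7
    refine ⟨by omega, by omega, by omega, fun p p0 p1 p2 p3 => ?_⟩
    subst p2 p3
    exact Or.inr (ox_port hY' p0 p1 h6)
  · exfalso
    unfold InR InF at h6
    omega

lemma mem_GB_union (hW : W ⊆ B.GB ∪ Wo) : lt (x, y) ∈ B.GB ∪ W → B.InB x y ∨ lt (x, y) ∈ Wo := by
  intro h
  rw [mem_union] at h
  rcases h with h | h
  · exact Or.inl (mem_GB.1 h)
  · rcases mem_union.1 (hW h) with h | h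
    · exact Or.inl (mem_GB.1 h)
    · exact Or.inr h

theorem fx_of (hX : B.IsP X) (hW : W ⊆ B.GB ∪ B.Wi X) : B.FX W (B.pos X) where
  cor := cor_Wi hX fun x y h => by
    rcases mem_GB_union hW h with h | h
    · exact Or.inl h
    · exact Or.inr ((mem_Wi hX).1 h)
  r0 := (pos_range hX).1
  r1 := (pos_range hX).2

lemma pos_ne (hX : B.IsP X) (hY : B.IsP Y) (hA : Ap X Y) : B.pos X ≠ B.pos Y := by
  obtain ⟨a1, a2, a3, a4⟩ := hX
  obtain ⟨c1, c2, c3, c4⟩ := hY
  unfold Ap at hA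
  unfold pos N
  have b2 := B.hy
  rcases hs : X.1 with _ | _ <;> rcases ht : Y.1 with _ | _ <;>
    simp only [hs, ht, Bool.false_eq_true, Bool.true_eq_false, if_false, if_true, true_implies] at hA ⊢ <;>
    omega

theorem fy_of (hX : B.IsP X) (hY : B.IsP Y) (hA : Ap X Y) (hW : W ⊆ B.GB ∪ B.Wf X Y)
    (hW' : B.Wf X Y ⊆ W) : B.FY W (B.pos X) (B.pos Y) where
  cor := cor_Wf hX hY fun x y h => by
    rcases mem_GB_union hW h with h | h
    · exact Or.inl h
    · exact Or.inr ((mem_Wf hX hY).1 h)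
  r0 := (pos_range hX).1
  r1 := (pos_range hX).2
  s0 := (pos_range hY).1
  s1 := (pos_range hY).2
  ne := pos_ne hX hY hA
  co := (co_frame hX hY hA).mono hW'
  sep := by
    have hd : Disjoint (B.Wf X Y) B.GB := by
      rw [disjoint_left]
      intro e he he'
      obtain ⟨x, y, rfl⟩ := exists_lt (odd_LS he)
      rw [mem_GB] at he'
      rw [mem_Wf hX hY] at he
      have b1 := B.hx; have b2 := B.hy; have b3 := B.hL; have b4 := B.hR; have b5 := B.hB; have b6 := B.hT
      unfold InB at he'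
      unfold InW InR InF at he
      omega
    have h := sep hX hY hA hd (co_frame hX hY hA)
    have e : B.GB ∪ W = B.GB ∪ B.Wf X Y := by
      apply Finset.Subset.antisymm
      · exact union_subset subset_union_left hW
      · exact union_subset_union_right hW'
    rw [e]
    exact h

/-- the face next to the port -/
lemma nd_succ (hX : B.IsP X) : B.nd (B.pos X + 1) =
    gp (if X.1 then B.x1 else B.x0, B.fr X + ((if X.1 then B.x1 else B.x0) + B.fr X + 1) % 2) := by
  have hN : B.N = B.y1 - B.y0 := rfl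
  obtain ⟨a1, a2, a3, a4⟩ := hX
  unfold nd px py fr pos
  rcases h : X.1 with _ | _
  · have c1 := a3 h
    simp only [Bool.false_eq_true, if_false]
    rw [if_pos (by omega), if_pos (by omega), show B.y1 - 1 - (B.y1 - 1 - X.2 + 1) = X.2 - 1 by ring]
  · have c1 := a4 h
    simp only [if_true]
    rw [if_neg (by omega), if_neg (by omega),
      show B.y0 + (B.N + (X.2 - B.y0) + 1 - B.N) = X.2 + 1 by ring]

/-- **The face of the root is joined to the boundary of the box next to the port.** -/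
theorem dco_nd (hX : B.Fit X) (hA : ∀ x y, lt (x, y) ∈ A → B.InB x y ∨ B.InW X x y ∨ B.InR X x y ∨
      (B.InW Y x y ∧ (X.1 = Y.1 → Y.2 ≠ B.fr X))) : DCo A (fi (B.c0 X)) (B.nd (B.pos X + 1)) := by
  rw [nd_succ hX.toIsP]
  have b1 := B.hx; have b3 := B.hL; have b4 := B.hR
  refine dco_free (Y := Y) hX hA (by omega) ?_ (by split_ifs <;> omega)
  rcases h : X.1 with _ | _
  · left; simp only [Bool.false_eq_true, if_false, true_and]; omega
  · right; simp only [if_true, true_and]; omega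

theorem dco_nd1 (hX : B.Fit X) (hW : W ⊆ B.GB ∪ B.Wi X) :
    DCo (B.GB ∪ W) (fi (B.c0 X)) (B.nd (B.pos X + 1)) := by
  refine dco_nd (Y := X) hX fun x y h => ?_
  rcases mem_GB_union hW h with h | h
  · exact Or.inl h
  · exact Or.inr (Or.inl ((mem_Wi hX.toIsP).1 h))

theorem dco_nd2 (hX : B.Fit X) (hY : B.IsP Y) (hA : Ap X Y) (hW : W ⊆ B.GB ∪ B.Wf X Y) :
    DCo (B.GB ∪ W) (fi (B.c0 X)) (B.nd (B.pos X + 1)) := by
  refine dco_nd (Y := Y) hX fun x y h => ?_
  rcases mem_GB_union hW h with h | h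
  · exact Or.inl h
  · rcases (mem_Wf hX.toIsP hY).1 h with h | h | h
    · exact Or.inr (Or.inl h)
    · exact Or.inr (Or.inr (Or.inr ⟨h, hA.ne_fr⟩))
    · exact Or.inr (Or.inr (Or.inl h))

theorem co_nv1 (hX : B.Fit X) (hW : B.Wi X ⊆ W) : Co W (vx (B.c0 X)) (B.nv (B.pos X)) :=
  co_root hX fun _ _ h => hW ((mem_Wi hX.toIsP).2 h)

end BF

end Pool.Agent.H33.Sp
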