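import Mathlib
import Pool.Agent.H33.Sp.Ports
import Pool.Agent.H33.R45.OutI
import Pool.Agent.H74.Win.NatE

set_option autoImplicit false
open Finset

/-! # The outsides of the windows

`bfD D L X` : the large box of the window `D`, frame at distance `L`. `oOne D L X` : one wire, at the port
`X`, `oTwo D L X Y` : wires at the ports `X` (root) and `Y`, joined by the frame with a gap at `X`. -/

namespace Pool.Agent.H33.Sp

open Pool.Agent.H75.Perc hiding ph cc EE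
open Pool.Agent.H75.TwoArm Pool.Agent.Q1 Pool.Agent.H33.Q1
open Pool.Agent.H69.Q1
open Pool.Agent.H74.R45 hiding plab_nx
open Pool.Agent.H33.R45 (rco rdco vx_he_S vx_he_N vx_ve_E vx_ve_W)
open Pool.Agent.H13.R45 (gp)
open Pool.Agent.H46.Sp (Win)
open Pool.Agent.H74.Win (OutB XB WNb WN EN natc)

/-- the large box of a window and the frame at distance `L` -/
def bfD (D : Win) (L : ℤ) (hL : 2 ≤ L) (X : Bool × ℤ) : BF where
  x0 := D.a (D.yP - 1) - 4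
  x1 := D.b D.yQ + 4
  y0 := -4
  y1 := D.h + 3
  FL := D.a (D.yP - 1) - 4 - L - (D.a (D.yP - 1) + L + X.2 + 1) % 2
  FR := D.b D.yQ + 4 + L + (D.b D.yQ + L + X.2) % 2
  FB := -4 - L
  FT := D.h + 3 + L
  hx := by
    have h1 := Pool.Agent.H46.Sp.Win.a_min (D := D) (y := D.yQ) D.Q0 D.Q1
    have h2 := D.ab D.yQ D.Q0 D.Q1
    omega
  hy := by have := D.hh; omega
  hL := by omega
  hR := by omega
  hB := by omega
  hT := by omega

variable {D : Win} {L : ℤ} {hL : 2 ≤ L} {X Y : Bool × ℤ} {x y : ℤ}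

lemma inB_bf : (bfD D L hL X).InB x y ↔ Pool.Agent.H74.Win.InB D x y := by
  unfold BF.InB Pool.Agent.H74.Win.InB bfD
  simp only
  omega

lemma GB_bf : (bfD D L hL X).GB = Pool.Agent.H74.Win.GB D := by
  refine Pool.Agent.H33.R45.ext_lt' (fun e he => odd_RT he)
    (fun e he => Pool.Agent.H74.Win.odd_GB he) fun x y => ?_
  rw [BF.mem_GB, Pool.Agent.H74.Win.mem_GB, inB_bf]

/-- the port is a row of the large box -/
structure PortD (D : Win) (X : Bool × ℤ) : Prop where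
  r0 : -4 ≤ X.2
  r1 : X.2 < D.h + 3
  f0 : X.1 = false → -4 ≤ X.2 - 1
  f1 : X.1 = true → X.2 + 1 < D.h + 3

lemma isP_bf {X' : Bool × ℤ} (h : PortD D X) : (bfD D L hL X').IsP X := ⟨h.r0, h.r1, h.f0, h.f1⟩

lemma fit_bf (h : PortD D X) : (bfD D L hL X).Fit X where
  r0 := h.r0
  r1 := h.r1
  f0 := h.f0
  f1 := h.f1
  pL := fun _ => by unfold bfD; simp only; omega
  pR := fun _ => by unfold bfD; simp only; omega

lemma GW_F {Wo : Finset (ℤ × ℤ)} (hW : ∀ x y, lt (x, y) ∈ Wo → (bfD D L hL X).InF x y) (x y : ℤ)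
    (h : lt (x, y) ∈ Pool.Agent.H74.Win.GB D ∪ Wo) : (bfD D L hL X).InF x y := by
  rw [mem_union] at h
  rcases h with h | h
  · rw [← GB_bf (L := L) (hL := hL) (X := X), BF.mem_GB] at h
    have b3 := (bfD D L hL X).hL; have b4 := (bfD D L hL X).hR
    have b5 := (bfD D L hL X).hB; have b6 := (bfD D L hL X).hT
    unfold BF.InB at h
    unfold BF.InF
    omega
  · exact hW x y h

lemma root_notMem (h : PortD D X) : plab ((bfD D L hL X).c0 X) ∉ Pool.Agent.H74.Win.GB D := by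
  rw [BF.plab_c0 (fit_bf h), ← GB_bf (L := L) (hL := hL) (X := X)]
  have b3 := (bfD D L hL X).hL; have b4 := (bfD D L hL X).hR
  split_ifs <;> rw [BF.mem_GB] <;> unfold BF.InB <;> omega

lemma far_one (h : PortD D X) (hl : lt (x, y) ∈ (bfD D L hL X).Wi X) : ¬ Pool.Agent.H74.Win.InB D x y := by
  rw [← inB_bf (L := L) (hL := hL) (X := X)]
  rw [BF.mem_Wi (isP_bf h)] at hl
  unfold BF.InW at hl
  unfold BF.InB
  omega

lemma far_two (h : PortD D X) (h' : PortD D Y) (hl : lt (x, y) ∈ (bfD D L hL X).Wf X Y) :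
    ¬ Pool.Agent.H74.Win.InB D x y := by
  rw [← inB_bf (L := L) (hL := hL) (X := X)]
  rw [BF.mem_Wf (isP_bf h) (isP_bf h')] at hl
  have b1 := (bfD D L hL X).hx; have b2 := (bfD D L hL X).hy
  have b3 := (bfD D L hL X).hL; have b4 := (bfD D L hL X).hR
  have b5 := (bfD D L hL X).hB; have b6 := (bfD D L hL X).hT
  unfold BF.InW BF.InR BF.InF at hl
  unfold BF.InB
  omega

lemma hg_one (h : PortD D X) : DCo (Pool.Agent.H74.Win.GB D ∪ (bfD D L hL X).Wi X)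
    (fi ((bfD D L hL X).c0 X)) (bfD D L hL X).g :=
  BF.dco_g (fit_bf h) (GW_F fun _ _ h => BF.Wi_F h)

lemma hlow_one (h : PortD D X) {v : ℤ × ℤ} (hv : Co (Pool.Agent.H74.Win.GB D ∪ (bfD D L hL X).Wi X)
    (vx ((bfD D L hL X).c0 X)) v) : (bfD D L hL X).g.2 < v.2 :=
  BF.low_g (fit_bf h) (GW_F fun _ _ h => BF.Wi_F h) hv

lemma hg_two (h : PortD D X) : DCo (Pool.Agent.H74.Win.GB D ∪ (bfD D L hL X).Wf X Y)
    (fi ((bfD D L hL X).c0 X)) (bfD D L hL X).g :=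
  BF.dco_g (fit_bf h) (GW_F fun _ _ h => BF.Wf_F h)

lemma hlow_two (h : PortD D X) {v : ℤ × ℤ} (hv : Co (Pool.Agent.H74.Win.GB D ∪ (bfD D L hL X).Wf X Y)
    (vx ((bfD D L hL X).c0 X)) v) : (bfD D L hL X).g.2 < v.2 :=
  BF.low_g (fit_bf h) (GW_F fun _ _ h => BF.Wf_F h) hv

/-- **One wire** -/
noncomputable def oOne (D : Win) (L : ℤ) (hL : 2 ≤ L) (X : Bool × ℤ) (h : PortD D X) : OutB D where
  Wo := (bfD D L hL X).Wi X
  c0 := (bfD D L hL X).c0 X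
  k0 := (bfD D L hL X).k0 X
  g := (bfD D L hL X).g
  far := fun _ _ hl => far_one h hl
  hk := BF.ty_c0 (fit_bf h)
  hroot := root_notMem h
  hg := hg_one h
  hlow := fun _ hv => hlow_one h hv

/-- **Two wires**, joined by the frame -/
noncomputable def oTwo (D : Win) (L : ℤ) (hL : 2 ≤ L) (X Y : Bool × ℤ) (h : PortD D X)
    (h' : PortD D Y) : OutB D where
  Wo := (bfD D L hL X).Wf X Y
  c0 := (bfD D L hL X).c0 X
  k0 := (bfD D L hL X).k0 X
  g := (bfD D L hL X).g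
  far := fun _ _ hl => far_two h h' hl
  hk := BF.ty_c0 (fit_bf h)
  hroot := root_notMem h
  hg := hg_two h
  hlow := fun _ hv => hlow_two h hv

section ty

variable (D : Win) (L : ℤ) (hL : 2 ≤ L) (X Y : Bool × ℤ) (h : PortD D X) (h' : PortD D Y)

@[simp] lemma oOne_Wo : (oOne D L hL X h).Wo = (bfD D L hL X).Wi X := rfl
@[simp] lemma oOne_c0 : (oOne D L hL X h).c0 = (bfD D L hL X).c0 X := rfl
@[simp] lemma oTwo_Wo : (oTwo D L hL X Y h h').Wo = (bfD D L hL X).Wf X Y := rfl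
@[simp] lemma oTwo_c0 : (oTwo D L hL X Y h h').c0 = (bfD D L hL X).c0 X := rfl

/-! ### Types -/

variable {D L hL X Y} {W : Finset (ℤ × ℤ)}

lemma sub_GBu {Wo : Finset (ℤ × ℤ)} (hW : W ⊆ Pool.Agent.H74.Win.GB D) :
    W ∪ Wo ⊆ (bfD D L hL X).GB ∪ Wo := by
  rw [GB_bf]; exact union_subset_union_left hW

include h in
theorem fx_oOne (hW : W ⊆ Pool.Agent.H74.Win.GB D) :
    (bfD D L hL X).FX (W ∪ (bfD D L hL X).Wi X) ((bfD D L hL X).pos X) :=
  BF.fx_of (isP_bf h) (sub_GBu hW)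

include h h' in
theorem fy_oTwo (hA : BF.Ap X Y) (hW : W ⊆ Pool.Agent.H74.Win.GB D) :
    (bfD D L hL X).FY (W ∪ (bfD D L hL X).Wf X Y) ((bfD D L hL X).pos X) ((bfD D L hL X).pos Y) :=
  BF.fy_of (isP_bf h) (isP_bf h') hA (sub_GBu hW) subset_union_right

include h in
theorem co_oOne : Co ((bfD D L hL X).Wi X) (vx ((bfD D L hL X).c0 X))
    ((bfD D L hL X).nv ((bfD D L hL X).pos X)) := BF.co_nv1 (fit_bf h) subset_rfl

include h h' in
theorem co_oTwo : Co ((bfD D L hL X).Wf X Y) (vx ((bfD D L hL X).c0 X))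
    ((bfD D L hL X).nv ((bfD D L hL X).pos X)) :=
  BF.co_nv1 (fit_bf h) (BF.Wi_sub (isP_bf h) (isP_bf h')).1

include h in
theorem dco_oOne (hW : W ⊆ Pool.Agent.H74.Win.GB D) :
    DCo (Pool.Agent.H74.Win.GB D ∪ (W ∪ (bfD D L hL X).Wi X)) (fi ((bfD D L hL X).c0 X))
      ((bfD D L hL X).nd ((bfD D L hL X).pos X + 1)) := by
  have := BF.dco_nd1 (fit_bf (L := L) (hL := hL) h) (sub_GBu (Wo := (bfD D L hL X).Wi X) hW)
  rwa [GB_bf] at this

include h h' in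
theorem dco_oTwo (hA : BF.Ap X Y) (hW : W ⊆ Pool.Agent.H74.Win.GB D) :
    DCo (Pool.Agent.H74.Win.GB D ∪ (W ∪ (bfD D L hL X).Wf X Y)) (fi ((bfD D L hL X).c0 X))
      ((bfD D L hL X).nd ((bfD D L hL X).pos X + 1)) := by
  have := BF.dco_nd2 (fit_bf (L := L) (hL := hL) h) (isP_bf h') hA
    (sub_GBu (Wo := (bfD D L hL X).Wf X Y) hW)
  rwa [GB_bf] at this

/-! ### Where the far labels and the root are -/

variable {x y : ℤ}

include h in
theorem wo_oOne (hl : lt (x, y) ∈ (bfD D L hL X).Wi X) : y = X.2 ∧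
    ((X.1 = false ∧ x + 4 < D.a (D.yP - 1)) ∨ (X.1 = true ∧ D.b D.yQ + 4 ≤ x)) := by
  rw [BF.mem_Wi (isP_bf h)] at hl
  obtain ⟨h1, h2 | h2⟩ := hl
  · have e : (bfD D L hL X).x0 = D.a (D.yP - 1) - 4 := rfl
    exact ⟨h1, Or.inl ⟨h2.1, by omega⟩⟩
  · have e : (bfD D L hL X).x1 = D.b D.yQ + 4 := rfl
    exact ⟨h1, Or.inr ⟨h2.1, by omega⟩⟩

include h h' in
theorem wo_oTwo (hl : lt (x, y) ∈ (bfD D L hL X).Wf X Y) :
    (y = X.2 ∧ ((X.1 = false ∧ x + 4 < D.a (D.yP - 1)) ∨ (X.1 = true ∧ D.b D.yQ + 4 ≤ x))) ∨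
    (y = Y.2 ∧ ((Y.1 = false ∧ x + 4 < D.a (D.yP - 1)) ∨ (Y.1 = true ∧ D.b D.yQ + 4 ≤ x))) ∨
    x + L + 4 ≤ D.a (D.yP - 1) ∨ D.b D.yQ + 4 + L ≤ x ∨ y + 4 + L ≤ 0 ∨ D.h + 3 + L ≤ y := by
  rw [BF.mem_Wf (isP_bf h) (isP_bf h')] at hl
  have e1 : (bfD D L hL X).x0 = D.a (D.yP - 1) - 4 := rfl
  have e2 : (bfD D L hL X).x1 = D.b D.yQ + 4 := rfl
  have e3 : (bfD D L hL X).FL = D.a (D.yP - 1) - 4 - L - (D.a (D.yP - 1) + L + X.2 + 1) % 2 := rfl
  have e4 : (bfD D L hL X).FR = D.b D.yQ + 4 + L + (D.b D.yQ + L + X.2) % 2 := rfl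
  have e5 : (bfD D L hL X).FB = -4 - L := rfl
  have e6 : (bfD D L hL X).FT = D.h + 3 + L := rfl
  rcases hl with ⟨h1, h2 | h2⟩ | ⟨h1, h2 | h2⟩ | h1
  · exact Or.inl ⟨h1, Or.inl ⟨h2.1, by omega⟩⟩
  · exact Or.inl ⟨h1, Or.inr ⟨h2.1, by omega⟩⟩
  · exact Or.inr (Or.inl ⟨h1, Or.inl ⟨h2.1, by omega⟩⟩)
  · exact Or.inr (Or.inl ⟨h1, Or.inr ⟨h2.1, by omega⟩⟩)
  · right; right
    unfold BF.InR at h1
    omega

include h in
theorem root_o (hr : (x, y) = tv (vx ((bfD D L hL X).c0 X))) :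
    x + L + 4 ≤ D.a (D.yP - 1) ∨ D.b D.yQ + 4 + L ≤ x := by
  have e3 : (bfD D L hL X).FL = D.a (D.yP - 1) - 4 - L - (D.a (D.yP - 1) + L + X.2 + 1) % 2 := rfl
  have e4 : (bfD D L hL X).FR = D.b D.yQ + 4 + L + (D.b D.yQ + L + X.2) % 2 := rfl
  have hf := fit_bf (L := L) (hL := hL) h
  rw [(BF.vf_c0 hf).1] at hr
  rcases hs : X.1 with _ | _
  · have := hf.pL hs
    simp only [hs, Bool.false_eq_true, if_false] at hr
    rw [tv_gp (by omega)] at hr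
    simp only [Prod.mk.injEq] at hr
    omega
  · have := hf.pR hs
    simp only [hs, if_true] at hr
    rw [tv_gp (by omega)] at hr
    simp only [Prod.mk.injEq] at hr
    omega

end ty

end Pool.Agent.H33.Sp
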