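import Mathlib
import Pool.Agent.Q1.M6f.Sym
import Pool.Agent.Q1.M6c.Dob
import Pool.Agent.H33.Sp.SameFar

set_option autoImplicit false
open Finset

/-! # Translations of plane environments

`PlaneEnv.sh` : the translate of a plane environment by a lattice vector `v` is a plane environment;
`inc_sh` : it has the same increments. `co_sh`, `dco_sh` : translations of connections. -/

namespace Pool.Agent.H33.Sp

open Pool.Agent.H75.Perc hiding ph cc EE
open Pool.Agent.H75.TwoArm Pool.Agent.Q1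
open Pool.Agent.H69.Q1
open Pool.Agent.Q1.M6c (PlaneEnv)

variable {W E : Finset (ℤ × ℤ)} {v u w f g : ℤ × ℤ}

/-- translation of labels -/
noncomputable def shl (v : ℤ × ℤ) (W : Finset (ℤ × ℤ)) : Finset (ℤ × ℤ) := W.map (shS v).t.toEmbedding

lemma mem_shl {e : ℤ × ℤ} : e ∈ shl v W ↔ (e.1 - 2 * v.1, e.2 - 2 * v.2) ∈ W := by
  unfold shl
  rw [mem_map_equiv]
  rfl

lemma mem_shl' {e : ℤ × ℤ} : (e.1 + 2 * v.1, e.2 + 2 * v.2) ∈ shl v W ↔ e ∈ W := by
  rw [mem_shl]
  simp

lemma shl_union (A B : Finset (ℤ × ℤ)) : shl v (A ∪ B) = shl v A ∪ shl v B := map_union _ _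

lemma shl_mono {A B : Finset (ℤ × ℤ)} (h : A ⊆ B) : shl v A ⊆ shl v B := map_subset_map.2 h

lemma co_sh (h : Co W u w) : Co (shl v W) (u + v) (w + v) := by
  induction h with
  | refl => exact Co.refl _ _
  | @tail a b _ h2 ih =>
    refine Relation.ReflTransGen.tail ih ⟨?_, ?_⟩
    · rw [add_sub_add_right_eq_sub]; exact h2.1
    · rw [mem_shl]
      have e : (((a + v + (b + v)).1 - 2 * v.1, (a + v + (b + v)).2 - 2 * v.2) : ℤ × ℤ) = a + b := by
        refine Prod.ext ?_ ?_ <;> simp only [Prod.fst_add, Prod.snd_add] <;> ring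
      rw [e]; exact h2.2

lemma dco_sh (h : DCo W f g) : DCo (shl v W) (f + v) (g + v) := by
  rw [dco_iff] at h ⊢
  induction h with
  | refl => exact Relation.ReflTransGen.refl
  | @tail a b _ h2 ih =>
    refine Relation.ReflTransGen.tail ih ⟨?_, ?_⟩
    · rw [add_sub_add_right_eq_sub]; exact h2.1
    · rw [mem_shl]
      have e : (((a + v + (b + v) - (1, 1)).1 - 2 * v.1, (a + v + (b + v) - (1, 1)).2 - 2 * v.2) : ℤ × ℤ) =
          a + b - (1, 1) := by
        refine Prod.ext ?_ ?_ <;> simp only [Prod.fst_add, Prod.snd_add, Prod.fst_sub, Prod.snd_sub] <;> ring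
      rw [e]; exact h2.2

lemma shl_neg : shl (-v) (shl v W) = W := by
  ext e
  rw [mem_shl, mem_shl]
  have : ((e.1 - 2 * (-v).1 - 2 * v.1, e.2 - 2 * (-v).2 - 2 * v.2) : ℤ × ℤ) = e := by
    refine Prod.ext ?_ ?_ <;> simp only [Prod.fst_neg, Prod.snd_neg] <;> ring
  rw [this]

/-- translation of corners -/
def shc (v c : ℤ × ℤ) : ℤ × ℤ := (c.1 + 2 * v.1, c.2 + 2 * v.2)

lemma shc_eq (c : ℤ × ℤ) : (shS v).s c = shc v c := rfl

lemma vx_shc (c : ℤ × ℤ) : vx (shc v c) = vx c + v := by
  unfold shc vx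
  refine Prod.ext ?_ ?_ <;> simp only [Prod.fst_add, Prod.snd_add] <;> omega

lemma fi_shc (c : ℤ × ℤ) : fi (shc v c) = fi c + v := by
  unfold shc fi
  refine Prod.ext ?_ ?_ <;> simp only [Prod.fst_add, Prod.snd_add] <;> omega

/-- the translate of an environment -/
def shX (v : ℤ × ℤ) (X : Env) : Env := X.tr (shS v)

variable {X : Env}

@[simp] lemma shX_E : (shX v X).E = shl v X.E := rfl
@[simp] lemma shX_c0 : (shX v X).c0 = shc v X.c0 := rfl
@[simp] lemma shX_T : (shX v X).T = X.T := rfl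
lemma shX_k0 : (shX v X).k0 = X.k0 := by
  show X.k0 + 0 = X.k0
  ring

/-- **The increments of the translate.** -/
theorem inc_sh (c : ℤ × ℤ) : (shX v X).inc (shc v c) = X.inc c := by
  have := Env.inc_tr (X := X) (shS v) c
  have h0 : (shS v).k = 0 := rfl
  rw [h0, ph_zero, one_mul] at this
  exact this

/-- **The translate of a plane environment is a plane environment.** -/
theorem planeEnv_sh (h : PlaneEnv X W) : PlaneEnv (shX v X) (shl v W) where
  disj := by
    rw [shX_E, disjoint_left]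
    intro e he he'
    rw [mem_shl] at he he'
    exact disjoint_left.1 h.disj he he'
  oddW := by
    intro e he
    rw [mem_shl] at he
    have := h.oddW _ he
    simp only at this
    omega
  zz := by
    intro ω' hω' i
    obtain ⟨ω, hω, rfl⟩ := (shS v).exists_pre hω'
    have h1 : (shX v X).z (ω.map (shS v).t.toEmbedding) i = (shS v).s (X.z ω i) := Env.z_tr _ _ _
    rw [h1, h.zz ω hω i]
    have h2 := CSym.iter_map (f := nx (ω ∪ W)) (f' := nx ((ω ∪ W).map (shS v).t.toEmbedding)) (shS v).s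
      (fun c => (shS v).nx_map _ _) i X.c0
    rw [map_union] at h2
    exact h2.symm
  KK' := by
    intro ω' hω' i
    obtain ⟨ω, hω, rfl⟩ := (shS v).exists_pre hω'
    have h1 : (shX v X).K (ω.map (shS v).t.toEmbedding) i = X.K ω i + (shS v).k := Env.K_tr _ _ _
    rw [h1, h.KK' ω hω i]
    have h2 := CSym.KK_map (f := nx (ω ∪ W)) (f' := nx ((ω ∪ W).map (shS v).t.toEmbedding))
      (d := del (ω ∪ W)) (d' := del ((ω ∪ W).map (shS v).t.toEmbedding)) (shS v).s
      (fun c => (shS v).nx_map _ _) (fun c => (shS v).del_map _ _) X.c0 X.k0 (shS v).k i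
    rw [map_union] at h2
    exact h2.symm
  out := by
    obtain ⟨g, h1, h2⟩ := h.out
    refine ⟨g + v, ?_, fun u hu => ?_⟩
    · rw [shX_E, shX_c0, fi_shc, ← shl_union]
      exact dco_sh h1
    · rw [shX_E, shX_c0, vx_shc, ← shl_union] at hu
      have h3 := co_sh (v := -v) hu
      rw [shl_neg, add_neg_cancel_right] at h3
      have h4 := h2 _ h3
      simp only [Prod.snd_add, Prod.snd_neg] at h4 ⊢
      omega

end Pool.Agent.H33.Sp
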