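import Mathlib
import Pool.Agent.H33.Sp.Inst

set_option autoImplicit false
open Finset

/-! # From the frame to an inner rectangle

`Str B R W cl cr τ` : between the large box `B` and the rectangle `R` the open rows are those with `cl` (left)
and `cr` (right), on the boundary of `R` they are shifted by `τ`. `Mk B R cl cr τ X` : the port `X` is an isolated
mark. `co_str`, `dco_str` : the port is joined to the shifted mark of `R`. `one_*`, `two_*` : the type and the root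
of the outsides `oOne`, `oTwo`, seen from `R`. -/

namespace Pool.Agent.H33.Sp

open Pool.Agent.H75.Perc hiding ph cc EE
open Pool.Agent.H75.TwoArm Pool.Agent.Q1 Pool.Agent.H33.Q1
open Pool.Agent.H69.Q1
open Pool.Agent.H74.R45 hiding plab_nx
open Pool.Agent.H33.R45 (rco rdco)
open Pool.Agent.H13.R45 (gp)
open Pool.Agent.H46.Sp (Win)

namespace BF

/-- a face of the tile `(x, y)` -/
def ef (x y : ℤ) : ℤ × ℤ := gp (x + (x + y + 1) % 2, y)

lemma ef_row {A : Finset (ℤ × ℤ)} {xa xb y : ℤ}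
    (h : ∀ x, (xa ≤ x ∧ x ≤ xb) ∨ (xb ≤ x ∧ x ≤ xa) → lt (x, y) ∉ A) : DCo A (ef xa y) (ef xb y) := by
  unfold ef
  rcases le_total xa xb with h1 | h1
  · refine rdco xa (xb + 1) y (y + 1) (by omega) (by omega) (fun x z d1 d2 d3 d4 => ?_) (by omega) (by omega)
    obtain rfl : z = y := by omega
    exact h x (by omega)
  · refine rdco xb (xa + 1) y (y + 1) (by omega) (by omega) (fun x z d1 d2 d3 d4 => ?_) (by omega) (by omega)
    obtain rfl : z = y := by omega
    exact h x (by omega)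

lemma ef_col {A : Finset (ℤ × ℤ)} {ya yb x : ℤ}
    (h : ∀ y, (ya ≤ y ∧ y ≤ yb) ∨ (yb ≤ y ∧ y ≤ ya) → lt (x, y) ∉ A) : DCo A (ef x ya) (ef x yb) := by
  unfold ef
  rcases le_total ya yb with h1 | h1
  · refine rdco x (x + 1) ya (yb + 1) (by omega) (by omega) (fun z y d1 d2 d3 d4 => ?_) (by omega) (by omega)
    obtain rfl : z = x := by omega
    exact h y (by omega)
  · refine rdco x (x + 1) yb (ya + 1) (by omega) (by omega) (fun z y d1 d2 d3 d4 => ?_) (by omega) (by omega)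
    obtain rfl : z = x := by omega
    exact h y (by omega)

/-- the inner box of `R` -/
noncomputable def SI (R : BF) : Finset (ℤ × ℤ) := RT (R.x0 + 1) (R.x1 - 1) (R.y0 + 1) (R.y1 - 1)

/-- **The box, the rectangle `R` and the colours between them.** -/
structure Str (B R : BF) (W : Finset (ℤ × ℤ)) (cl cr : ℤ → Bool) (τ : ℤ) : Prop where
  x0 : B.x0 ≤ R.x0
  x1 : R.x1 ≤ B.x1
  y0 : B.y0 ≤ R.y0
  y1 : R.y1 ≤ B.y1
  hL : ∀ x y, B.InB x y → x < R.x0 → (lt (x, y) ∈ W ↔ cl y = true)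
  hR : ∀ x y, B.InB x y → R.x1 ≤ x → (lt (x, y) ∈ W ↔ cr y = true)
  rl : ∀ y, R.y0 ≤ y → y < R.y1 → (lt (R.x0, y) ∈ W ↔ cl (y - τ) = true)
  rr : ∀ y, R.y0 ≤ y → y < R.y1 → (lt (R.x1 - 1, y) ∈ W ↔ cr (y - τ) = true)

/-- **An isolated mark.** -/
structure Mk (B R : BF) (cl cr : ℤ → Bool) (τ : ℤ) (X : Bool × ℤ) : Prop where
  t : -2 ≤ τ ∧ τ ≤ 2
  l : X.1 = false → (∀ d, 0 ≤ d → d ≤ 3 → cl (X.2 + d) = true ∧ cl (X.2 - 1 - d) = false) ∧
    (R.y0 + 1 ≤ X.2 ∧ R.y0 + 1 ≤ X.2 + τ ∧ X.2 < R.y1 ∧ X.2 + τ < R.y1) ∧ (τ ≠ 0 → B.x0 < R.x0)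
  r : X.1 = true → (∀ d, 0 ≤ d → d ≤ 3 → cr (X.2 - d) = true ∧ cr (X.2 + 1 + d) = false) ∧
    (R.y0 ≤ X.2 ∧ R.y0 ≤ X.2 + τ ∧ X.2 + 1 < R.y1 ∧ X.2 + 1 + τ < R.y1) ∧ (τ ≠ 0 → R.x1 < B.x1)

/-- the column of the mark in `R` -/
def mx (R : BF) (X : Bool × ℤ) : ℤ := if X.1 then R.x1 - 1 else R.x0

variable {B R : BF} {W A : Finset (ℤ × ℤ)} {cl cr : ℤ → Bool} {τ : ℤ} {X Y : Bool × ℤ} {x y : ℤ}

lemma mem_SI : lt (x, y) ∈ SI R ↔ R.x0 < x ∧ x + 1 < R.x1 ∧ R.y0 < y ∧ y + 1 < R.y1 := by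
  unfold SI
  rw [lt_mem_RT]
  omega

lemma Mk.isP (H : Str B R W cl cr τ) (M : Mk B R cl cr τ X) : B.IsP X := by
  have h1 := H.y0; have h2 := H.y1
  obtain ⟨-, hl, hr⟩ := M
  rcases h : X.1 with _ | _
  · obtain ⟨-, ⟨a1, a2, a3, a4⟩, -⟩ := hl h
    refine ⟨by omega, by omega, fun _ => by omega, fun e => ?_⟩
    rw [h] at e; exact absurd e (by decide)
  · obtain ⟨-, ⟨a1, a2, a3, a4⟩, -⟩ := hr h
    refine ⟨by omega, by omega, fun e => ?_, fun _ => by omega⟩
    rw [h] at e; exact absurd e (by decide)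

/-- column, row, column -/
lemma co_path {D : Finset (ℤ × ℤ)} {xa xb ya yb m : ℤ}
    (h1 : ∀ y, (ya ≤ y ∧ y ≤ m) ∨ (m ≤ y ∧ y ≤ ya) → lt (xa, y) ∈ D)
    (h2 : ∀ x, (xa ≤ x ∧ x ≤ xb) ∨ (xb ≤ x ∧ x ≤ xa) → lt (x, m) ∈ D)
    (h3 : ∀ y, (m ≤ y ∧ y ≤ yb) ∨ (yb ≤ y ∧ y ≤ m) → lt (xb, y) ∈ D) : Co D (et xa ya) (et xb yb) :=
  ((et_col h1).trans (et_row h2)).trans (et_col h3)

lemma dco_path {D : Finset (ℤ × ℤ)} {xa xb ya yb m : ℤ}
    (h1 : ∀ y, (ya ≤ y ∧ y ≤ m) ∨ (m ≤ y ∧ y ≤ ya) → lt (xa, y) ∉ D)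
    (h2 : ∀ x, (xa ≤ x ∧ x ≤ xb) ∨ (xb ≤ x ∧ x ≤ xa) → lt (x, m) ∉ D)
    (h3 : ∀ y, (m ≤ y ∧ y ≤ yb) ∨ (yb ≤ y ∧ y ≤ m) → lt (xb, y) ∉ D) : DCo D (ef xa ya) (ef xb yb) :=
  ((ef_col h1).trans (ef_row h2)).trans (ef_col h3)

/-- the vertex at the port -/
lemma nv_et (hX : B.IsP X) (hD : lt (B.mx X, X.2) ∈ W) : Co W (B.nv (B.pos X)) (et (B.mx X) X.2) := by
  have e1 := px_pos hX
  have e2 := py_pos hX
  unfold nv et
  rw [e1, e2]
  unfold mx at hD ⊢
  rcases hs : X.1 with _ | _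
  · simp only [hs, Bool.false_eq_true, if_false] at hD ⊢
    refine rco B.x0 (B.x0 + 1) X.2 (X.2 + 1) (by omega) (by omega) (fun x y d1 d2 d3 d4 => ?_)
      (by omega) (by omega)
    obtain rfl : x = B.x0 := by omega
    obtain rfl : y = X.2 := by omega
    exact hD
  · simp only [hs, if_true] at hD ⊢
    refine rco (B.x1 - 1) B.x1 X.2 (X.2 + 1) (by omega) (by omega) (fun x y d1 d2 d3 d4 => ?_)
      (by omega) (by omega)
    obtain rfl : x = B.x1 - 1 := by omega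
    obtain rfl : y = X.2 := by omega
    exact hD

/-- the face at the port -/
lemma nd_ef (hX : B.IsP X) (hD : lt (B.mx X, B.fr X) ∉ A) :
    DCo A (B.nd (B.pos X + 1)) (ef (B.mx X) (B.fr X)) := by
  rw [nd_succ hX]
  unfold ef
  unfold mx at hD ⊢
  rcases hs : X.1 with _ | _
  · simp only [hs, Bool.false_eq_true, if_false] at hD ⊢
    refine rdco B.x0 (B.x0 + 1) (B.fr X) (B.fr X + 1) (by omega) (by omega) (fun x y d1 d2 d3 d4 => ?_)
      (by omega) (by omega)
    obtain rfl : x = B.x0 := by omega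
    obtain rfl : y = B.fr X := by omega
    exact hD
  · simp only [hs, if_true] at hD ⊢
    refine rdco (B.x1 - 1) B.x1 (B.fr X) (B.fr X + 1) (by omega) (by omega) (fun x y d1 d2 d3 d4 => ?_)
      (by omega) (by omega)
    obtain rfl : x = B.x1 - 1 := by omega
    obtain rfl : y = B.fr X := by omega
    exact hD

/-- **(a)** the port is joined to the shifted mark of `R` -/
theorem co_str (H : Str B R W cl cr τ) (M : Mk B R cl cr τ X) :
    Co (W \ SI R) (B.nv (B.pos X)) (et (R.mx X) (X.2 + τ)) := by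
  have hP := M.isP H
  have b1 := B.hx; have b2 := R.hx; have b3 := R.hy
  obtain ⟨c1, c2, c3, c4, hL, hR, rl, rr⟩ := H
  obtain ⟨⟨t1, t2⟩, hl, hr⟩ := M
  have key : ∀ x y, lt (x, y) ∈ W → ¬ (R.x0 < x ∧ x + 1 < R.x1) → lt (x, y) ∈ W \ SI R := by
    intro x y h1 h2
    rw [mem_sdiff, mem_SI]
    exact ⟨h1, fun h => h2 ⟨h.1, h.2.1⟩⟩
  rcases h : X.1 with _ | _
  · obtain ⟨a0, ⟨a1, a2, a3, a4⟩, a5⟩ := hl h
    have e1 : B.mx X = B.x0 := by unfold mx; rw [h]; rfl
    have e2 : R.mx X = R.x0 := by unfold mx; rw [h]; rfl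
    have g1 : ∀ y, X.2 ≤ y → y ≤ X.2 + 3 → cl y = true := by
      intro y k1 k2
      have := (a0 (y - X.2) (by omega) (by omega)).1
      rwa [show X.2 + (y - X.2) = y by ring] at this
    obtain ⟨m, m1, m2, m3⟩ : ∃ m, X.2 ≤ m ∧ X.2 + τ ≤ m ∧ (m = X.2 ∨ m = X.2 + τ) := by
      rcases le_total τ 0 with k | k
      · exact ⟨X.2, by omega, by omega, Or.inl rfl⟩
      · exact ⟨X.2 + τ, by omega, by omega, Or.inr rfl⟩
    have f1 : ∀ x y, B.x0 ≤ x → x < R.x0 → X.2 ≤ y → y ≤ m → lt (x, y) ∈ W := by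
      intro x y k1 k2 k3 k4
      exact (hL x y (by unfold InB; omega) k2).2 (g1 y k3 (by omega))
    have f2 : ∀ y, X.2 + τ ≤ y → y ≤ m → lt (R.x0, y) ∈ W := by
      intro y k3 k4
      exact (rl y (by omega) (by omega)).2 (g1 _ (by omega) (by omega))
    have f3 : ∀ y, X.2 ≤ y → y ≤ m → lt (B.x0, y) ∈ W := by
      intro y k1 k2
      rcases (by omega : B.x0 < R.x0 ∨ B.x0 = R.x0) with k | k
      · exact f1 _ _ le_rfl k k1 k2
      · have hτ : τ = 0 := by
          by_contra hτ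
          have := a5 hτ
          omega
        rw [k]
        exact f2 _ (by omega) k2
    refine (nv_et hP ?_).trans ?_
    · rw [e1]; exact key _ _ (f3 _ le_rfl m1) (by omega)
    · rw [e1, e2]
      refine co_path (m := m) (fun y k => key _ _ (f3 _ (by omega) (by omega)) (by omega))
        (fun x k => key _ _ ?_ (by omega)) (fun y k => key _ _ (f2 _ (by omega) (by omega)) (by omega))
      rcases (by omega : x < R.x0 ∨ x = R.x0) with k' | k'
      · exact f1 _ _ (by omega) k' m1 le_rfl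
      · rw [k']; exact f2 _ m2 le_rfl
  · obtain ⟨a0, ⟨a1, a2, a3, a4⟩, a5⟩ := hr h
    have e1 : B.mx X = B.x1 - 1 := by unfold mx; rw [h]; rfl
    have e2 : R.mx X = R.x1 - 1 := by unfold mx; rw [h]; rfl
    have g1 : ∀ y, y ≤ X.2 → X.2 ≤ y + 3 → cr y = true := by
      intro y k1 k2
      have := (a0 (X.2 - y) (by omega) (by omega)).1
      rwa [show X.2 - (X.2 - y) = y by ring] at this
    obtain ⟨m, m1, m2, m3⟩ : ∃ m, m ≤ X.2 ∧ m ≤ X.2 + τ ∧ (m = X.2 ∨ m = X.2 + τ) := by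
      rcases le_total τ 0 with k | k
      · exact ⟨X.2 + τ, by omega, by omega, Or.inr rfl⟩
      · exact ⟨X.2, by omega, by omega, Or.inl rfl⟩
    have f1 : ∀ x y, x < B.x1 → R.x1 ≤ x → m ≤ y → y ≤ X.2 → lt (x, y) ∈ W := by
      intro x y k1 k2 k3 k4
      exact (hR x y (by unfold InB; omega) k2).2 (g1 y k4 (by omega))
    have f2 : ∀ y, m ≤ y → y ≤ X.2 + τ → lt (R.x1 - 1, y) ∈ W := by
      intro y k3 k4
      exact (rr y (by omega) (by omega)).2 (g1 _ (by omega) (by omega))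
    have f3 : ∀ y, m ≤ y → y ≤ X.2 → lt (B.x1 - 1, y) ∈ W := by
      intro y k1 k2
      rcases (by omega : R.x1 < B.x1 ∨ B.x1 = R.x1) with k | k
      · exact f1 _ _ (by omega) (by omega) k1 k2
      · have hτ : τ = 0 := by
          by_contra hτ
          have := a5 hτ
          omega
        rw [k]
        exact f2 _ k1 (by omega)
    refine (nv_et hP ?_).trans ?_
    · rw [e1]; exact key _ _ (f3 _ m1 le_rfl) (by omega)
    · rw [e1, e2]
      refine co_path (m := m) (fun y k => key _ _ (f3 _ (by omega) (by omega)) (by omega))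
        (fun x k => key _ _ ?_ (by omega)) (fun y k => key _ _ (f2 _ (by omega) (by omega)) (by omega))
      rcases (by omega : R.x1 ≤ x ∨ x = R.x1 - 1) with k' | k'
      · exact f1 _ _ (by omega) k' le_rfl m1
      · rw [k']; exact f2 _ le_rfl m2

/-- the face of the port is joined to the free row of the shifted mark of `R` -/
theorem dco_str' (H : Str B R W cl cr τ) (M : Mk B R cl cr τ X) :
    DCo (SI R ∪ W) (B.nd (B.pos X + 1)) (ef (R.mx X) (B.fr X + τ)) := by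
  have hP := M.isP H
  have b1 := B.hx; have b2 := R.hx; have b3 := R.hy
  obtain ⟨c1, c2, c3, c4, hL, hR, rl, rr⟩ := H
  obtain ⟨⟨t1, t2⟩, hl, hr⟩ := M
  have key : ∀ x y, lt (x, y) ∉ W → ¬ (R.x0 < x ∧ x + 1 < R.x1) → lt (x, y) ∉ SI R ∪ W := by
    intro x y h1 h2
    rw [mem_union, mem_SI]
    rintro (h | h)
    · exact h2 ⟨h.1, h.2.1⟩
    · exact h1 h
  rcases h : X.1 with _ | _
  · obtain ⟨a0, ⟨a1, a2, a3, a4⟩, a5⟩ := hl h
    have e1 : B.mx X = B.x0 := by unfold mx; rw [h]; rfl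
    have e2 : R.mx X = R.x0 := by unfold mx; rw [h]; rfl
    have e3 : B.fr X = X.2 - 1 := by unfold fr; rw [h]; rfl
    have g1 : ∀ y, y ≤ X.2 - 1 → X.2 - 4 ≤ y → ¬ cl y = true := by
      intro y k1 k2
      have := (a0 (X.2 - 1 - y) (by omega) (by omega)).2
      rw [show X.2 - 1 - (X.2 - 1 - y) = y by ring] at this
      rw [this]; decide
    obtain ⟨m, m1, m2, m3⟩ : ∃ m, m ≤ X.2 - 1 ∧ m ≤ X.2 - 1 + τ ∧ (m = X.2 - 1 ∨ m = X.2 - 1 + τ) := by
      rcases le_total τ 0 with k | k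
      · exact ⟨X.2 - 1 + τ, by omega, by omega, Or.inr rfl⟩
      · exact ⟨X.2 - 1, by omega, by omega, Or.inl rfl⟩
    have f1 : ∀ x y, B.x0 ≤ x → x < R.x0 → m ≤ y → y ≤ X.2 - 1 → lt (x, y) ∉ W := by
      intro x y k1 k2 k3 k4 hc
      exact g1 y k4 (by omega) ((hL x y (by unfold InB; omega) k2).1 hc)
    have f2 : ∀ y, m ≤ y → y ≤ X.2 - 1 + τ → lt (R.x0, y) ∉ W := by
      intro y k3 k4 hc
      exact g1 (y - τ) (by omega) (by omega) ((rl y (by omega) (by omega)).1 hc)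
    have f3 : ∀ y, m ≤ y → y ≤ X.2 - 1 → lt (B.x0, y) ∉ W := by
      intro y k1 k2
      rcases (by omega : B.x0 < R.x0 ∨ B.x0 = R.x0) with k | k
      · exact f1 _ _ le_rfl k k1 k2
      · have hτ : τ = 0 := by
          by_contra hτ
          have := a5 hτ
          omega
        rw [k]
        exact f2 _ k1 (by omega)
    refine (nd_ef hP ?_).trans ?_
    · rw [e1, e3]; exact key _ _ (f3 _ m1 le_rfl) (by omega)
    · rw [e1, e2, e3]
      refine dco_path (m := m) (fun y k => key _ _ (f3 _ (by omega) (by omega)) (by omega))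
        (fun x k => key _ _ ?_ (by omega)) (fun y k => key _ _ (f2 _ (by omega) (by omega)) (by omega))
      rcases (by omega : x < R.x0 ∨ x = R.x0) with k' | k'
      · exact f1 _ _ (by omega) k' le_rfl m1
      · rw [k']; exact f2 _ le_rfl m2
  · obtain ⟨a0, ⟨a1, a2, a3, a4⟩, a5⟩ := hr h
    have e1 : B.mx X = B.x1 - 1 := by unfold mx; rw [h]; rfl
    have e2 : R.mx X = R.x1 - 1 := by unfold mx; rw [h]; rfl
    have e3 : B.fr X = X.2 + 1 := by unfold fr; rw [h]; rfl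
    have g1 : ∀ y, X.2 + 1 ≤ y → y ≤ X.2 + 4 → ¬ cr y = true := by
      intro y k1 k2
      have := (a0 (y - X.2 - 1) (by omega) (by omega)).2
      rw [show X.2 + 1 + (y - X.2 - 1) = y by ring] at this
      rw [this]; decide
    obtain ⟨m, m1, m2, m3⟩ : ∃ m, X.2 + 1 ≤ m ∧ X.2 + 1 + τ ≤ m ∧ (m = X.2 + 1 ∨ m = X.2 + 1 + τ) := by
      rcases le_total τ 0 with k | k
      · exact ⟨X.2 + 1, by omega, by omega, Or.inl rfl⟩
      · exact ⟨X.2 + 1 + τ, by omega, by omega, Or.inr rfl⟩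
    have f1 : ∀ x y, x < B.x1 → R.x1 ≤ x → X.2 + 1 ≤ y → y ≤ m → lt (x, y) ∉ W := by
      intro x y k1 k2 k3 k4 hc
      exact g1 y k3 (by omega) ((hR x y (by unfold InB; omega) k2).1 hc)
    have f2 : ∀ y, X.2 + 1 + τ ≤ y → y ≤ m → lt (R.x1 - 1, y) ∉ W := by
      intro y k3 k4 hc
      exact g1 (y - τ) (by omega) (by omega) ((rr y (by omega) (by omega)).1 hc)
    have f3 : ∀ y, X.2 + 1 ≤ y → y ≤ m → lt (B.x1 - 1, y) ∉ W := by
      intro y k1 k2
      rcases (by omega : R.x1 < B.x1 ∨ B.x1 = R.x1) with k | k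
      · exact f1 _ _ (by omega) (by omega) k1 k2
      · have hτ : τ = 0 := by
          by_contra hτ
          have := a5 hτ
          omega
        rw [k]
        exact f2 _ (by omega) k2
    refine (nd_ef hP ?_).trans ?_
    · rw [e1, e3]; exact key _ _ (f3 _ le_rfl m1) (by omega)
    · rw [e1, e2, e3]
      refine dco_path (m := m) (fun y k => key _ _ (f3 _ (by omega) (by omega)) (by omega))
        (fun x k => key _ _ ?_ (by omega)) (fun y k => key _ _ (f2 _ (by omega) (by omega)) (by omega))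
      rcases (by omega : R.x1 ≤ x ∨ x = R.x1 - 1) with k' | k'
      · exact f1 _ _ (by omega) k' m1 le_rfl
      · rw [k']; exact f2 _ m2 le_rfl

lemma fr_add : R.fr (X.1, X.2 + τ) = B.fr X + τ := by
  unfold fr
  rcases h : X.1 with _ | _
  · simp only [Bool.false_eq_true, if_false]; ring
  · simp only [if_true]; ring

/-- **(b)** the face of the port is joined to the free row of the shifted mark of `R` -/
theorem dco_str (H : Str B R W cl cr τ) (M : Mk B R cl cr τ X) :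
    DCo (SI R ∪ W) (B.nd (B.pos X + 1)) (ef (R.mx X) (R.fr (X.1, X.2 + τ))) := by
  rw [fr_add (B := B)]
  exact dco_str' H M

/-- far labels do not matter -/
lemma Str.far (H : Str B R W cl cr τ) {Wo : Finset (ℤ × ℤ)} (hf : ∀ x y, lt (x, y) ∈ Wo → ¬ B.InB x y) :
    Str B R (W ∪ Wo) cl cr τ := by
  have b1 := R.hx; have b2 := R.hy
  have key : ∀ x y, B.InB x y → (lt (x, y) ∈ W ∪ Wo ↔ lt (x, y) ∈ W) := fun x y h => by
    rw [mem_union]; exact ⟨fun h' => h'.resolve_right fun h'' => hf x y h'' h, Or.inl⟩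
  obtain ⟨c1, c2, c3, c4, hL, hR, rl, rr⟩ := H
  refine ⟨c1, c2, c3, c4, fun x y h1 h2 => ?_, fun x y h1 h2 => ?_, fun y h1 h2 => ?_, fun y h1 h2 => ?_⟩
  · rw [key x y h1]; exact hL x y h1 h2
  · rw [key x y h1]; exact hR x y h1 h2
  · rw [key _ y (by unfold InB; omega)]; exact rl y h1 h2
  · rw [key _ y (by unfold InB; omega)]; exact rr y h1 h2

lemma Str.SI_sub (H : Str B R W cl cr τ) : SI R ⊆ B.GB := by
  intro e he
  obtain ⟨x, y, rfl⟩ := exists_lt (odd_RT he)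
  rw [mem_SI] at he
  have := H.x0; have := H.x1; have := H.y0; have := H.y1
  rw [mem_GB]
  unfold InB
  omega

end BF

/-! ### The two outsides -/

section ty

open BF

variable {D : Win} {L : ℤ} {hL : 2 ≤ L} {X Y : Bool × ℤ} {R : BF} {W : Finset (ℤ × ℤ)} {cl cr : ℤ → Bool}
  {τ : ℤ}

/-- the two ports are different positions -/
lemma mk_ne {B : BF} (H : Str B R W cl cr τ) (MX : Mk B R cl cr τ X) (MY : Mk B R cl cr τ Y) :
    B.pos Y + 1 ≠ B.pos X := by
  have hX := MX.isP H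
  have hY := MY.isP H
  obtain ⟨a1, a2, a3, a4⟩ := hX
  obtain ⟨c1, c2, c3, c4⟩ := hY
  intro e
  unfold pos N at e
  have b2 := B.hy
  rcases hs : X.1 with _ | _ <;> rcases ht : Y.1 with _ | _ <;>
    simp only [hs, ht, Bool.false_eq_true, if_false, if_true] at e
  · have k1 := ((MX.l hs).1 0 le_rfl (by omega)).1
    have k2 := ((MY.l ht).1 0 le_rfl (by omega)).2
    rw [show Y.2 - 1 - 0 = X.2 + 0 by omega, k1] at k2
    exact absurd k2 (by decide)
  · omega
  · have := c3 ht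
    omega
  · have k1 := ((MX.r hs).1 0 le_rfl (by omega)).1
    have k2 := ((MY.r ht).1 0 le_rfl (by omega)).2
    rw [show Y.2 + 1 + 0 = X.2 - 0 by omega, k1] at k2
    exact absurd k2 (by decide)

variable {h : PortD D X} {h' : PortD D Y}

lemma str_one (H : Str (bfD D L hL X) R W cl cr τ) :
    Str (bfD D L hL X) R (W ∪ (oOne D L hL X h).Wo) cl cr τ :=
  H.far fun x y hl => by rw [inB_bf]; exact far_one h hl

lemma str_two (H : Str (bfD D L hL X) R W cl cr τ) :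
    Str (bfD D L hL X) R (W ∪ (oTwo D L hL X Y h h').Wo) cl cr τ :=
  H.far fun x y hl => by rw [inB_bf]; exact far_two h h' hl

/-- **(c)** one wire: the root vertex -/
theorem one_v (H : Str (bfD D L hL X) R W cl cr τ) (M : Mk (bfD D L hL X) R cl cr τ X) :
    Co (W ∪ (oOne D L hL X h).Wo) (vx (oOne D L hL X h).c0) (et (R.mx X) (X.2 + τ)) :=
  ((co_oOne h).mono subset_union_right).trans
    ((co_str (str_one (h := h) H) M).mono sdiff_subset)

/-- one wire: the root face -/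
theorem one_f (hW : W ⊆ Pool.Agent.H74.Win.GB D) (H : Str (bfD D L hL X) R W cl cr τ)
    (M : Mk (bfD D L hL X) R cl cr τ X) :
    DCo (SI R ∪ (W ∪ (oOne D L hL X h).Wo)) (fi (oOne D L hL X h).c0)
      (ef (R.mx X) (R.fr (X.1, X.2 + τ))) := by
  refine ((dco_oOne h hW).anti (union_subset_union_left ?_)).trans (dco_str (str_one (h := h) H) M)
  have := H.SI_sub
  rwa [GB_bf] at this

/-- one wire: the two marks are joined by faces outside of the inner box -/
theorem one_t (hW : W ⊆ Pool.Agent.H74.Win.GB D) (H : Str (bfD D L hL X) R W cl cr τ)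
    (MX : Mk (bfD D L hL X) R cl cr τ X) (MY : Mk (bfD D L hL X) R cl cr τ Y) :
    DCo (SI R ∪ (W ∪ (oOne D L hL X h).Wo)) (ef (R.mx X) (R.fr (X.1, X.2 + τ)))
      (ef (R.mx Y) (R.fr (Y.1, Y.2 + τ))) := by
  have hF := fx_oOne (L := L) (hL := hL) h hW
  have rX := BF.pos_range (MX.isP H)
  have rY := BF.pos_range (MY.isP H)
  have hj := hF.join (C := fun r => r = (bfD D L hL X).pos X) rfl (r := (bfD D L hL X).pos X + 1)
    (s := (bfD D L hL X).pos Y + 1) (by omega) (by omega) (by omega) (by omega) (by omega) (mk_ne H MX MY)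
  exact ((dco_str (str_one (h := h) H) MX).symm.trans (hj.anti (union_subset_union_left H.SI_sub))).trans
    (dco_str (str_one (h := h) H) MY)

/-- **(d)** two wires: the root vertex -/
theorem two_v (H : Str (bfD D L hL X) R W cl cr τ) (M : Mk (bfD D L hL X) R cl cr τ X) :
    Co (W ∪ (oTwo D L hL X Y h h').Wo) (vx (oTwo D L hL X Y h h').c0) (et (R.mx X) (X.2 + τ)) :=
  ((co_oTwo h h').mono subset_union_right).trans
    ((co_str (str_two (h := h) (h' := h') H) M).mono sdiff_subset)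

/-- two wires: the root face -/
theorem two_f (hA : BF.Ap X Y) (hW : W ⊆ Pool.Agent.H74.Win.GB D) (H : Str (bfD D L hL X) R W cl cr τ)
    (M : Mk (bfD D L hL X) R cl cr τ X) :
    DCo (SI R ∪ (W ∪ (oTwo D L hL X Y h h').Wo)) (fi (oTwo D L hL X Y h h').c0)
      (ef (R.mx X) (R.fr (X.1, X.2 + τ))) := by
  refine ((dco_oTwo h h' hA hW).anti (union_subset_union_left ?_)).trans
    (dco_str (str_two (h := h) (h' := h') H) M)
  have := H.SI_sub
  rwa [GB_bf] at this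

/-- two wires: the two marks are joined outside of the inner box -/
theorem two_t (hA : BF.Ap X Y) (H : Str (bfD D L hL X) R W cl cr τ)
    (MX : Mk (bfD D L hL X) R cl cr τ X) (MY : Mk (bfD D L hL X) R cl cr τ Y) :
    Co ((W ∪ (oTwo D L hL X Y h h').Wo) \ SI R) (et (R.mx X) (X.2 + τ)) (et (R.mx Y) (Y.2 + τ)) := by
  have hc := co_frame (MX.isP H) (MY.isP H) hA
  refine ((co_str (str_two (h := h) (h' := h') H) MX).symm.trans (hc.mono ?_)).trans
    (co_str (str_two (h := h) (h' := h') H) MY)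
  intro e he
  rw [mem_sdiff]
  refine ⟨mem_union_right _ he, fun h1 => ?_⟩
  have h2 := H.SI_sub h1
  obtain ⟨x, y, rfl⟩ := exists_lt (odd_RT h1)
  rw [mem_GB, inB_bf] at h2
  exact far_two h h' he h2

end ty

end Pool.Agent.H33.Sp
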