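import Mathlib
import Pool.Agent.H33.Sp.SameXY

set_option autoImplicit false
open Finset

/-! # Same type, general form

`same_nat` : two environments with the same random labels `E`, whose open labels agree on a set `K` which
contains `E` and its neighbours. Every vertex (face) where `K` is left belongs to the class of one of two
entrances `c1`, `c3`, in both environments; both environments have the same type (`X` : the faces of `c1`,
`c3` are joined, `Y` : the vertices of `c1`, `c3` are joined) and roots in the same class. Then the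
increments agree up to a unit. -/

namespace Pool.Agent.H33.Sp

open Pool.Agent.H75.Perc hiding ph cc EE
open Pool.Agent.H75.TwoArm Pool.Agent.Q1 Pool.Agent.H33.Q1
open Pool.Agent.H69.Q1
open Pool.Agent.H74.R45 hiding plab_nx
open Pool.Agent.H13.R45 (gp)
open Pool.Agent.Q1.Env (TConn TAdj ArcN SamePat)
open Pool.Agent.Q1.M6c (PlaneEnv entrance_unique)

variable {E W W' K : Finset (ℤ × ℤ)}

/-- the vertex touches an open label of `K` -/
def NV (K W : Finset (ℤ × ℤ)) (u : ℤ × ℤ) : Prop := ∃ x y, Tch x y (tv u) ∧ lt (x, y) ∈ K ∧ lt (x, y) ∈ W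

/-- the face touches a closed label of `K` -/
def NF (K E W : Finset (ℤ × ℤ)) (f : ℤ × ℤ) : Prop :=
  ∃ x y, Tch x y (tf f) ∧ lt (x, y) ∈ K ∧ lt (x, y) ∉ E ∪ W

/-- the vertex touches an open label outside of `K` -/
def FV (K W : Finset (ℤ × ℤ)) (u : ℤ × ℤ) : Prop := ∃ x y, Tch x y (tv u) ∧ lt (x, y) ∉ K ∧ lt (x, y) ∈ W

/-- the face touches a closed label outside of `K` -/
def FF (K W : Finset (ℤ × ℤ)) (f : ℤ × ℤ) : Prop := ∃ x y, Tch x y (tf f) ∧ lt (x, y) ∉ K ∧ lt (x, y) ∉ W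

/-- `K` contains the neighbours of `E` -/
def Nb (K E : Finset (ℤ × ℤ)) : Prop :=
  ∀ x y, lt (x, y) ∈ E → ∀ x' y', x - 1 ≤ x' → x' ≤ x + 1 → y - 1 ≤ y' → y' ≤ y + 1 → lt (x', y') ∈ K

/-- all labels at a corner of `E` are in `K` -/
lemma Nb.corner (h : Nb K E) {c : ℤ × ℤ} (hc : lab c ∈ E ∨ plab c ∈ E) {x y : ℤ}
    (ht : Tch x y (tv (vx c)) ∨ Tch x y (tf (fi c))) : lt (x, y) ∈ K := by
  obtain ⟨⟨a, b, e, h1, h2⟩, ⟨a', b', e', h1', h2'⟩⟩ := lab_touch c
  unfold Tch at h1 h2 h1' h2' ht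
  rcases hc with hc | hc
  · rw [e] at hc
    exact h _ _ hc _ _ (by omega) (by omega) (by omega) (by omega)
  · rw [e'] at hc
    exact h _ _ hc _ _ (by omega) (by omega) (by omega) (by omega)

/-- transfer of connections, general form -/
theorem co_tr' (hn : ∀ e ∈ K, e ∈ W → e ∈ W')
    (hF : ∀ u v, NV K W u → NV K W v → FV K W u → FV K W v → Co W u v → Co W' u v) {u v : ℤ × ℤ}
    (hu : ¬ FV K W u) (hv : ¬ FV K W v) (h : Co W u v) : Co W' u v := by
  by_cases hne : u = v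
  · rw [hne]; exact Co.refl _ _
  have key : ∀ {a b}, ¬ FV K W a → a ≠ b → Co W a b → NV K W a := by
    intro a b ha hab hc
    obtain ⟨x, y, h1, h2⟩ := co_touch hc hab
    by_cases hk : lt (x, y) ∈ K
    · exact ⟨x, y, h2, hk, h1⟩
    · exact absurd ⟨x, y, h2, hk, h1⟩ ha
  refine rtg_transfer (R := Ad (W ∩ K)) (F := Ad (W \ K)) (G := Co W')
    (T := NV K W) (fun a => Co.refl _ _) (fun a b c h1 h2 => h1.trans h2) ?_ ?_ (key hu hne h)
    (key hv (Ne.symm hne) h.symm) ?_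
  · intro a b hab
    obtain ⟨x, y, e, h1, h2⟩ := touch_v hab.1
    have h3 := hab.2
    rw [mem_inter] at h3
    refine ⟨⟨x, y, h1, by rw [← e]; exact h3.2, by rw [← e]; exact h3.1⟩,
      ⟨x, y, h2, by rw [← e]; exact h3.2, by rw [← e]; exact h3.1⟩,
      Relation.ReflTransGen.single ⟨hab.1, hn _ h3.2 h3.1⟩⟩
  · intro a b ha hb hab
    by_cases hne' : a = b
    · rw [hne']; exact Co.refl _ _
    have hab' : Co (W \ K) a b := hab
    obtain ⟨x, y, h1, h2⟩ := co_touch hab' hne'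
    obtain ⟨x', y', h1', h2'⟩ := co_touch hab'.symm (Ne.symm hne')
    rw [mem_sdiff] at h1 h1'
    exact hF a b ha hb ⟨x, y, h2, h1.2, h1.1⟩ ⟨x', y', h2', h1'.2, h1'.1⟩ (hab'.mono sdiff_subset)
  · refine Relation.ReflTransGen.mono (fun a b hab => ?_) _ _ h
    by_cases hg : a + b ∈ K
    · exact Or.inl ⟨hab.1, mem_inter.2 ⟨hab.2, hg⟩⟩
    · exact Or.inr ⟨hab.1, mem_sdiff.2 ⟨hab.2, hg⟩⟩

/-- a face at the beginning of a path touches a closed label -/
lemma dco_touch {w : Finset (ℤ × ℤ)} {f g : ℤ × ℤ} (h : Relation.ReflTransGen (DAd w) f g) (hne : f ≠ g) :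
    ∃ x y, lt (x, y) ∉ w ∧ Tch x y (tf f) := by
  rcases Relation.ReflTransGen.cases_head h with h1 | ⟨k, h1, -⟩
  · exact absurd h1 hne
  · obtain ⟨x, y, e, h2, -⟩ := touch_f h1.1
    exact ⟨x, y, by rw [← e]; exact h1.2, h2⟩

/-- transfer of dual connections, general form -/
theorem dco_tr' (hn : ∀ e ∈ K, e ∈ W' → e ∈ W) (hEK : E ⊆ K)
    (hF : ∀ f g, NF K E W f → NF K E W g → FF K W f → FF K W g → DCo (E ∪ W) f g → DCo (E ∪ W') f g)
    {f g : ℤ × ℤ} (hf : ¬ FF K W f) (hg : ¬ FF K W g) (h : DCo (E ∪ W) f g) : DCo (E ∪ W') f g := by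
  by_cases hne : f = g
  · rw [hne]; exact DCo.refl _ _
  have key : ∀ {a b}, ¬ FF K W a → a ≠ b → DCo (E ∪ W) a b → NF K E W a := by
    intro a b ha hab hc
    obtain ⟨x, y, h1, h2⟩ := dco_touch (dco_iff.1 hc) hab
    by_cases hk : lt (x, y) ∈ K
    · exact ⟨x, y, h2, hk, h1⟩
    · exact absurd ⟨x, y, h2, hk, fun h => h1 (mem_union_right _ h)⟩ ha
  refine rtg_transfer (R := fun a b => DAd (E ∪ W) a b ∧ a + b - (1, 1) ∈ K)
    (F := DAd (K ∪ W)) (G := DCo (E ∪ W')) (T := NF K E W) (fun a => DCo.refl _ _)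
    (fun a b c h1 h2 => h1.trans h2) ?_ ?_ (key hf hne h) (key hg (Ne.symm hne) h.symm) ?_
  · rintro a b ⟨hab, hl⟩
    obtain ⟨x, y, e, h1, h2⟩ := touch_f hab.1
    have h4 := hl
    rw [e] at h4
    have h5 := hab.2
    rw [e] at h5
    refine ⟨⟨x, y, h1, h4, h5⟩, ⟨x, y, h2, h4, h5⟩, DCo.step hab.1 fun h6 => ?_⟩
    rw [mem_union] at h6
    rcases h6 with h6 | h6
    · exact hab.2 (mem_union_left _ h6)
    · exact hab.2 (mem_union_right _ (hn _ hl h6))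
  · intro a b ha hb hab
    by_cases hne' : a = b
    · rw [hne']; exact DCo.refl _ _
    have hab' : DCo (K ∪ W) a b := dco_iff.2 hab
    obtain ⟨x, y, h1, h2⟩ := dco_touch (dco_iff.1 hab') hne'
    obtain ⟨x', y', h1', h2'⟩ := dco_touch (dco_iff.1 hab'.symm) (Ne.symm hne')
    rw [mem_union, not_or] at h1 h1'
    exact hF a b ha hb ⟨x, y, h2, h1.1, h1.2⟩ ⟨x', y', h2', h1'.1, h1'.2⟩
      (hab'.anti (union_subset_union_left hEK))
  · refine Relation.ReflTransGen.mono (fun a b hab => ?_) _ _ (dco_iff.1 h)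
    by_cases hg : a + b - (1, 1) ∈ K
    · exact Or.inl ⟨hab, hg⟩
    · refine Or.inr ⟨hab.1, fun h6 => ?_⟩
      rw [mem_union] at h6
      rcases h6 with h6 | h6
      · exact hg h6
      · exact hab.2 (mem_union_right _ h6)

/-- the same arcs from the root -/
theorem same_conn' (hconn : TConn E) (H : Tr E W W') (H' : Tr E W' W)
    {X Y : Env} (pX : PlaneEnv X W) (pY : PlaneEnv Y W') (eX : X.E = E) (eY : Y.E = E)
    {cs : ℤ × ℤ} (hcs : lab cs ∈ E) (hcs' : plab cs ∉ E)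
    (x1 : Co W (vx X.c0) (vx cs)) (x2 : DCo (E ∪ W) (fi X.c0) (fi cs))
    (y1 : Co W' (vx Y.c0) (vx cs)) (y2 : DCo (E ∪ W') (fi Y.c0) (fi cs)) :
    ∃ κ : ℤ, ∀ c, (lab c ∈ E ∨ plab c ∈ E) → Y.inc c = ph κ * X.inc c := by
  refine same_conn hconn H H' pX pY eX eY fun c hc => ?_
  constructor
  · rintro ⟨h1, h2⟩
    exact ⟨y1.trans (H.co _ _ (Or.inl hcs) (Or.inl hc) (x1.symm.trans h1)),
      y2.trans (H.dco _ _ (Or.inl hcs) (Or.inl hc) (x2.symm.trans h2))⟩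
  · rintro ⟨h1, h2⟩
    exact ⟨x1.trans (H'.co _ _ (Or.inl hcs) (Or.inl hc) (y1.symm.trans h1)),
      x2.trans (H'.dco _ _ (Or.inl hcs) (Or.inl hc) (y2.symm.trans h2))⟩

/-- **Classes**: the open labels `W` and `W'` agree on `K`, and every vertex (face) of the boundary of `K`
is in the class of `c1` or `c3`, for `W` and for `W'`. -/
structure Cls (K E W W' : Finset (ℤ × ℤ)) (c1 c3 : ℤ × ℤ) : Prop where
  l1 : lab c1 ∈ E
  p1 : plab c1 ∉ E
  l3 : lab c3 ∈ E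
  p3 : plab c3 ∉ E
  ne : c1 ≠ c3
  nb : Nb K E
  agree : ∀ e ∈ K, (e ∈ W ↔ e ∈ W')
  hv : ∀ u, NV K W u → FV K W u ∨ FV K W' u →
    (Co W u (vx c1) ∧ Co W' u (vx c1)) ∨ (Co W u (vx c3) ∧ Co W' u (vx c3))
  hf : ∀ f, NF K E W f → FF K W f ∨ FF K W' f →
    (DCo (E ∪ W) f (fi c1) ∧ DCo (E ∪ W') f (fi c1)) ∨ (DCo (E ∪ W) f (fi c3) ∧ DCo (E ∪ W') f (fi c3))

lemma NV_congr (h : ∀ e ∈ K, (e ∈ W ↔ e ∈ W')) {u : ℤ × ℤ} : NV K W u ↔ NV K W' u := by
  constructor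
  · rintro ⟨x, y, h1, h2, h3⟩
    exact ⟨x, y, h1, h2, (h _ h2).1 h3⟩
  · rintro ⟨x, y, h1, h2, h3⟩
    exact ⟨x, y, h1, h2, (h _ h2).2 h3⟩

lemma NF_congr (h : ∀ e ∈ K, (e ∈ W ↔ e ∈ W')) {u : ℤ × ℤ} : NF K E W u ↔ NF K E W' u := by
  constructor
  · rintro ⟨x, y, h1, h2, h3⟩
    refine ⟨x, y, h1, h2, ?_⟩
    rw [mem_union, ← h _ h2, ← mem_union]; exact h3
  · rintro ⟨x, y, h1, h2, h3⟩
    refine ⟨x, y, h1, h2, ?_⟩
    rw [mem_union, h _ h2, ← mem_union]; exact h3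

lemma Cls.symm {c1 c3 : ℤ × ℤ} (H : Cls K E W W' c1 c3) : Cls K E W' W c1 c3 where
  l1 := H.l1
  p1 := H.p1
  l3 := H.l3
  p3 := H.p3
  ne := H.ne
  nb := H.nb
  agree := fun e he => (H.agree e he).symm
  hv := fun u h1 h2 => by
    rcases H.hv u ((NV_congr H.agree).2 h1) h2.symm with h3 | h3
    · exact Or.inl h3.symm
    · exact Or.inr h3.symm
  hf := fun u h1 h2 => by
    rcases H.hf u ((NF_congr H.agree).2 h1) h2.symm with h3 | h3
    · exact Or.inl h3.symm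
    · exact Or.inr h3.symm

/-- both environments have the same type -/
def SameTy (E W W' : Finset (ℤ × ℤ)) (c1 c3 : ℤ × ℤ) : Prop :=
  (DCo (E ∪ W) (fi c1) (fi c3) ∧ DCo (E ∪ W') (fi c1) (fi c3)) ∨ (Co W (vx c1) (vx c3) ∧ Co W' (vx c1) (vx c3))

lemma SameTy.symm {c1 c3 : ℤ × ℤ} (h : SameTy E W W' c1 c3) : SameTy E W' W c1 c3 := by
  rcases h with h | h
  · exact Or.inl h.symm
  · exact Or.inr h.symm

theorem Cls.tr {c1 c3 : ℤ × ℤ} (H : Cls K E W W' c1 c3) (hconn : TConn E)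
    (hodd : ∀ e ∈ E, (e.1 + e.2) % 2 = 1) (hd : Disjoint W E) (hT : SameTy E W W' c1 c3) : Tr E W W' := by
  have hEK : E ⊆ K := by
    intro e he
    obtain ⟨x, y, rfl⟩ := exists_lt (hodd e he)
    exact H.nb x y he x y (by omega) (by omega) (by omega) (by omega)
  have neg : ¬ (Co W (vx c1) (vx c3) ∧ DCo (E ∪ W) (fi c1) (fi c3)) := by
    rintro ⟨h1, h2⟩
    exact H.ne (entrance_unique hconn hodd hd H.l1 H.p1 H.l3 H.p3 h1 (by rw [union_comm]; exact h2))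
  have out : ∀ {c}, (lab c ∈ E ∨ plab c ∈ E) → ∀ V : Finset (ℤ × ℤ), ¬ FV K V (vx c) ∧ ¬ FF K V (fi c) := by
    intro c hc V
    constructor
    · rintro ⟨x, y, h1, h2, -⟩
      exact h2 (H.nb.corner hc (Or.inl h1))
    · rintro ⟨x, y, h1, h2, -⟩
      exact h2 (H.nb.corner hc (Or.inr h1))
  refine ⟨fun c c' hc hc' h => ?_, fun c c' hc hc' h => ?_⟩
  · refine co_tr' (fun e he => (H.agree e he).1) (fun u v hu hv fu fv h => ?_) (out hc W).1 (out hc' W).1 h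
    rcases H.hv u hu (Or.inl fu) with h1 | h1 <;> rcases H.hv v hv (Or.inl fv) with h2 | h2
    · exact h1.2.trans h2.2.symm
    · rcases hT with hT | hT
      · exact absurd ⟨(h1.1.symm.trans h).trans h2.1, hT.1⟩ neg
      · exact (h1.2.trans hT.2).trans h2.2.symm
    · rcases hT with hT | hT
      · exact absurd ⟨(h2.1.symm.trans h.symm).trans h1.1, hT.1⟩ neg
      · exact (h1.2.trans hT.2.symm).trans h2.2.symm
    · exact h1.2.trans h2.2.symm
  · refine dco_tr' (fun e he => (H.agree e he).2) hEK (fun u v hu hv fu fv h => ?_) (out hc W).2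
      (out hc' W).2 h
    rcases H.hf u hu (Or.inl fu) with h1 | h1 <;> rcases H.hf v hv (Or.inl fv) with h2 | h2
    · exact h1.2.trans h2.2.symm
    · rcases hT with hT | hT
      · exact (h1.2.trans hT.2).trans h2.2.symm
      · exact absurd ⟨hT.1, (h1.1.symm.trans h).trans h2.1⟩ neg
    · rcases hT with hT | hT
      · exact (h1.2.trans hT.2.symm).trans h2.2.symm
      · exact absurd ⟨hT.1, (h2.1.symm.trans h.symm).trans h1.1⟩ neg
    · exact h1.2.trans h2.2.symm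

/-- **Same type, general form.** `cs` is `c1` or `c3`. -/
theorem same_nat {c1 c3 cs : ℤ × ℤ} (H : Cls K E W W' c1 c3) (hconn : TConn E)
    (hT : SameTy E W W' c1 c3) {X Y : Env} (pX : PlaneEnv X W) (pY : PlaneEnv Y W') (eX : X.E = E)
    (eY : Y.E = E) (hcs : cs = c1 ∨ cs = c3)
    (x1 : Co W (vx X.c0) (vx cs)) (x2 : DCo (E ∪ W) (fi X.c0) (fi cs))
    (y1 : Co W' (vx Y.c0) (vx cs)) (y2 : DCo (E ∪ W') (fi Y.c0) (fi cs)) :
    ∃ κ : ℤ, ∀ c, (lab c ∈ E ∨ plab c ∈ E) → Y.inc c = ph κ * X.inc c := by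
  have hodd : ∀ e ∈ E, (e.1 + e.2) % 2 = 1 := by rw [← eX]; exact X.odd
  have hd : Disjoint W E := by rw [← eX]; exact pX.disj.symm
  have hd' : Disjoint W' E := by rw [← eY]; exact pY.disj.symm
  have hl : lab cs ∈ E ∧ plab cs ∉ E := by
    rcases hcs with rfl | rfl
    · exact ⟨H.l1, H.p1⟩
    · exact ⟨H.l3, H.p3⟩
  exact same_conn' hconn (H.tr hconn hodd hd hT) (H.symm.tr hconn hodd hd' hT.symm) pX pY eX eY
    hl.1 hl.2 x1 x2 y1 y2

end Pool.Agent.H33.Sp
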