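import Mathlib
import Pool.Agent.H5.FM.WinOf
import Pool.Agent.H33.Sp.Inst
import Pool.Agent.H33.Sp.Shift

set_option autoImplicit false
open Finset

/-! # Natural colours next to the sides of a coarse window

`nac C N x y` : the natural colour of the tile `(x, y)` in the world `p = false` of the window `C.win N`;
the notches have the colour of their side. Every tile next to a side has the colour of the side. -/

namespace Pool.Agent.H33.Sp

open Pool.Agent.H5.FM
open Pool.Agent.H46.Sp (Win mm MM)
open Pool.Agent.H74.Win (natc InP InB sh_false fillc)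

variable {C : CW} {N : ℤ} {h2 : 2 ≤ N} {he : N % 2 = 0} {x y q r : ℤ}

/-- left end of the union -/
def cm (C : CW) (N y : ℤ) : ℤ := if y + 1 < N * C.YP then C.wa N (y + 1) else C.wa N y

/-- right end of the union -/
def cM (C : CW) (N y : ℤ) : ℤ := if y < N * C.YQ then C.wb N (y + 1) else C.wb N y

/-- natural colours, notches included -/
def nac (C : CW) (N x y : ℤ) : Bool :=
  if (0 ≤ y ∧ y < N * C.H) ∧ C.wa N y ≤ x ∧ x < C.wb N y then
    if x < N * C.A (y / N) then C.CL (y / N) else C.CR (y / N)
  else if y < -1 then C.CB else if N * C.H ≤ y then C.CT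
  else if x < cm C N y then C.wcl N y else if cM C N y ≤ x then C.wcr N y
  else if y = -1 then C.CB else if x < C.wa N y then C.wcl N (y - 1) else C.wcr N (y - 1)

lemma natc_win : natc (C.win N h2 he) false x y = if y < -1 then C.CB else if N * C.H ≤ y then C.CT
    else if x < cm C N y then C.wcl N y else if cM C N y ≤ x then C.wcr N y
    else if y = -1 then C.CB else if x < C.wa N y then C.wcl N (y - 1) else C.wcr N (y - 1) := by
  unfold natc
  simp only [Bool.false_eq_true, if_false]
  rfl

lemma nac_out (h : ¬ InP (C.win N h2 he) false x y) : nac C N x y = natc (C.win N h2 he) false x y := by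
  rw [natc_win]
  unfold nac
  rw [if_neg]
  intro h3
  apply h
  unfold InP
  rw [sh_false, add_zero]
  exact ⟨h3.1.1, h3.1.2, h3.2.1, h3.2.2⟩

/-! ### Columns of the union -/

lemma cm_lo (h : y + 1 < N * C.YP) : cm C N y = C.wa N (y + 1) := if_pos h
lemma cm_hi (h : ¬ y + 1 < N * C.YP) : cm C N y = C.wa N y := if_neg h
lemma cM_lo (h : y < N * C.YQ) : cM C N y = C.wb N (y + 1) := if_pos h
lemma cM_hi (h : ¬ y < N * C.YQ) : cM C N y = C.wb N y := if_neg h

section

variable (h4 : 4 ≤ N)

include h4

lemma row_nn (q0 : 0 ≤ q) (r0 : 0 ≤ r) : 0 ≤ N * q + r := add_nonneg (mul_nonneg (by omega) q0) r0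

/-- **Left sides.** -/
lemma nac_L (q0 : 0 ≤ q) (q1 : q < C.H) (r0 : 0 ≤ r) (r1 : r < N) :
    nac C N (N * C.A q - 1) (N * q + r) = C.CL q := by
  have k0 := row_nn h4 q0 r0
  have k1 := (qr_lt r0 r1).2 q1
  have b1 := CW.dA_01 (C := C) (N := N) (q := q) (r := r)
  have b2 := CW.dB_01 (C := C) (N := N) (q := q) (r := r)
  have hab := mul_gap (by omega : 0 < N) (C.ab q q0 q1)
  unfold nac
  rw [CW.wa_qr r0 r1, CW.wb_qr r0 r1, qr_div r0 r1]
  by_cases hd : C.dA N q r = 1
  · rw [if_pos ⟨⟨k0, k1⟩, by omega, by omega⟩, if_pos (by omega)]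
  · rw [if_neg (by omega), if_neg (by omega), if_neg (by omega)]
    by_cases c1 : N * q + r + 1 < N * C.YP
    · have g1 : q < C.YP := (qr_lt r0 r1).1 (by omega)
      rw [cm_lo c1, CW.wcl_lo c1]
      by_cases hr : r + 1 < N
      · rw [CW.wa_r1 r0 hr, show N * q + r + 1 = N * q + (r + 1) by ring, qr_div (by omega) hr]
        by_cases c2 : N * C.A q - 1 < N * C.A q - C.dA N q (r + 1)
        · rw [if_pos c2]
        · have c3 : cM C N (N * q + r) > N * C.A q - 1 := by
            unfold cM
            split_ifs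
            · rw [CW.wb_r1 r0 hr]
              have := CW.dB_01 (C := C) (N := N) (q := q) (r := r + 1)
              omega
            · rw [CW.wb_qr r0 r1]; omega
          rw [if_neg c2, if_neg (by omega), if_neg (by omega), if_pos (by omega), CW.wcl_lo (by omega),
            sub_add_cancel, qr_div r0 r1]
      · obtain rfl : r = N - 1 := by omega
        have g2 : q + 1 < C.YP := (qr_lt (z := C.YP) (q := q + 1) (r := 0) (N := N) le_rfl (by omega)).1
          (by rw [add_zero, mul_add, mul_one]; omega)
        have g3 := C.P1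
        rw [CW.wa_q1 (by omega), CW.dA_lo g2 (by omega), show N * q + (N - 1) + 1 = N * (q + 1) + 0 by ring,
          qr_div le_rfl (by omega)]
        by_cases c2 : N * C.A q - 1 < N * C.A (q + 1) - 0
        · rw [if_pos c2]
          have g4 := C.aL q q0 g2
          rcases eq_or_lt_of_le g4 with e | e
          · exact (C.cl q q0 (by omega) e.symm).symm
          · have := mul_gap (by omega : 0 < N) e
            omega
        · have c3 : cM C N (N * q + (N - 1)) > N * C.A q - 1 := by
            unfold cM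
            split_ifs with c4
            · rw [CW.wb_q1 (by omega)]
              have := CW.dB_01 (C := C) (N := N) (q := q + 1) (r := 0)
              have := mul_gap (by omega : 0 < N) (C.ov1 q q0 (by omega))
              omega
            · rw [CW.wb_qr r0 r1]; omega
          rw [if_neg c2, if_neg (by omega), if_neg (by omega), if_pos (by omega), CW.wcl_lo (by omega),
            sub_add_cancel, qr_div r0 r1]
    · rw [cm_hi c1, CW.wa_qr r0 r1, if_pos (by omega), CW.wcl_hi c1, qr_div r0 r1]

/-- **Right sides.** -/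
lemma nac_R (q0 : 0 ≤ q) (q1 : q < C.H) (r0 : 0 ≤ r) (r1 : r < N) :
    nac C N (N * C.B q) (N * q + r) = C.CR q := by
  have k0 := row_nn h4 q0 r0
  have k1 := (qr_lt r0 r1).2 q1
  have b1 := CW.dA_01 (C := C) (N := N) (q := q) (r := r)
  have b2 := CW.dB_01 (C := C) (N := N) (q := q) (r := r)
  have hab := mul_gap (by omega : 0 < N) (C.ab q q0 q1)
  unfold nac
  rw [CW.wa_qr r0 r1, CW.wb_qr r0 r1, qr_div r0 r1]
  by_cases hd : C.dB N q r = 1
  · rw [if_pos ⟨⟨k0, k1⟩, by omega, by omega⟩, if_neg (by omega)]
  · have c3 : cm C N (N * q + r) ≤ N * C.B q := by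
      unfold cm
      split_ifs with c4
      · by_cases hr : r + 1 < N
        · rw [CW.wa_r1 r0 hr]
          have := CW.dA_01 (C := C) (N := N) (q := q) (r := r + 1)
          omega
        · obtain rfl : r = N - 1 := by omega
          have g2 : q + 1 < C.YP := (qr_lt (z := C.YP) (q := q + 1) (r := 0) (N := N) le_rfl (by omega)).1
            (by rw [add_zero, mul_add, mul_one]; omega)
          have g3 := C.P1
          rw [CW.wa_q1 (by omega)]
          have := CW.dA_01 (C := C) (N := N) (q := q + 1) (r := 0)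
          have := mul_gap (by omega : 0 < N) (C.ov2 q q0 (by omega))
          omega
      · rw [CW.wa_qr r0 r1]; omega
    rw [if_neg (by omega), if_neg (by omega), if_neg (by omega), if_neg (by omega)]
    by_cases c1 : N * q + r < N * C.YQ
    · have g1 : q < C.YQ := (qr_lt r0 r1).1 c1
      rw [cM_lo c1, CW.wcr_lo c1]
      by_cases hr : r + 1 < N
      · rw [CW.wb_r1 r0 hr, show N * q + r + 1 = N * q + (r + 1) by ring, qr_div (by omega) hr]
        by_cases c2 : N * C.B q + C.dB N q (r + 1) ≤ N * C.B q
        · rw [if_pos c2]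
        · rw [if_neg c2, if_neg (by omega), if_neg (by omega), CW.wcr_lo (by omega), sub_add_cancel,
            qr_div r0 r1]
      · obtain rfl : r = N - 1 := by omega
        have g4 : q + 1 ≤ C.YQ := by omega
        have g3 := C.Q1
        rw [CW.wb_q1 (by omega), CW.dB_lo g4 (by omega), show N * q + (N - 1) + 1 = N * (q + 1) + 0 by ring,
          qr_div le_rfl (by omega)]
        by_cases c2 : N * C.B (q + 1) + 0 ≤ N * C.B q
        · rw [if_pos c2]
          rcases eq_or_lt_of_le (C.bL q q0 g4) with e | e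
          · exact (C.cr q q0 (by omega) e).symm
          · have := mul_gap (by omega : 0 < N) e
            omega
        · rw [if_neg c2, if_neg (by omega), if_neg (by omega), CW.wcr_lo (by omega), sub_add_cancel,
            qr_div r0 r1]
    · rw [cM_hi c1, CW.wb_qr r0 r1, if_pos (by omega), CW.wcr_hi c1, qr_div r0 r1]

/-! ### Bottom and bottom ledges -/

/-- **The bottom side.** -/
lemma nac_B (hx : N * C.A 0 ≤ x) (hx' : x < N * C.B 0) : nac C N x (-1) = C.CB := by
  have hP := C.P0
  have hQ := C.Q0
  have kP := mul_gap (by omega : 0 < N) hP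
  rw [mul_zero] at kP
  have b1 : C.dA N 0 0 = 0 := CW.dA_lo hP (by omega)
  have b2 : C.dB N 0 0 = 0 := CW.dB_lo hQ (by omega)
  have e1 : C.wa N 0 = N * C.A 0 := by
    have := CW.wa_q0 (C := C) (N := N) (q := 0) (by omega)
    rwa [mul_zero, b1, sub_zero] at this
  have e2 : C.wb N 0 = N * C.B 0 := by
    have := CW.wb_q0 (C := C) (N := N) (q := 0) (by omega)
    rwa [mul_zero, b2, add_zero] at this
  have kH := mul_gap (by omega : 0 < N) C.H0
  rw [mul_zero] at kH
  have kQ := mul_mon (by omega : 0 < N) hQ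
  rw [mul_zero] at kQ
  unfold nac
  rw [if_neg (by omega), if_neg (by omega), if_neg (by omega), cm_lo (by omega), cM_lo (by omega),
    show (-1 : ℤ) + 1 = 0 by norm_num, e1, e2, if_neg (by omega), if_neg (by omega), if_pos rfl]

/-- **Bottom ledges on the left.** -/
lemma nac_BL (q0 : 0 ≤ q) (q1 : q + 1 < C.H) (hx : N * C.A (q + 1) ≤ x) (hx' : x < N * C.A q) :
    nac C N x (N * (q + 1) - 1) = C.CL q := by
  have hA : C.A (q + 1) < C.A q := by
    by_contra h
    have := mul_mon (by omega : 0 < N) (show C.A q ≤ C.A (q + 1) by omega)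
    omega
  have hP : q + 1 < C.YP := by
    by_contra h
    rcases eq_or_lt_of_le (show C.YP ≤ q + 1 by omega) with e | e
    · have := C.aP (by omega)
      rw [e, add_sub_cancel_right] at this
      omega
    · have := C.aU q (by omega) q1
      omega
  have r1 : N - 1 < N := by omega
  have r0 : 0 ≤ N - 1 := by omega
  have ey : N * (q + 1) - 1 = N * q + (N - 1) := by ring
  have k0 := row_nn (N := N) h4 q0 r0
  have k1 := (qr_lt (N := N) (z := C.H) (q := q) r0 r1).2 (by omega)
  have k2 := (qr_lt (N := N) (z := C.YP) (q := q + 1) (r := 0) le_rfl (by omega)).2 hP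
  have b1 := CW.dA_01 (C := C) (N := N) (q := q) (r := N - 1)
  have b2 := CW.dB_01 (C := C) (N := N) (q := q) (r := N - 1)
  have hab := mul_gap (by omega : 0 < N) (C.ab q q0 (by omega))
  have hov := mul_gap (by omega : 0 < N) (C.ov1 q q0 q1)
  rw [ey]
  have e3 : N * (q + 1) + 0 = N * q + (N - 1) + 1 := by ring
  unfold nac
  rw [CW.wa_qr r0 r1, CW.wb_qr r0 r1, qr_div r0 r1]
  by_cases hd : N * C.A q - C.dA N q (N - 1) ≤ x
  · rw [if_pos ⟨⟨k0, k1⟩, by omega, by omega⟩, if_pos (by omega)]
  · rw [if_neg (by omega), if_neg (by omega), if_neg (by omega), cm_lo (by omega), CW.wa_q1 (by omega),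
      CW.dA_lo hP (by omega), if_neg (by omega), if_neg, if_neg (by omega), if_pos (by omega),
      CW.wcl_lo (by omega), sub_add_cancel, qr_div r0 r1]
    unfold cM
    split_ifs
    · rw [CW.wb_q1 (by omega)]
      have := CW.dB_01 (C := C) (N := N) (q := q + 1) (r := 0)
      omega
    · rw [CW.wb_qr r0 r1]; omega

/-- **Bottom ledges on the right.** -/
lemma nac_BR (q0 : 0 ≤ q) (q1 : q + 1 < C.H) (hx : N * C.B q ≤ x) (hx' : x < N * C.B (q + 1)) :
    nac C N x (N * (q + 1) - 1) = C.CR q := by
  have hB : C.B q < C.B (q + 1) := by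
    by_contra h
    have := mul_mon (by omega : 0 < N) (show C.B (q + 1) ≤ C.B q by omega)
    omega
  have hQ : q + 1 ≤ C.YQ := by
    by_contra h
    have := C.bU q (by omega) q1
    omega
  have r1 : N - 1 < N := by omega
  have r0 : 0 ≤ N - 1 := by omega
  have ey : N * (q + 1) - 1 = N * q + (N - 1) := by ring
  have k0 := row_nn (N := N) h4 q0 r0
  have k1 := (qr_lt (N := N) (z := C.H) (q := q) r0 r1).2 (by omega)
  have k2 := (qr_lt (N := N) (z := C.YQ) (q := q) r0 r1).2 (by omega)
  have b1 := CW.dA_01 (C := C) (N := N) (q := q) (r := N - 1)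
  have b2 := CW.dB_01 (C := C) (N := N) (q := q) (r := N - 1)
  have hab := mul_gap (by omega : 0 < N) (C.ab q q0 (by omega))
  have hov := mul_gap (by omega : 0 < N) (C.ov2 q q0 q1)
  rw [ey]
  unfold nac
  rw [CW.wa_qr r0 r1, CW.wb_qr r0 r1, qr_div r0 r1]
  by_cases hd : x < N * C.B q + C.dB N q (N - 1)
  · rw [if_pos ⟨⟨k0, k1⟩, by omega, by omega⟩, if_neg (by omega)]
  · rw [if_neg (by omega), if_neg (by omega), if_neg (by omega), if_neg, cM_lo k2, CW.wb_q1 (by omega),
      CW.dB_lo hQ (by omega), if_neg (by omega), if_neg (by omega), if_neg (by omega),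
      CW.wcr_lo (by omega), sub_add_cancel, qr_div r0 r1]
    unfold cm
    split_ifs
    · rw [CW.wa_q1 (by omega)]
      have := CW.dA_01 (C := C) (N := N) (q := q + 1) (r := 0)
      omega
    · rw [CW.wa_qr r0 r1]; omega

/-! ### Top and top ledges -/

omit h4 in
/-- **The top side.** -/
lemma nac_T (h : N * C.H ≤ y) (h0 : 0 ≤ N * C.H) : nac C N x y = C.CT := by
  unfold nac
  rw [if_neg (by omega), if_neg (by omega), if_pos h]

/-- **Top ledges on the left.** -/
lemma nac_TL (q0 : 0 ≤ q) (q1 : q + 1 < C.H) (hA : C.A q < C.A (q + 1))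
    (hx' : x < N * C.A (q + 1)) : nac C N x (N * (q + 1)) = C.CL (q + 1) := by
  have hP : C.YP ≤ q + 1 := by
    by_contra h
    have := C.aL q q0 (by omega)
    omega
  have k0 := row_nn (N := N) (q := q + 1) (r := 0) h4 (by omega) le_rfl
  have k1 := (qr_lt (N := N) (z := C.H) (q := q + 1) (r := 0) le_rfl (by omega)).2 q1
  have k2 := mul_mon (by omega : 0 < N) hP
  have b1 := CW.dA_01 (C := C) (N := N) (q := q + 1) (r := 0)
  have b2 := CW.dB_01 (C := C) (N := N) (q := q + 1) (r := 0)
  have hab := mul_gap (by omega : 0 < N) (C.ab (q + 1) (by omega) q1)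
  have e := qr_div (N := N) (q := q + 1) (r := 0) le_rfl (by omega)
  rw [add_zero] at e k0 k1
  unfold nac
  rw [CW.wa_q0 (by omega), CW.wb_q0 (by omega), e]
  by_cases hd : N * C.A (q + 1) - C.dA N (q + 1) 0 ≤ x
  · rw [if_pos ⟨⟨k0, k1⟩, by omega, by omega⟩, if_pos (by omega)]
  · rw [if_neg (by omega), if_neg (by omega), if_neg (by omega), cm_hi (by omega), CW.wa_q0 (by omega),
      if_pos (by omega), CW.wcl_hi (by omega), e]

/-- **Top ledges on the right.** -/
lemma nac_TR (q0 : 0 ≤ q) (q1 : q + 1 < C.H) (hx : N * C.B (q + 1) ≤ x) (hB : C.B (q + 1) < C.B q) :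
    nac C N x (N * (q + 1)) = C.CR (q + 1) := by
  have hQ : C.YQ ≤ q := by
    by_contra h
    have := C.bL q q0 (by omega)
    omega
  have k0 := row_nn (N := N) (q := q + 1) (r := 0) h4 (by omega) le_rfl
  have k1 := (qr_lt (N := N) (z := C.H) (q := q + 1) (r := 0) le_rfl (by omega)).2 q1
  have k2 := mul_mon (by omega : 0 < N) (show C.YQ ≤ q + 1 by omega)
  have b1 := CW.dA_01 (C := C) (N := N) (q := q + 1) (r := 0)
  have b2 := CW.dB_01 (C := C) (N := N) (q := q + 1) (r := 0)
  have hab := mul_gap (by omega : 0 < N) (C.ab (q + 1) (by omega) q1)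
  have e := qr_div (N := N) (q := q + 1) (r := 0) le_rfl (by omega)
  rw [add_zero] at e k0 k1
  unfold nac
  rw [CW.wa_q0 (by omega), CW.wb_q0 (by omega), e]
  by_cases hd : x < N * C.B (q + 1) + C.dB N (q + 1) 0
  · rw [if_pos ⟨⟨k0, k1⟩, by omega, by omega⟩, if_neg (by omega)]
  · rw [if_neg (by omega), if_neg (by omega), if_neg (by omega), if_neg, cM_hi (by omega),
      CW.wb_q0 (by omega), if_pos (by omega), CW.wcr_hi (by omega), e]
    unfold cm
    split_ifs with c4
    · have g2 : q + 1 < C.YP := by
        by_contra h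
        have := mul_mon (by omega : 0 < N) (show C.YP ≤ q + 1 by omega)
        omega
      have := CW.wa_qr (C := C) (N := N) (q := q + 1) (r := 1) (by norm_num) (by omega)
      rw [this]
      have := CW.dA_01 (C := C) (N := N) (q := q + 1) (r := 1)
      omega
    · rw [CW.wa_q0 (by omega)]; omega

/-! ### Tiles at convex corners -/

/-- bottom left corner of a row -/
lemma nac_cBL (q0 : 0 ≤ q) (q1 : q < C.H) (hA : 0 < q → C.A q < C.A (q - 1)) :
    nac C N (N * C.A q - 1) (N * q - 1) = C.CL q := by
  have hP : q < C.YP := by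
    rcases eq_or_lt_of_le q0 with e | e
    · have := C.P0; omega
    · by_contra h
      have g := hA e
      rcases eq_or_lt_of_le (show C.YP ≤ q by omega) with e | e
      · have := C.aP (by omega)
        rw [e] at this
        omega
      · have := C.aU (q - 1) (by omega) (by omega)
        rw [sub_add_cancel] at this
        omega
  have k2 := (qr_lt (N := N) (z := C.YP) (q := q) (r := 0) le_rfl (by omega)).2 hP
  have k3 := mul_mon (by omega : 0 < N) q0
  have k4 := (qr_lt (N := N) (z := C.H) (q := q) (r := 0) le_rfl (by omega)).2 q1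
  have e := qr_div (N := N) (q := q) (r := 0) le_rfl (by omega)
  rw [mul_zero] at k3
  rw [add_zero] at k2 k4 e
  have e1 : cm C N (N * q - 1) = N * C.A q := by
    rw [cm_lo (by omega), sub_add_cancel, CW.wa_q0 (by omega), CW.dA_lo hP (by omega), sub_zero]
  unfold nac
  rw [if_neg, if_neg (by omega), if_neg (by omega), e1, if_pos (by omega), CW.wcl_lo (by omega),
    sub_add_cancel, e]
  rintro ⟨⟨g1, -⟩, g2, -⟩
  have hq : 0 < q := by
    by_contra h
    have := mul_mon (by omega : 0 < N) (show q ≤ 0 by omega)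
    rw [mul_zero] at this
    omega
  have g3 := hA hq
  have b1 := CW.dA_01 (C := C) (N := N) (q := q - 1) (r := N - 1)
  rw [show N * q - 1 = N * (q - 1) + (N - 1) by ring, CW.wa_qr (by omega) (by omega)] at g2
  have := mul_gap (by omega : 0 < N) g3
  omega

/-- bottom right corner of a row -/
lemma nac_cBR (q0 : 0 ≤ q) (q1 : q < C.H) (hB : 0 < q → C.B (q - 1) < C.B q) :
    nac C N (N * C.B q) (N * q - 1) = C.CR q := by
  have hQ : q ≤ C.YQ := by
    rcases eq_or_lt_of_le q0 with e | e
    · have := C.Q0; omega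
    · by_contra h
      have g := hB e
      have := C.bU (q - 1) (by omega) (by omega)
      rw [sub_add_cancel] at this
      omega
  have k2 := mul_mon (by omega : 0 < N) hQ
  have k3 := mul_mon (by omega : 0 < N) q0
  have k4 := (qr_lt (N := N) (z := C.H) (q := q) (r := 0) le_rfl (by omega)).2 q1
  have e := qr_div (N := N) (q := q) (r := 0) le_rfl (by omega)
  rw [mul_zero] at k3
  rw [add_zero] at k4 e
  have hab := mul_gap (by omega : 0 < N) (C.ab q q0 q1)
  have e1 : cM C N (N * q - 1) = N * C.B q := by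
    rw [cM_lo (by omega), sub_add_cancel, CW.wb_q0 (by omega), CW.dB_lo hQ (by omega), add_zero]
  have e2 : cm C N (N * q - 1) ≤ N * C.B q := by
    unfold cm
    split_ifs with c4
    · rw [sub_add_cancel, CW.wa_q0 (by omega)]
      have := CW.dA_01 (C := C) (N := N) (q := q) (r := 0)
      omega
    · have hq : 0 < q := by
        by_contra h
        have h1 : q = 0 := by omega
        have := mul_gap (by omega : 0 < N) C.P0
        rw [h1] at c4
        omega
      rw [show N * q - 1 = N * (q - 1) + (N - 1) by ring, CW.wa_qr (by omega) (by omega)]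
      have b1 := CW.dA_01 (C := C) (N := N) (q := q - 1) (r := N - 1)
      have h5 := C.ov1 (q - 1) (by omega) (by omega)
      rw [sub_add_cancel] at h5
      have := mul_gap (by omega : 0 < N) h5
      omega
  unfold nac
  rw [if_neg, if_neg (by omega), if_neg (by omega), if_neg (by omega), e1, if_pos le_rfl,
    CW.wcr_lo (by omega), sub_add_cancel, e]
  rintro ⟨⟨g1, -⟩, -, g2⟩
  have hq : 0 < q := by
    by_contra h
    have := mul_mon (by omega : 0 < N) (show q ≤ 0 by omega)
    rw [mul_zero] at this
    omega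
  have g3 := hB hq
  have b1 := CW.dB_01 (C := C) (N := N) (q := q - 1) (r := N - 1)
  rw [show N * q - 1 = N * (q - 1) + (N - 1) by ring, CW.wb_qr (by omega) (by omega)] at g2
  have := mul_gap (by omega : 0 < N) g3
  omega

/-! ### The middle rows -/

/-- **The row `N q + 1`.** -/
lemma nac_row (q0 : 0 ≤ q) (q1 : q < C.H) : (∀ x, x < N * C.A q → nac C N x (N * q + 1) = C.CL q) ∧
    (∀ x, N * C.B q ≤ x → nac C N x (N * q + 1) = C.CR q) := by
  have r1 : (1 : ℤ) < N := by omega
  have r0 : (0 : ℤ) ≤ 1 := by norm_num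
  have k0 := row_nn (N := N) (q := q) (r := 1) h4 q0 r0
  have k1 := (qr_lt (N := N) (z := C.H) (q := q) (r := 1) r0 r1).2 q1
  have e1 : C.wa N (N * q + 1) = N * C.A q := by
    rw [CW.wa_qr r0 r1]
    by_cases h : q < C.YP
    · rw [CW.dA_lo h (by omega), sub_zero]
    · rw [CW.dA_hi (by omega) (by omega), sub_zero]
  have e2 : C.wb N (N * q + 1) = N * C.B q := by
    rw [CW.wb_qr r0 r1]
    by_cases h : q < C.YQ
    · rw [CW.dB_lo h.le (by omega), add_zero]
    · rw [CW.dB_hi (by omega) (by omega), add_zero]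
  have e1' : q < C.YP → C.wa N (N * q + 1 + 1) = N * C.A q := by
    intro h
    rw [show N * q + 1 + 1 = N * q + 2 by ring, CW.wa_qr (by norm_num) (by omega),
      CW.dA_lo h (by omega), sub_zero]
  have e2' : q ≤ C.YQ → C.wb N (N * q + 1 + 1) = N * C.B q := by
    intro h
    rw [show N * q + 1 + 1 = N * q + 2 by ring, CW.wb_qr (by norm_num) (by omega),
      CW.dB_lo h (by omega), add_zero]
  have d1 := qr_div (N := N) (q := q) r0 r1
  have d2 : (N * q + 1 + 1) / N = q := by
    rw [show N * q + 1 + 1 = N * q + 2 by ring, qr_div (by norm_num) (by omega)]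
  have hab := mul_gap (by omega : 0 < N) (C.ab q q0 q1)
  have em : cm C N (N * q + 1) = N * C.A q := by
    unfold cm
    split_ifs with c
    · exact e1' ((qr_lt (N := N) (q := q) (r := 2) (by norm_num) (by omega)).1 (by omega))
    · exact e1
  have eM : cM C N (N * q + 1) = N * C.B q := by
    unfold cM
    split_ifs with c
    · exact e2' ((qr_lt (N := N) (q := q) (r := 1) (by norm_num) (by omega)).1 c).le
    · exact e2
  have hl : C.wcl N (N * q + 1) = C.CL q := by
    unfold CW.wcl
    split_ifs
    · rw [d2]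
    · rw [d1]
  have hr : C.wcr N (N * q + 1) = C.CR q := by
    unfold CW.wcr
    split_ifs
    · rw [d2]
    · rw [d1]
  refine ⟨fun x hx => ?_, fun x hx => ?_⟩
  · unfold nac
    rw [e1, if_neg (by omega), if_neg (by omega), if_neg (by omega), em, if_pos hx, hl]
  · unfold nac
    rw [e1, e2, if_neg (by omega), if_neg (by omega), if_neg (by omega), em, if_neg (by omega), eM,
      if_pos hx, hr]

end

end Pool.Agent.H33.Sp
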