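import Mathlib
import Pool.Agent.H33.Sp.Nac
import Pool.Agent.H33.FM.SameType

set_option autoImplicit false
open Finset

/-! # The natural labels of a shape in the frame of its window -/

namespace Pool.Agent.H33.Sp

open Pool.Agent.H75.Perc hiding ph cc EE
open Pool.Agent.H75.TwoArm Pool.Agent.Q1 Pool.Agent.H33.Q1
open Pool.Agent.H69.Q1
open Pool.Agent.Q1.M4 (Cell Good IsSide nextSide isSide_next PType Adj4 Conn4)
open Pool.Agent.H21.FM (Shape Wir)
open Pool.Agent.H5.FM
open Pool.Agent.H46.Sp (Win mm MM)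
open Pool.Agent.H74.Win (natc InP InB sh_false fillc TB mem_TB odd_TB OutB GB)

/-- the tiles of the layer along a side -/
lemma ly_cases {N : ℤ} (hN : 0 < N) {X Y k x y : ℤ} (h : lt (x, y) ∈ LY N ((X, Y), k)) :
    (k % 4 = 0 ∧ N * X ≤ x ∧ x < N * X + N ∧ y = N * Y - 1) ∨
    (k % 4 = 1 ∧ x = N * X + N ∧ N * Y ≤ y ∧ y < N * Y + N) ∨
    (k % 4 = 2 ∧ N * X ≤ x ∧ x < N * X + N ∧ y = N * Y + N) ∨
    (k % 4 = 3 ∧ x = N * X - 1 ∧ N * Y ≤ y ∧ y < N * Y + N) := by
  obtain ⟨-, h1, h2⟩ := (mem_LY hN).1 h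
  rw [tt_lt, ct_eq hN] at h1 h2
  simp only at h1 h2
  rcases (by omega : k % 4 = 0 ∨ k % 4 = 1 ∨ k % 4 = 2 ∨ k % 4 = 3) with hk | hk | hk | hk
  · rw [(dir0 hk).2] at h1 h2
    simp only [Prod.fst_add, Prod.snd_add, Prod.fst_sub, Prod.snd_sub] at h1 h2
    rw [add_zero, mul_comm, add_mul, mul_comm Y] at h1
    rw [mul_comm X, mul_comm Y] at h2
    left
    omega
  · rw [(dir1 hk).2] at h1 h2
    simp only [Prod.fst_add, Prod.snd_add, Prod.fst_sub, Prod.snd_sub] at h1 h2
    rw [add_zero, add_mul, mul_comm X, mul_comm Y] at h1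
    rw [mul_comm X, mul_comm Y] at h2
    right; left
    omega
  · rw [(dir2 hk).2] at h1 h2
    simp only [Prod.fst_add, Prod.snd_add, Prod.fst_sub, Prod.snd_sub] at h1 h2
    rw [add_zero, add_mul, mul_comm X, mul_comm Y] at h1
    rw [mul_comm X, mul_comm Y] at h2
    right; right; left
    omega
  · rw [(dir3 hk).2] at h1 h2
    simp only [Prod.fst_add, Prod.snd_add, Prod.fst_sub, Prod.snd_sub] at h1 h2
    rw [add_zero, add_mul, mul_comm X, mul_comm Y] at h1
    rw [mul_comm X, mul_comm Y] at h2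
    right; right; right
    omega

section

variable {S : Shape} {y0 y1 : ℤ} {a b : ℤ → ℤ} {yP yQ : ℤ} (F : RowF S.P.Q y0 y1 a b yP yQ)
  {n : ℕ} {x y X Y : ℤ} {i : ℕ}

/-- the coarse position of a side in the frame of the window -/
lemma frame_eq (N Y y0 : ℤ) : N * (Y - y0) + N * y0 = N * Y := by ring

include F in
/-- **The natural colour next to a side is the colour of the side.** -/
theorem nac_side (hn : 2 ≤ n) (hi : i < S.N) (h : lt (x, y + 2 * n * y0) ∈ LY (2 * n) (S.P.side i)) :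
    nac (cwOf F) (2 * n) x y = wc S i := by
  have hN : (0 : ℤ) < 2 * n := by omega
  have h4 : (4 : ℤ) ≤ 2 * n := by omega
  have hs := isSide_side (S := S) i
  have hix := ix_side (S := S) hi
  rcases hp : S.P.side i with ⟨⟨X, Y⟩, k⟩
  rw [hp] at hs hix h
  have h01 := F.y01
  have hQ : (X, Y) ∈ S.P.Q := hs.1
  have hQ' := (F.mem X Y).1 hQ
  obtain ⟨Y', rfl⟩ : ∃ Y', Y = Y' + y0 := ⟨Y - y0, by ring⟩
  have hY : 0 ≤ Y' := by omega
  have hY1 : Y' < y1 - y0 := by omega
  have fr : 2 * (n : ℤ) * (Y' + y0) = 2 * n * Y' + 2 * n * y0 := by ring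
  have frA : (cwOf F).A Y' = a (Y' + y0) := rfl
  have frB : (cwOf F).B Y' = b (Y' + y0) := rfl
  have frH : (cwOf F).H = y1 - y0 := rfl
  have gA := mul_mon hN (show (cwOf F).A Y' ≤ X by rw [frA]; exact hQ'.2.1)
  have gB := mul_gap hN (show X < (cwOf F).B Y' by rw [frB]; exact hQ'.2.2)
  rcases ly_cases hN h with ⟨hk, h1, h2, h3⟩ | ⟨hk, h1, h2, h3⟩ | ⟨hk, h1, h2, h3⟩ | ⟨hk, h1, h2, h3⟩
  · -- bottom sides
    have e0 : ix S ((X, Y' + y0), 0) = i := by rw [← hix]; exact (ix_congr (by omega)).symm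
    have hs0 : IsSide S.P.Q ((X, Y' + y0), 0) := (isSide_congr (by omega)).1 hs
    have h5 := ((isSide0 hk).1 hs).2
    rw [F.mem] at h5
    rcases eq_or_lt_of_le hY with e | e
    · subst e
      rw [zero_add] at hs0 e0 hQ
      have hy : y = -1 := by rw [mul_add, mul_zero] at h3; omega
      rw [hy, nac_B h4 (by omega) (by omega), ← e0]
      show wc S (ix S ((a y0, y0), 0)) = _
      exact (wc_arc (ix_spec hs0).1 (ix_spec F.side_B).1 (F.arc_bot_0 hQ)).symm
    · obtain ⟨q, rfl⟩ : ∃ q, Y' = q + 1 := ⟨Y' - 1, by ring⟩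
      have eY : q + 1 + y0 - 1 = q + y0 := by ring
      have frA' : (cwOf F).A q = a (q + y0) := rfl
      have frB' : (cwOf F).B q = b (q + y0) := rfl
      rw [eY] at h5
      have hy : y = 2 * n * (q + 1) - 1 := by omega
      by_cases hX : X < a (q + y0)
      · have g1 := mul_gap hN (show X < (cwOf F).A q by rw [frA']; exact hX)
        rw [hy, nac_BL h4 (by omega) (by omega) (by omega) (by omega), ← e0]
        have := F.arc_bot_l (X := X) (Y := q + 1 + y0) (by omega) hQ (by rw [eY]; exact hX)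
        rw [eY] at this
        exact (wc_arc (ix_spec hs0).1 (ix_spec (F.side_L (by omega) (by omega))).1 this).symm
      · have hX' : b (q + y0) ≤ X := by
          omega
        have g1 := mul_mon hN (show (cwOf F).B q ≤ X by rw [frB']; exact hX')
        rw [hy, nac_BR h4 (by omega) (by omega) (by omega) (by omega), ← e0]
        have := F.arc_bot_r (X := X) (Y := q + 1 + y0) (by omega) hQ (by rw [eY]; exact hX')
        rw [eY] at this
        exact (wc_arc (ix_spec hs0).1 (ix_spec (F.side_R (by omega) (by omega))).1 this).symm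
  · -- right sides
    have e0 : ix S ((X, Y' + y0), 1) = i := by rw [← hix]; exact (ix_congr (by omega)).symm
    have h5 := ((isSide1 hk).1 hs).2
    rw [F.mem] at h5
    have hX : X = b (Y' + y0) - 1 := by omega
    have ex : x = 2 * n * (cwOf F).B Y' := by rw [frB, h1, hX]; ring
    have := nac_R (C := cwOf F) (N := 2 * n) (q := Y') (r := y - 2 * n * Y') h4 hY hY1 (by omega)
      (by omega)
    rw [← ex, show 2 * (n : ℤ) * Y' + (y - 2 * n * Y') = y by ring] at this
    rw [this, ← e0, hX]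
    rfl
  · -- top sides
    have e0 : ix S ((X, Y' + y0), 2) = i := by rw [← hix]; exact (ix_congr (by omega)).symm
    have hs0 : IsSide S.P.Q ((X, Y' + y0), 2) := (isSide_congr (by omega)).1 hs
    have h5 := ((isSide2 hk).1 hs).2
    rw [F.mem] at h5
    have hy : y = 2 * n * (Y' + 1) := by rw [mul_add, mul_one]; omega
    rcases eq_or_lt_of_le (show Y' + 1 ≤ y1 - y0 by omega) with e | e
    · obtain rfl : y1 = Y' + 1 + y0 := by omega
      have g1 := mul_mon hN (show 0 ≤ (cwOf F).H by rw [frH]; omega)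
      rw [mul_zero] at g1
      rw [nac_T (by rw [hy, frH, show Y' + 1 + y0 - y0 = Y' + 1 by ring]) g1, ← e0]
      have eY : Y' + 1 + y0 - 1 = Y' + y0 := by ring
      have := F.arc_top_0 (X := X) (by rw [eY]; exact hQ)
      rw [eY] at this
      have h6 := F.side_T
      rw [eY] at h6
      show wc S (ix S ((b (Y' + 1 + y0 - 1) - 1, Y' + 1 + y0 - 1), 2)) = _
      rw [eY]
      exact (wc_arc (ix_spec hs0).1 (ix_spec h6).1 this).symm
    · have eY : Y' + y0 + 1 = Y' + 1 + y0 := by ring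
      have frA' : (cwOf F).A (Y' + 1) = a (Y' + 1 + y0) := rfl
      have frB' : (cwOf F).B (Y' + 1) = b (Y' + 1 + y0) := rfl
      rw [eY] at h5
      rw [hy]
      by_cases hX : X < a (Y' + 1 + y0)
      · have g1 := mul_gap hN (show X < (cwOf F).A (Y' + 1) by rw [frA']; exact hX)
        rw [nac_TL h4 (by omega) (by omega) (by omega) (by omega), ← e0]
        have := F.arc_top_l (X := X) (Y := Y' + y0) (by omega) hQ (by rw [eY]; exact hX)
        rw [eY] at this
        exact (wc_arc (ix_spec hs0).1 (ix_spec (F.side_L (by omega) (by omega))).1 this).symm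
      · have hX' : b (Y' + 1 + y0) ≤ X := by omega
        have g1 := mul_mon hN (show (cwOf F).B (Y' + 1) ≤ X by rw [frB']; exact hX')
        rw [nac_TR h4 (by omega) (by omega) (by omega) (by omega), ← e0]
        have := F.arc_top_r (X := X) (Y := Y' + y0) (by omega) hQ (by rw [eY]; exact hX')
        rw [eY] at this
        exact (wc_arc (ix_spec hs0).1 (ix_spec (F.side_R (by omega) (by omega))).1 this).symm
  · -- left sides
    have e0 : ix S ((X, Y' + y0), 3) = i := by rw [← hix]; exact (ix_congr (by omega)).symm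
    have h5 := ((isSide3 hk).1 hs).2
    rw [F.mem] at h5
    have hX : X = a (Y' + y0) := by omega
    have ex : x = 2 * n * (cwOf F).A Y' - 1 := by rw [frA, h1, hX]
    have := nac_L (C := cwOf F) (N := 2 * n) (q := Y') (r := y - 2 * n * Y') h4 hY hY1 (by omega)
      (by omega)
    rw [← ex, show 2 * (n : ℤ) * Y' + (y - 2 * n * Y') = y by ring] at this
    rw [this, ← e0, hX]
    rfl

include F in
/-- **The natural colour of the tile at a convex corner is the colour of one of its sides.** -/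
theorem nac_diag (hn : 2 ≤ n) (hi : i + 1 < S.N)
    (hc : S.P.side (i + 1) = ((S.P.side i).1, (S.P.side i).2 + 1))
    (h : lt (x, y + 2 * n * y0) = Pool.Agent.H21.FM.ql (Pool.Agent.H21.FM.wv n (S.P.side (i + 1)) 0) (S.k i)) :
    nac (cwOf F) (2 * n) x y = wc S i ∨ nac (cwOf F) (2 * n) x y = wc S (i + 1) := by
  have hN : (0 : ℤ) < 2 * n := by omega
  have h4 : (4 : ℤ) ≤ 2 * n := by omega
  have hs := isSide_side (S := S) i
  have hs' := isSide_side (S := S) (i + 1)
  have hix := ix_side (S := S) (show i < S.N by omega)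
  have hix' := ix_side (S := S) hi
  have hpos := Pool.Agent.H21.FM.pos_wv (h := n) (by omega) (S.P.side (i + 1)) 0 (by omega)
  have htt := congrArg tt h
  rw [tt_lt] at htt
  have hql := Pool.Agent.H21.FM.tt_ql (Pool.Agent.H21.FM.wv n (S.P.side (i + 1)) 0) (S.k i)
  unfold Shape.k at hql htt
  rcases hp : S.P.side i with ⟨⟨X, Y⟩, k⟩
  rw [hc, hp] at hs' hix' hpos hql htt
  rw [hp] at hs hix
  simp only [Nat.cast_zero, mul_zero, add_zero, sub_zero] at hpos hql htt hs' hix'
  have hQ : (X, Y) ∈ S.P.Q := hs.1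
  have hQ' := (F.mem X Y).1 hQ
  obtain ⟨Y', rfl⟩ : ∃ Y', Y = Y' + y0 := ⟨Y - y0, by ring⟩
  have hY : 0 ≤ Y' := by omega
  have hY1 : Y' < y1 - y0 := by omega
  have fr : 2 * (n : ℤ) * (Y' + y0) = 2 * n * Y' + 2 * n * y0 := by ring
  have frA : (cwOf F).A Y' = a (Y' + y0) := rfl
  have frB : (cwOf F).B Y' = b (Y' + y0) := rfl
  have frH : (cwOf F).H = y1 - y0 := rfl
  have hH0 : 0 ≤ 2 * (n : ℤ) * (cwOf F).H := mul_nonneg (by omega) (by rw [frH]; omega)
  rcases (by omega : k % 4 = 0 ∨ k % 4 = 1 ∨ k % 4 = 2 ∨ k % 4 = 3) with hk | hk | hk | hk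
  · right
    have e1 : ix S ((X, Y' + y0), 1) = i + 1 := by rw [← hix']; exact (ix_congr (by omega)).symm
    have h5 := ((isSide0 hk).1 hs).2
    have h6 := ((isSide1 (by omega)).1 hs').2
    rw [F.mem] at h5 h6
    have hX : X = b (Y' + y0) - 1 := by omega
    rw [hql.1 hk] at htt
    rcases hpos with ⟨h7, h8⟩ | ⟨h7, h8⟩ | ⟨h7, h8⟩ | ⟨h7, h8⟩
    · omega
    · rw [h8] at htt
      simp only [Prod.mk_sub_mk, Prod.mk.injEq] at htt
      have ex : x = 2 * n * (cwOf F).B Y' := by rw [frB]; rw [hX] at htt; linarith [htt.1]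
      have ey : y = 2 * n * Y' - 1 := by omega
      rw [ex, ey, nac_cBR h4 hY hY1, ← e1, hX]
      · rfl
      · intro hq
        have g1 := F.ov1 (Y' + y0 - 1) (by omega) (by omega)
        rw [sub_add_cancel] at g1
        show b (Y' - 1 + y0) < b (Y' + y0)
        rw [show Y' - 1 + y0 = Y' + y0 - 1 by ring]
        omega
    · omega
    · omega
  · right
    have e1 : ix S ((X, Y' + y0), 2) = i + 1 := by rw [← hix']; exact (ix_congr (by omega)).symm
    have hs2 : IsSide S.P.Q ((X, Y' + y0), 2) := (isSide_congr (by omega)).1 hs'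
    have h5 := ((isSide1 hk).1 hs).2
    have h6 := ((isSide2 (by omega)).1 hs').2
    rw [F.mem] at h5 h6
    have hX : X = b (Y' + y0) - 1 := by omega
    rw [hql.2.1 hk] at htt
    rcases hpos with ⟨h7, h8⟩ | ⟨h7, h8⟩ | ⟨h7, h8⟩ | ⟨h7, h8⟩
    · omega
    · omega
    · rw [h8] at htt
      simp only [Prod.mk.injEq] at htt
      have ex : x = 2 * n * (cwOf F).B Y' := by rw [frB]; rw [hX] at htt; linarith [htt.1]
      have ey : y = 2 * n * (Y' + 1) := by rw [mul_add, mul_one]; omega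
      rcases eq_or_lt_of_le (show Y' + 1 ≤ y1 - y0 by omega) with e | e
      · rw [nac_T (by rw [ey, frH, e]) hH0, ← e1]
        show wc S (ix S ((b (y1 - 1) - 1, y1 - 1), 2)) = _
        rw [show y1 - 1 = Y' + y0 by omega, ← hX]
      · have g1 := F.ov2 (Y' + y0) (by omega) (by omega)
        have eY : Y' + y0 + 1 = Y' + 1 + y0 := by ring
        rw [eY] at g1 h6
        have hB : b (Y' + 1 + y0) < b (Y' + y0) := by omega
        rw [ex, ey, nac_TR h4 hY (by omega) (mul_mon hN hB.le) hB, ← e1]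
        have := F.arc_top_r (X := X) (Y := Y' + y0) (by omega) hQ (by rw [eY]; omega)
        rw [eY] at this
        exact (wc_arc (ix_spec hs2).1 (ix_spec (F.side_R (by omega) (by omega))).1 this).symm
    · omega
  · left
    have e1 : ix S ((X, Y' + y0), 2) = i := by rw [← hix]; exact (ix_congr (by omega)).symm
    have hs2 : IsSide S.P.Q ((X, Y' + y0), 2) := (isSide_congr (by omega)).1 hs
    have h5 := ((isSide2 hk).1 hs).2
    have h6 := ((isSide3 (by omega)).1 hs').2
    rw [F.mem] at h5 h6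
    have hX : X = a (Y' + y0) := by omega
    rw [hql.2.2.1 hk] at htt
    rcases hpos with ⟨h7, h8⟩ | ⟨h7, h8⟩ | ⟨h7, h8⟩ | ⟨h7, h8⟩
    · omega
    · omega
    · omega
    · rw [h8] at htt
      simp only [Prod.mk_sub_mk, Prod.mk.injEq] at htt
      have ex : x = 2 * n * (cwOf F).A Y' - 1 := by rw [frA, htt.1, hX]
      have ey : y = 2 * n * (Y' + 1) := by rw [mul_add, mul_one]; omega
      rcases eq_or_lt_of_le (show Y' + 1 ≤ y1 - y0 by omega) with e | e
      · rw [nac_T (by rw [ey, frH, e]) hH0, ← e1]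
        have h7 := F.side_T
        have h8 := F.arc_top_0 (X := X) (by rw [show y1 - 1 = Y' + y0 by omega]; exact hQ)
        rw [show y1 - 1 = Y' + y0 by omega] at h7 h8
        show wc S (ix S ((b (y1 - 1) - 1, y1 - 1), 2)) = _
        rw [show y1 - 1 = Y' + y0 by omega]
        exact (wc_arc (ix_spec hs2).1 (ix_spec h7).1 h8).symm
      · have g1 := F.ov1 (Y' + y0) (by omega) (by omega)
        have eY : Y' + y0 + 1 = Y' + 1 + y0 := by ring
        rw [eY] at g1 h5
        have hA : a (Y' + y0) < a (Y' + 1 + y0) := by omega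
        have g2 := mul_gap hN (show (cwOf F).A Y' < (cwOf F).A (Y' + 1) from hA)
        rw [ex, ey, nac_TL h4 hY (by omega) hA (by omega), ← e1]
        have := F.arc_top_l (X := X) (Y := Y' + y0) (by omega) hQ (by rw [eY]; omega)
        rw [eY] at this
        exact (wc_arc (ix_spec hs2).1 (ix_spec (F.side_L (by omega) (by omega))).1 this).symm
  · left
    have e1 : ix S ((X, Y' + y0), 3) = i := by rw [← hix]; exact (ix_congr (by omega)).symm
    have h5 := ((isSide3 hk).1 hs).2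
    have h6 := ((isSide0 (by omega)).1 hs').2
    rw [F.mem] at h5 h6
    have hX : X = a (Y' + y0) := by omega
    rw [hql.2.2.2 hk] at htt
    rcases hpos with ⟨h7, h8⟩ | ⟨h7, h8⟩ | ⟨h7, h8⟩ | ⟨h7, h8⟩
    · rw [h8] at htt
      simp only [Prod.mk_sub_mk, Prod.mk.injEq] at htt
      have ex : x = 2 * n * (cwOf F).A Y' - 1 := by rw [frA, htt.1, hX]
      have ey : y = 2 * n * Y' - 1 := by omega
      rw [ex, ey, nac_cBL h4 hY hY1, ← e1, hX]
      · rfl
      · intro hq
        have g1 := F.ov2 (Y' + y0 - 1) (by omega) (by omega)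
        rw [sub_add_cancel] at g1
        show a (Y' + y0) < a (Y' - 1 + y0)
        rw [show Y' - 1 + y0 = Y' + y0 - 1 by ring]
        omega
    · omega
    · omega
    · omega

/-! ### Labels in the frame of the window -/

/-- the translation from the frame of the window to the frame of the shape -/
def vs (n : ℕ) (y0 : ℤ) : ℤ × ℤ := (-(n * y0), n * y0)

lemma mem_vs {W : Finset (ℤ × ℤ)} {x y : ℤ} : lt (x, y + 2 * n * y0) ∈ shl (vs n y0) W ↔ lt (x, y) ∈ W := by
  rw [mem_shl]
  unfold lt vs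
  simp only
  rw [show x - (y + 2 * (n : ℤ) * y0) - 2 * -(n * y0) = x - y by ring,
    show x + (y + 2 * (n : ℤ) * y0) + 1 - 2 * (n * y0) = x + y + 1 by ring]

/-- labels of the frame of the shape -/
lemma exists_lts {e : ℤ × ℤ} (h : (e.1 + e.2) % 2 = 1) (n : ℕ) (y0 : ℤ) :
    ∃ x y, e = lt (x, y + 2 * n * y0) := by
  obtain ⟨x, y, rfl⟩ := Pool.Agent.H74.R45.exists_lt h
  exact ⟨x, y - 2 * n * y0, by rw [sub_add_cancel]⟩

/-- random labels of the shape in the frame of the window -/
noncomputable def ES (F : RowF S.P.Q y0 y1 a b yP yQ) (n : ℕ) (hn : 1 ≤ n) : Finset (ℤ × ℤ) :=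
  TB (winOf F n hn) fun x y => lt (x, y + 2 * n * y0) ∈ TL S.P.Q (2 * n)

/-- natural open labels of the shape in the frame of the window -/
noncomputable def WS (F : RowF S.P.Q y0 y1 a b yP yQ) (n : ℕ) (hn : 1 ≤ n) : Finset (ℤ × ℤ) :=
  TB (winOf F n hn) fun x y =>
    lt (x, y + 2 * n * y0) ∉ TL S.P.Q (2 * n) ∧ nac (cwOf F) (2 * n) x y = true

variable {F} {hn : 1 ≤ n}

lemma tl_inP (h : lt (x, y + 2 * n * y0) ∈ TL S.P.Q (2 * n)) : InP (winOf F n hn) false x y := by
  have := tl_win F hn h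
  unfold InP
  rw [sh_false, add_zero]
  exact this

lemma mem_ES : lt (x, y) ∈ ES F n hn ↔ lt (x, y + 2 * n * y0) ∈ TL S.P.Q (2 * n) := by
  unfold ES
  rw [mem_TB]
  exact ⟨fun h => h.2, fun h => ⟨(tl_inP h).inB, h⟩⟩

lemma mem_WS : lt (x, y) ∈ WS F n hn ↔ InB (winOf F n hn) x y ∧
    lt (x, y + 2 * n * y0) ∉ TL S.P.Q (2 * n) ∧ nac (cwOf F) (2 * n) x y = true := by
  unfold WS; rw [mem_TB]

lemma ES_odd {e : ℤ × ℤ} (he : e ∈ ES F n hn) : (e.1 + e.2) % 2 = 1 := odd_TB he
lemma WS_odd {e : ℤ × ℤ} (he : e ∈ WS F n hn) : (e.1 + e.2) % 2 = 1 := odd_TB he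
lemma ES_sub : ES F n hn ⊆ GB (winOf F n hn) := Pool.Agent.H74.Win.TB_sub
lemma WS_sub : WS F n hn ⊆ GB (winOf F n hn) := Pool.Agent.H74.Win.TB_sub

lemma ES_disj : Disjoint (ES F n hn) (WS F n hn) := by
  rw [disjoint_left]
  intro e he he'
  obtain ⟨x, y, rfl⟩ := Pool.Agent.H74.R45.exists_lt (ES_odd he)
  exact (mem_WS.1 he').2.1 (mem_ES.1 he)

/-- `ES` in the frame of the shape -/
lemma shl_ES : shl (vs n y0) (ES F n hn) = TL S.P.Q (2 * n) := by
  ext e
  by_cases ho : (e.1 + e.2) % 2 = 1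
  · obtain ⟨x, y, rfl⟩ := exists_lts ho n y0
    rw [mem_vs, mem_ES]
  · constructor
    · intro h
      rw [mem_shl] at h
      have := ES_odd h
      simp only at this
      omega
    · intro h
      exact absurd ((mem_TL (by omega)).1 h).1 ho

/-- the open labels in the frame of the shape -/
noncomputable def WSO (F : RowF S.P.Q y0 y1 a b yP yQ) (n : ℕ) (hn : 1 ≤ n) (Wo : Finset (ℤ × ℤ)) :
    Finset (ℤ × ℤ) := shl (vs n y0) (WS F n hn ∪ Wo)

variable {Wo : Finset (ℤ × ℤ)}

lemma mem_WSO : lt (x, y + 2 * n * y0) ∈ WSO F n hn Wo ↔ lt (x, y) ∈ WS F n hn ∨ lt (x, y) ∈ Wo := by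
  unfold WSO
  rw [mem_vs, mem_union]

/-- a tile next to a random tile is in the large box -/
lemma inB_next {x' y' : ℤ} (h : lt (x', y' + 2 * n * y0) ∈ TL S.P.Q (2 * n)) (h1 : x' - 1 ≤ x)
    (h2 : x ≤ x' + 1) (h3 : y' - 1 ≤ y) (h4 : y ≤ y' + 1) : InB (winOf F n hn) x y := by
  have h5 := (tl_inP (F := F) (hn := hn) h).box
  unfold InB
  omega

/-- layers are in the large box -/
lemma inB_LY (h : lt (x, y + 2 * n * y0) ∈ LY (2 * n) (S.P.side i)) : InB (winOf F n hn) x y := by
  have hN : (0 : ℤ) < 2 * n := by omega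
  obtain ⟨-, -, h2⟩ := (mem_LY hN).1 h
  have hs := isSide_side (S := S) i
  rw [tt_lt] at h2
  have h3 : lt ((x, y + 2 * n * y0) - dir ((S.P.side i).2 - 1)) ∈ TL S.P.Q (2 * n) := by
    rw [lt_mem_TL hN, h2]; exact hs.1
  rcases dir_cases ((S.P.side i).2 - 1) with ⟨-, e⟩ | ⟨-, e⟩ | ⟨-, e⟩ | ⟨-, e⟩ <;> rw [e] at h3
  · rw [show ((x, y + 2 * (n : ℤ) * y0) - (1, 0) : ℤ × ℤ) = (x - 1, y + 2 * n * y0) by
      refine Prod.ext ?_ ?_ <;> simp] at h3
    exact inB_next h3 (by omega) (by omega) (by omega) (by omega)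
  · rw [show ((x, y + 2 * (n : ℤ) * y0) - (0, 1) : ℤ × ℤ) = (x, (y - 1) + 2 * n * y0) by
      refine Prod.ext ?_ ?_ <;> simp; ring] at h3
    exact inB_next h3 (by omega) (by omega) (by omega) (by omega)
  · rw [show ((x, y + 2 * (n : ℤ) * y0) - (-1, 0) : ℤ × ℤ) = (x + 1, y + 2 * n * y0) by
      refine Prod.ext ?_ ?_ <;> simp] at h3
    exact inB_next h3 (by omega) (by omega) (by omega) (by omega)
  · rw [show ((x, y + 2 * (n : ℤ) * y0) - (0, -1) : ℤ × ℤ) = (x, (y + 1) + 2 * n * y0) by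
      refine Prod.ext ?_ ?_ <;> simp; ring] at h3
    exact inB_next h3 (by omega) (by omega) (by omega) (by omega)

lemma ly_not_TL (hN : (0 : ℤ) < 2 * n) {e : ℤ × ℤ} (h : e ∈ LY (2 * n) (S.P.side i)) :
    e ∉ TL S.P.Q (2 * n) := by
  intro h1
  have := ((mem_LY hN).1 h).2.1
  have h3 := ((mem_TL hN).1 h1).2
  rw [this] at h3
  exact (isSide_side (S := S) i).2 h3

/-- **The natural labels are admissible.** -/
theorem wir_nat (h2 : 2 ≤ n) (hodd : ∀ e ∈ Wo, (e.1 + e.2) % 2 = 1)
    (hfar : ∀ x y, lt (x, y) ∈ Wo → ¬ InB (winOf F n hn) x y) : Wir S n (WSO F n hn Wo) where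
  odd := by
    intro e he
    unfold WSO at he
    rw [mem_shl, mem_union] at he
    rcases he with he | he
    · have := WS_odd he
      simp only at this
      omega
    · have := hodd _ he
      simp only at this
      omega
  disj := by
    rw [disjoint_left]
    intro e he he'
    obtain ⟨x, y, rfl⟩ := exists_lts ((mem_TL (by omega)).1 he).1 n y0
    rcases mem_WSO.1 he' with h3 | h3
    · exact (mem_WS.1 h3).2.1 he
    · exact hfar x y h3 (tl_inP he).inB
  wired := by
    intro i hi e he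
    have hN : (0 : ℤ) < 2 * n := by omega
    have hi' : i < S.N := by
      have h4 : S.m4 = S.P.m := rfl
      have := S.h34; have := S.m4N
      unfold Shape.Wd at hi
      omega
    obtain ⟨x, y, rfl⟩ := exists_lts ((mem_LY hN).1 he).1 n y0
    rw [mem_WSO, mem_WS]
    left
    refine ⟨inB_LY he, ly_not_TL hN he, ?_⟩
    rw [nac_side F h2 hi' he, wc_iff]
    exact hi
  free := by
    intro i hi
    have hN : (0 : ℤ) < 2 * n := by omega
    have hi' : i < S.N := lt_trans hi.lt S.m4N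
    rw [disjoint_left]
    intro e he he'
    obtain ⟨x, y, rfl⟩ := exists_lts ((mem_LY hN).1 he).1 n y0
    rcases mem_WSO.1 he' with h3 | h3
    · have h4 := (mem_WS.1 h3).2.2
      rw [nac_side F h2 hi' he, wc_iff] at h4
      exact hi.not_Wd h4
    · exact hfar x y h3 (inB_LY he)
  diag := by
    intro i hi hi' hc he
    have hN : (0 : ℤ) < 2 * n := by omega
    have hl : i + 1 < S.N := lt_trans hi'.lt S.m4N
    obtain ⟨x, y, e⟩ := exists_lts (Pool.Agent.H21.FM.ql_odd _ _) n y0 (e :=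
      Pool.Agent.H21.FM.ql (Pool.Agent.H21.FM.wv n (S.P.side (i + 1)) 0) (S.k i))
    rw [e] at he
    rcases mem_WSO.1 he with h3 | h3
    · have h4 := (mem_WS.1 h3).2.2
      rcases nac_diag F h2 hl hc e.symm with h5 | h5
      · rw [h5, wc_iff] at h4
        exact hi.not_Wd h4
      · rw [h5, wc_iff] at h4
        exact hi'.not_Wd h4
    · refine hfar x y h3 ?_
      have h5 := Pool.Agent.H21.FM.in_mem (h := n) (by omega) (S.isSide (i + 1)) (j := 0) (by omega)
      have q1 := Pool.Agent.H21.FM.tt_ql (Pool.Agent.H21.FM.wv n (S.P.side (i + 1)) 0) ((S.P.side (i + 1)).2 + 1)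
      have q2 := Pool.Agent.H21.FM.tt_ql (Pool.Agent.H21.FM.wv n (S.P.side (i + 1)) 0) (S.k i)
      obtain ⟨x', y', e'⟩ := exists_lts (Pool.Agent.H21.FM.ql_odd _ _) n y0 (e :=
        Pool.Agent.H21.FM.ql (Pool.Agent.H21.FM.wv n (S.P.side (i + 1)) 0) ((S.P.side (i + 1)).2 + 1))
      rw [e'] at h5 q1
      rw [e] at q2
      rw [tt_lt] at q1 q2
      have hk : (S.P.side (i + 1)).2 = S.k i + 1 := by rw [hc]; rfl
      rw [hk] at q1
      rcases (by omega : S.k i % 4 = 0 ∨ S.k i % 4 = 1 ∨ S.k i % 4 = 2 ∨ S.k i % 4 = 3) with h | h | h | h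
      · have a1 := q1.2.2.1 (by omega)
        have a2 := q2.1 h
        rw [Prod.ext_iff] at a1 a2
        simp only [Prod.fst_sub, Prod.snd_sub] at a1 a2
        exact inB_next h5 (by omega) (by omega) (by omega) (by omega)
      · have a1 := q1.2.2.2 (by omega)
        have a2 := q2.2.1 h
        rw [Prod.ext_iff] at a1 a2
        simp only [Prod.fst_sub, Prod.snd_sub] at a1 a2
        exact inB_next h5 (by omega) (by omega) (by omega) (by omega)
      · have a1 := q1.1 (by omega)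
        have a2 := q2.2.2.1 h
        rw [Prod.ext_iff] at a1 a2
        simp only [Prod.fst_sub, Prod.snd_sub] at a1 a2
        exact inB_next h5 (by omega) (by omega) (by omega) (by omega)
      · have a1 := q1.2.1 (by omega)
        have a2 := q2.2.2.2 h
        rw [Prod.ext_iff] at a1 a2
        simp only [Prod.fst_sub, Prod.snd_sub] at a1 a2
        exact inB_next h5 (by omega) (by omega) (by omega) (by omega)

end

end Pool.Agent.H33.Sp
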