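import Mathlib
import Pool.Agent.H33.Sp.NatS

set_option autoImplicit false
open Finset

/-! # Rows of the large box and coarse sides

`cls C N s y` : the coarse side (position `0 .. 2 H + 1` on the ring: bottom, right sides upwards, top, left
sides downwards) of the row `y` on the left (`s = false`) or right (`s = true`) of the large box.
`link` : the vertex (face) of the boundary of the box in the row `y` is joined with a vertex (face) of the
side through tiles of the colour of the side. -/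

namespace Pool.Agent.H33.Sp

open Pool.Agent.H75.Perc hiding ph cc EE
open Pool.Agent.H75.TwoArm Pool.Agent.Q1 Pool.Agent.H33.Q1
open Pool.Agent.H69.Q1
open Pool.Agent.H33.R45 (rco rdco)
open Pool.Agent.H13.R45 (gp)
open Pool.Agent.H5.FM
open Pool.Agent.H46.Sp (Win mm MM)
open Pool.Agent.H74.Win (natc InP InB sh_false fillc)

section defs

variable (C : CW) (N : ℤ)

/-- coarse row of a row on the left -/
def qL (y : ℤ) : ℤ := if y + 1 < N * C.YP then (y + 1) / N else y / N

/-- coarse row of a row on the right -/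
def qR (y : ℤ) : ℤ := if y < N * C.YQ then (y + 1) / N else y / N

/-- coarse side of a row -/
def cls (s : Bool) (y : ℤ) : ℤ := if N * C.H ≤ y then C.H + 1 else if y < -1 then 0
  else if s then qR C N y + 1 else 2 * C.H + 1 - qL C N y

/-- colour of a coarse side -/
def ccol (P : ℤ) : Bool := if P = 0 then C.CB else if P ≤ C.H then C.CR (P - 1)
  else if P = C.H + 1 then C.CT else C.CL (2 * C.H + 1 - P)

/-- a vertex of a coarse side -/
def vP (P : ℤ) : ℤ × ℤ := if P = 0 then (N * C.A 0, 0)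
  else if P ≤ C.H then (N * C.B (P - 1), N * (P - 1) + 2)
  else if P = C.H + 1 then (N * C.B (C.H - 1), N * C.H)
  else (N * C.A (2 * C.H + 1 - P), N * (2 * C.H + 1 - P) + 2)

/-- a face of a coarse side -/
def fP (P : ℤ) : ℤ × ℤ := if P = 0 then (N * C.A 0 + 1, 0)
  else if P ≤ C.H then (N * C.B (P - 1), N * (P - 1) + 1)
  else if P = C.H + 1 then (N * C.B (C.H - 1) - 1, N * C.H)
  else (N * C.A (2 * C.H + 1 - P), N * (2 * C.H + 1 - P) + 1)

/-- the tiles of the coarse window -/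
def inT (x y : ℤ) : Prop := (0 ≤ y ∧ y < N * C.H) ∧ N * C.A (y / N) ≤ x ∧ x < N * C.B (y / N)

end defs

variable {C : CW} {N : ℤ} {x y q r : ℤ} {s : Bool}

lemma wcl_qL : C.wcl N y = C.CL (qL C N y) := by
  unfold CW.wcl qL
  split_ifs <;> rfl

lemma wcr_qR : C.wcr N y = C.CR (qR C N y) := by
  unfold CW.wcr qR
  split_ifs <;> rfl

section

variable (h4 : 4 ≤ N)

include h4

lemma div_lo {z : ℤ} (h : z < N * q) : z / N < q := Int.ediv_lt_of_lt_mul (by omega) (by rwa [mul_comm])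

lemma div_hi {z : ℤ} (h : N * q ≤ z) : q ≤ z / N := Int.le_ediv_of_mul_le (by omega) (by rwa [mul_comm])

lemma qL_range (h0 : -1 ≤ y) (h1 : y < N * C.H) : 0 ≤ qL C N y ∧ qL C N y < C.H := by
  have hP := C.P0
  have hP1 := C.P1
  have k1 := mul_gap (by omega : 0 < N) hP
  rw [mul_zero] at k1
  unfold qL
  split_ifs with h
  · have := div_lo h4 h
    exact ⟨Int.ediv_nonneg (by omega) (by omega), by omega⟩
  · exact ⟨Int.ediv_nonneg (by omega) (by omega), div_lo h4 h1⟩

lemma qR_range (h0 : -1 ≤ y) (h1 : y < N * C.H) : 0 ≤ qR C N y ∧ qR C N y < C.H := by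
  have hQ := C.Q0
  have hQ1 := C.Q1
  unfold qR
  split_ifs with h
  · have := div_lo h4 (z := y + 1) (q := C.YQ + 1) (by rw [mul_add, mul_one]; omega)
    exact ⟨Int.ediv_nonneg (by omega) (by omega), by omega⟩
  · have k := mul_mon (by omega : 0 < N) hQ
    rw [mul_zero] at k
    exact ⟨Int.ediv_nonneg (by omega) (by omega), div_lo h4 h1⟩

/-- the coarse row of the rows between `y` and the middle row -/
lemma qL_mid {y' : ℤ} (h0 : -1 ≤ y) (h1 : y < N * C.H) (h : (y ≤ y' ∧ y' ≤ N * qL C N y + 1) ∨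
    (N * qL C N y + 1 ≤ y' ∧ y' ≤ y)) : -1 ≤ y' ∧ y' < N * C.H ∧ qL C N y' = qL C N y := by
  obtain ⟨g0, g1⟩ := qL_range h4 h0 h1
  have hP1 := C.P1
  have k0 := mul_mon (by omega : 0 < N) g0
  rw [mul_zero] at k0
  have k1 := mul_gap (by omega : 0 < N) g1
  have key : N * qL C N y ≤ y + 1 ∧ y < N * qL C N y + N ∧ (y + 1 < N * C.YP → y + 1 < N * qL C N y + N) ∧
      (N * C.YP ≤ y + 1 → N * qL C N y ≤ y) := by
    unfold qL
    split_ifs with h
    · have e1 := Int.mul_ediv_add_emod (y + 1) N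
      have e2 := Int.emod_nonneg (y + 1) (show N ≠ 0 by omega)
      have e3 := Int.emod_lt_of_pos (y + 1) (show 0 < N by omega)
      omega
    · have e1 := Int.mul_ediv_add_emod y N
      have e2 := Int.emod_nonneg y (show N ≠ 0 by omega)
      have e3 := Int.emod_lt_of_pos y (show 0 < N by omega)
      omega
  have hlt : y + 1 < N * C.YP → qL C N y < C.YP := fun h => by
    unfold qL; rw [if_pos h]; exact div_lo h4 h
  have hge : N * C.YP ≤ y + 1 → C.YP ≤ qL C N y + 1 := fun h => by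
    by_contra h5
    have := mul_gap (by omega : 0 < N) (show qL C N y + 1 < C.YP by omega)
    rw [mul_add, mul_one] at this
    omega
  set Q := qL C N y with hQ
  refine ⟨by omega, by omega, ?_⟩
  unfold qL
  split_ifs with h3
  · obtain ⟨r, hr⟩ : ∃ r, y' + 1 = N * Q + r := ⟨y' + 1 - N * Q, by ring⟩
    rw [hr, qr_div (by omega)]
    rcases lt_or_ge (y + 1) (N * C.YP) with h5 | h5
    · omega
    · have := mul_mon (by omega : 0 < N) (hge h5)
      rw [mul_add, mul_one] at this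
      omega
  · obtain ⟨r, hr⟩ : ∃ r, y' = N * Q + r := ⟨y' - N * Q, by ring⟩
    rw [hr, qr_div _ (by omega)]
    rcases lt_or_ge (y + 1) (N * C.YP) with h5 | h5
    · have := mul_gap (by omega : 0 < N) (hlt h5)
      omega
    · omega

/-- the coarse row of the rows between `y` and the middle row -/
lemma qR_mid {y' : ℤ} (h0 : -1 ≤ y) (h1 : y < N * C.H) (h : (y ≤ y' ∧ y' ≤ N * qR C N y + 1) ∨
    (N * qR C N y + 1 ≤ y' ∧ y' ≤ y)) : -1 ≤ y' ∧ y' < N * C.H ∧ qR C N y' = qR C N y := by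
  obtain ⟨g0, g1⟩ := qR_range h4 h0 h1
  have hQ1 := C.Q1
  have k0 := mul_mon (by omega : 0 < N) g0
  rw [mul_zero] at k0
  have k1 := mul_gap (by omega : 0 < N) g1
  have key : N * qR C N y ≤ y + 1 ∧ y < N * qR C N y + N ∧ (y < N * C.YQ → y + 1 < N * qR C N y + N) ∧
      (N * C.YQ ≤ y → N * qR C N y ≤ y) := by
    unfold qR
    split_ifs with h
    · have e1 := Int.mul_ediv_add_emod (y + 1) N
      have e2 := Int.emod_nonneg (y + 1) (show N ≠ 0 by omega)
      have e3 := Int.emod_lt_of_pos (y + 1) (show 0 < N by omega)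
      omega
    · have e1 := Int.mul_ediv_add_emod y N
      have e2 := Int.emod_nonneg y (show N ≠ 0 by omega)
      have e3 := Int.emod_lt_of_pos y (show 0 < N by omega)
      omega
  have hlt : y < N * C.YQ → qR C N y ≤ C.YQ := fun h => by
    unfold qR; rw [if_pos h]
    have := div_lo h4 (z := y + 1) (q := C.YQ + 1) (by rw [mul_add, mul_one]; omega)
    omega
  have hge : N * C.YQ ≤ y → C.YQ ≤ qR C N y := fun h => by
    unfold qR; rw [if_neg (by omega)]; exact div_hi h4 h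
  set Q := qR C N y with hQ
  refine ⟨by omega, by omega, ?_⟩
  unfold qR
  split_ifs with h3
  · obtain ⟨r, hr⟩ : ∃ r, y' + 1 = N * Q + r := ⟨y' + 1 - N * Q, by ring⟩
    rw [hr, qr_div (by omega)]
    rcases lt_or_ge y (N * C.YQ) with h5 | h5
    · omega
    · have := mul_mon (by omega : 0 < N) (hge h5)
      omega
  · obtain ⟨r, hr⟩ : ∃ r, y' = N * Q + r := ⟨y' - N * Q, by ring⟩
    rw [hr, qr_div _ (by omega)]
    rcases lt_or_ge y (N * C.YQ) with h5 | h5
    · have := mul_mon (by omega : 0 < N) (hlt h5)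
      omega
    · omega

/-! ### Colours far from the window -/

omit h4 in
/-- to the left of the window -/
lemma nac_farL {h2 : 2 ≤ N} {he : N % 2 = 0} (h0 : -1 ≤ y) (h1 : y < N * C.H)
    (hx : x < (C.win N h2 he).a ((C.win N h2 he).yP - 1)) : nac C N x y = C.CL (qL C N y) := by
  have k1 : (C.win N h2 he).a ((C.win N h2 he).yP - 1) ≤ (C.win N h2 he).m y :=
    Pool.Agent.H46.Sp.Win.m_min h0 h1
  have k2 : (C.win N h2 he).m y = cm C N y := rfl
  unfold nac
  rw [if_neg, if_neg (by omega), if_neg (by omega), if_pos (by omega), wcl_qL]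
  rintro ⟨⟨g1, g2⟩, g3, -⟩
  have : (C.win N h2 he).a ((C.win N h2 he).yP - 1) ≤ C.wa N y := Pool.Agent.H46.Sp.Win.a_min g1 g2
  omega

omit h4 in
/-- to the right of the window -/
lemma nac_farR {h2 : 2 ≤ N} {he : N % 2 = 0} (h0 : -1 ≤ y) (h1 : y < N * C.H)
    (hx : (C.win N h2 he).b (C.win N h2 he).yQ ≤ x) : nac C N x y = C.CR (qR C N y) := by
  have k1 : (C.win N h2 he).M y ≤ (C.win N h2 he).b (C.win N h2 he).yQ :=
    Pool.Agent.H46.Sp.Win.M_max h0 h1
  have k2 : (C.win N h2 he).M y = cM C N y := rfl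
  have k3 := Pool.Agent.H46.Sp.Win.m_lt_M (D := C.win N h2 he) h0 h1
  have k4 : (C.win N h2 he).m y = cm C N y := rfl
  unfold nac
  rw [if_neg, if_neg (by omega), if_neg (by omega), if_neg (by omega), if_pos (by omega), wcr_qR]
  rintro ⟨⟨g1, g2⟩, -, g3⟩
  have : C.wb N y ≤ (C.win N h2 he).b (C.win N h2 he).yQ := Pool.Agent.H46.Sp.Win.b_max g1 g2
  omega

omit h4 in
/-- below the window -/
lemma nac_farB (h : y < -1) : nac C N x y = C.CB := by
  unfold nac
  rw [if_neg (by omega), if_pos h]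

omit h4 in
/-- joined through two rectangles -/
lemma chain2 {T : ℤ → ℤ → Prop} {xa xb ya yb xc xd yc yd : ℤ}
    (h1 : xa < xb) (h2 : ya < yb) (h3 : xc < xd) (h5 : yc < yd)
    (t1 : ∀ x y, xa ≤ x → x < xb → ya ≤ y → y < yb → T x y)
    (t2 : ∀ x y, xc ≤ x → x < xd → yc ≤ y → y < yd → T x y) :
    (∀ (W : Finset (ℤ × ℤ)), (∀ x y, T x y → lt (x, y) ∈ W) → ∀ a b c d e f : ℤ,
      ((xa ≤ a ∧ a ≤ xb ∧ ya ≤ b ∧ b ≤ yb) ∧ (a + b) % 2 = 0) →
      ((xa ≤ c ∧ c ≤ xb ∧ ya ≤ d ∧ d ≤ yb) ∧ (c + d) % 2 = 0) → (xc ≤ c ∧ c ≤ xd ∧ yc ≤ d ∧ d ≤ yd) →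
      ((xc ≤ e ∧ e ≤ xd ∧ yc ≤ f ∧ f ≤ yd) ∧ (e + f) % 2 = 0) → Co W (gp (a, b)) (gp (e, f))) ∧
    (∀ (A : Finset (ℤ × ℤ)), (∀ x y, T x y → lt (x, y) ∉ A) → ∀ a b c d e f : ℤ,
      ((xa ≤ a ∧ a ≤ xb ∧ ya ≤ b ∧ b ≤ yb) ∧ (a + b) % 2 = 1) →
      ((xa ≤ c ∧ c ≤ xb ∧ ya ≤ d ∧ d ≤ yb) ∧ (c + d) % 2 = 1) → (xc ≤ c ∧ c ≤ xd ∧ yc ≤ d ∧ d ≤ yd) →
      ((xc ≤ e ∧ e ≤ xd ∧ yc ≤ f ∧ f ≤ yd) ∧ (e + f) % 2 = 1) → DCo A (gp (a, b)) (gp (e, f))) := by
  refine ⟨fun W hW a b c d e f k1 k2 k3 k4 => ?_, fun A hA a b c d e f k1 k2 k3 k4 => ?_⟩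
  · exact (rco xa xb ya yb h1 h2 (fun x y d1 d2 d3 d4 => hW x y (t1 x y d1 d2 d3 d4)) k1 k2).trans
      (rco xc xd yc yd h3 h5 (fun x y d1 d2 d3 d4 => hW x y (t2 x y d1 d2 d3 d4)) ⟨k3, k2.2⟩ k4)
  · exact (rdco xa xb ya yb h1 h2 (fun x y d1 d2 d3 d4 => hA x y (t1 x y d1 d2 d3 d4)) k1 k2).trans
      (rdco xc xd yc yd h3 h5 (fun x y d1 d2 d3 d4 => hA x y (t2 x y d1 d2 d3 d4)) ⟨k3, k2.2⟩ k4)

end

/-- the good tiles of a coarse side -/
def Tc (C : CW) (N : ℤ) (h2 : 2 ≤ N) (he : N % 2 = 0) (c : Bool) (x y : ℤ) : Prop :=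
  InB (C.win N h2 he) x y ∧ ¬ inT C N x y ∧ nac C N x y = c

/-- the left column of the box -/
def bx0 (C : CW) (N : ℤ) (h2 : 2 ≤ N) (he : N % 2 = 0) : ℤ := (C.win N h2 he).a ((C.win N h2 he).yP - 1) - 4

/-- the right column of the box -/
def bx1 (C : CW) (N : ℤ) (h2 : 2 ≤ N) (he : N % 2 = 0) : ℤ := (C.win N h2 he).b (C.win N h2 he).yQ + 4

/-- the joined points -/
structure Lk (C : CW) (N : ℤ) (h2 : 2 ≤ N) (he : N % 2 = 0) (s : Bool) (y : ℤ) : Prop where
  co : ∀ W : Finset (ℤ × ℤ), (∀ x' y', Tc C N h2 he (ccol C (cls C N s y)) x' y' → lt (x', y') ∈ W) →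
    Co W (gp (if s then bx1 C N h2 he else bx0 C N h2 he, y + ((if s then bx1 C N h2 he else bx0 C N h2 he) + y) % 2))
      (gp (vP C N (cls C N s y)))
  dco : ∀ A : Finset (ℤ × ℤ), (∀ x' y', Tc C N h2 he (ccol C (cls C N s y)) x' y' → lt (x', y') ∉ A) →
    DCo A (gp (if s then bx1 C N h2 he else bx0 C N h2 he,
      y + ((if s then bx1 C N h2 he else bx0 C N h2 he) + y + 1) % 2)) (gp (fP C N (cls C N s y)))

section link

variable {h2 : 2 ≤ N} {he : N % 2 = 0} (h4 : 4 ≤ N)

lemma inB_bx (x y' : ℤ) (g1 : bx0 C N h2 he ≤ x) (g2 : x < bx1 C N h2 he) (g3 : -4 ≤ y')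
    (g4 : y' < N * C.H + 3) : InB (C.win N h2 he) x y' := by
  have eh : (C.win N h2 he).h = N * C.H := rfl
  unfold bx0 at g1
  unfold bx1 at g2
  unfold InB
  omega

include h4

/-- the columns of the box are far from all rows -/
lemma bx_q (q0 : 0 ≤ q) (q1 : q < C.H) : bx0 C N h2 he + 3 ≤ N * C.A q ∧ N * C.B q + 3 ≤ bx1 C N h2 he := by
  have r1 : (1 : ℤ) < N := by omega
  have r0 : (0 : ℤ) ≤ 1 := by norm_num
  have k0 := row_nn (N := N) (q := q) (r := 1) h4 q0 r0
  have k1 := (qr_lt (N := N) (z := C.H) (q := q) (r := 1) r0 r1).2 q1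
  have e1 : (C.win N h2 he).a ((C.win N h2 he).yP - 1) ≤ C.wa N (N * q + 1) :=
    Pool.Agent.H46.Sp.Win.a_min k0 k1
  have e2 : C.wb N (N * q + 1) ≤ (C.win N h2 he).b (C.win N h2 he).yQ :=
    Pool.Agent.H46.Sp.Win.b_max k0 k1
  rw [CW.wa_qr r0 r1] at e1
  rw [CW.wb_qr r0 r1] at e2
  have b1 := CW.dA_01 (C := C) (N := N) (q := q) (r := 1)
  have b2 := CW.dB_01 (C := C) (N := N) (q := q) (r := 1)
  unfold bx0 bx1
  omega

lemma not_inT_row (h : x < N * C.A q ∨ N * C.B q ≤ x) : ¬ inT C N x (N * q + 1) := by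
  rintro ⟨-, g2, g3⟩
  rw [qr_div (by norm_num) (by omega)] at g2 g3
  omega

lemma link_L (h0 : -1 ≤ y) (h1 : y < N * C.H) : Lk C N h2 he false y := by
  obtain ⟨q0, q1⟩ := qL_range (C := C) h4 h0 h1
  have hc : cls C N false y = 2 * C.H + 1 - qL C N y := by
    unfold cls
    rw [if_neg (by omega), if_neg (by omega)]
    rfl
  set q := qL C N y with hq
  have ec : ccol C (cls C N false y) = C.CL q := by
    rw [hc]
    unfold ccol
    rw [if_neg (by omega), if_neg (by omega), if_neg (by omega), sub_sub_cancel]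
  have ev : vP C N (cls C N false y) = (N * C.A q, N * q + 2) := by
    rw [hc]
    unfold vP
    rw [if_neg (by omega), if_neg (by omega), if_neg (by omega), sub_sub_cancel]
  have ef : fP C N (cls C N false y) = (N * C.A q, N * q + 1) := by
    rw [hc]
    unfold fP
    rw [if_neg (by omega), if_neg (by omega), if_neg (by omega), sub_sub_cancel]
  obtain ⟨b1, b2⟩ := bx_q (h2 := h2) (he := he) h4 q0 q1
  have hab := mul_gap (by omega : 0 < N) (C.ab q q0 q1)
  have k0 := row_nn (N := N) (q := q) (r := 1) h4 q0 (by norm_num)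
  have k1 := (qr_lt (N := N) (z := C.H) (q := q) (r := 1) (by norm_num) (by omega)).2 q1
  have hbox := inB_bx (C := C) (h2 := h2) (he := he)
  have t1 : ∀ x y', bx0 C N h2 he ≤ x → x < bx0 C N h2 he + 1 → min y (N * q + 1) ≤ y' →
      y' < max y (N * q + 1) + 1 → Tc C N h2 he (ccol C (cls C N false y)) x y' := by
    intro x y' g1 g2 g3 g4
    obtain ⟨m1, m2, m3⟩ := qL_mid (C := C) h4 h0 h1 (y' := y') (by rw [← hq]; omega)
    have hx : x < (C.win N h2 he).a ((C.win N h2 he).yP - 1) := by unfold bx0 at g2; omega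
    refine ⟨hbox x y' (by omega) (by omega) (by omega) (by omega), ?_, ?_⟩
    · rintro ⟨⟨n1, -⟩, n2, -⟩
      obtain ⟨c1, -⟩ := bx_q (C := C) (h2 := h2) (he := he) h4 (q := y' / N)
        (Int.ediv_nonneg n1 (by omega)) (div_lo h4 m2)
      omega
    · rw [nac_farL (h2 := h2) (he := he) m1 m2 hx, m3, ec, hq]
  have t2 : ∀ x y', bx0 C N h2 he ≤ x → x < N * C.A q → N * q + 1 ≤ y' → y' < N * q + 2 →
      Tc C N h2 he (ccol C (cls C N false y)) x y' := by
    intro x y' g1 g2 g3 g4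
    obtain rfl : y' = N * q + 1 := by omega
    exact ⟨hbox x _ g1 (by omega) (by omega) (by omega), not_inT_row h4 (Or.inl g2),
      by rw [(nac_row h4 q0 q1).1 x g2, ec]⟩
  have hch := chain2 (by omega) (by omega) (by omega) (by omega) t1 t2
  have eA := mul_ev he (C.A q)
  have eq' := mul_ev he q
  constructor
  · intro W hW
    rw [ev]
    simp only [Bool.false_eq_true, if_false]
    exact hch.1 W hW _ _ (bx0 C N h2 he) (N * q + 1 + (bx0 C N h2 he + (N * q + 1)) % 2) _ _
      (by omega) (by omega) (by omega) (by omega)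
  · intro A hA
    rw [ef]
    simp only [Bool.false_eq_true, if_false]
    exact hch.2 A hA _ _ (bx0 C N h2 he) (N * q + 1 + (bx0 C N h2 he + (N * q + 1) + 1) % 2) _ _
      (by omega) (by omega) (by omega) (by omega)

lemma link_R (h0 : -1 ≤ y) (h1 : y < N * C.H) : Lk C N h2 he true y := by
  obtain ⟨q0, q1⟩ := qR_range (C := C) h4 h0 h1
  have hc : cls C N true y = qR C N y + 1 := by
    unfold cls
    rw [if_neg (by omega), if_neg (by omega)]
    rfl
  set q := qR C N y with hq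
  have ec : ccol C (cls C N true y) = C.CR q := by
    rw [hc]
    unfold ccol
    rw [if_neg (by omega), if_pos (by omega), add_sub_cancel_right]
  have ev : vP C N (cls C N true y) = (N * C.B q, N * q + 2) := by
    rw [hc]
    unfold vP
    rw [if_neg (by omega), if_pos (by omega), add_sub_cancel_right]
  have ef : fP C N (cls C N true y) = (N * C.B q, N * q + 1) := by
    rw [hc]
    unfold fP
    rw [if_neg (by omega), if_pos (by omega), add_sub_cancel_right]
  obtain ⟨b1, b2⟩ := bx_q (h2 := h2) (he := he) h4 q0 q1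
  have hab := mul_gap (by omega : 0 < N) (C.ab q q0 q1)
  have k0 := row_nn (N := N) (q := q) (r := 1) h4 q0 (by norm_num)
  have k1 := (qr_lt (N := N) (z := C.H) (q := q) (r := 1) (by norm_num) (by omega)).2 q1
  have hbox := inB_bx (C := C) (h2 := h2) (he := he)
  have t1 : ∀ x y', bx1 C N h2 he - 1 ≤ x → x < bx1 C N h2 he → min y (N * q + 1) ≤ y' →
      y' < max y (N * q + 1) + 1 → Tc C N h2 he (ccol C (cls C N true y)) x y' := by
    intro x y' g1 g2 g3 g4
    obtain ⟨m1, m2, m3⟩ := qR_mid (C := C) h4 h0 h1 (y' := y') (by rw [← hq]; omega)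
    have hx : (C.win N h2 he).b (C.win N h2 he).yQ ≤ x := by unfold bx1 at g1; omega
    refine ⟨hbox x y' (by omega) (by omega) (by omega) (by omega), ?_, ?_⟩
    · rintro ⟨⟨n1, -⟩, -, n2⟩
      obtain ⟨-, c1⟩ := bx_q (C := C) (h2 := h2) (he := he) h4 (q := y' / N)
        (Int.ediv_nonneg n1 (by omega)) (div_lo h4 m2)
      omega
    · rw [nac_farR (h2 := h2) (he := he) m1 m2 hx, m3, ec, hq]
  have t2 : ∀ x y', N * C.B q ≤ x → x < bx1 C N h2 he → N * q + 1 ≤ y' → y' < N * q + 2 →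
      Tc C N h2 he (ccol C (cls C N true y)) x y' := by
    intro x y' g1 g2 g3 g4
    obtain rfl : y' = N * q + 1 := by omega
    exact ⟨hbox x _ (by omega) g2 (by omega) (by omega), not_inT_row h4 (Or.inr g1),
      by rw [(nac_row h4 q0 q1).2 x g1, ec]⟩
  have hch := chain2 (by omega) (by omega) (by omega) (by omega) t1 t2
  have eB := mul_ev he (C.B q)
  have eq' := mul_ev he q
  constructor
  · intro W hW
    rw [ev]
    simp only [if_true]
    exact hch.1 W hW _ _ (bx1 C N h2 he) (N * q + 1 + (bx1 C N h2 he + (N * q + 1)) % 2) _ _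
      (by omega) (by omega) (by omega) (by omega)
  · intro A hA
    rw [ef]
    simp only [if_true]
    exact hch.2 A hA _ _ (bx1 C N h2 he) (N * q + 1 + (bx1 C N h2 he + (N * q + 1) + 1) % 2) _ _
      (by omega) (by omega) (by omega) (by omega)

lemma link_B (h0 : -4 ≤ y) (h1 : y < -1) : Lk C N h2 he s y := by
  have hH := mul_gap (by omega : 0 < N) C.H0
  rw [mul_zero] at hH
  have hc : cls C N s y = 0 := by
    unfold cls
    rw [if_neg (by omega), if_pos h1]
  have ec : ccol C (cls C N s y) = C.CB := by rw [hc]; unfold ccol; rw [if_pos rfl]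
  have ev : vP C N (cls C N s y) = (N * C.A 0, 0) := by rw [hc]; unfold vP; rw [if_pos rfl]
  have ef : fP C N (cls C N s y) = (N * C.A 0 + 1, 0) := by rw [hc]; unfold fP; rw [if_pos rfl]
  obtain ⟨b1, b2⟩ := bx_q (C := C) (h2 := h2) (he := he) h4 le_rfl C.H0
  have hab := mul_gap (by omega : 0 < N) (C.ab 0 le_rfl C.H0)
  have hbox := inB_bx (C := C) (h2 := h2) (he := he)
  have t1 : ∀ x y', bx0 C N h2 he ≤ x → x < bx1 C N h2 he → -4 ≤ y' → y' < -1 →
      Tc C N h2 he (ccol C (cls C N s y)) x y' := by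
    intro x y' g1 g2 g3 g4
    refine ⟨hbox x y' (by omega) (by omega) (by omega) (by omega), ?_, ?_⟩
    · rintro ⟨⟨n1, -⟩, -⟩
      omega
    · rw [nac_farB g4, ec]
  have t2 : ∀ x y', N * C.A 0 ≤ x → x < N * C.B 0 → -4 ≤ y' → y' < 0 →
      Tc C N h2 he (ccol C (cls C N s y)) x y' := by
    intro x y' g1 g2 g3 g4
    refine ⟨hbox x y' (by omega) (by omega) (by omega) (by omega), ?_, ?_⟩
    · rintro ⟨⟨n1, -⟩, -⟩
      omega
    · rcases eq_or_lt_of_le (show y' ≤ -1 by omega) with e | e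
      · rw [e, nac_B h4 g1 g2, ec]
      · rw [nac_farB e, ec]
  have hch := chain2 (by omega) (by omega) (by omega) (by omega) t1 t2
  have eA := mul_ev he (C.A 0)
  have hx : (if s then bx1 C N h2 he else bx0 C N h2 he) = bx1 C N h2 he ∨
      (if s then bx1 C N h2 he else bx0 C N h2 he) = bx0 C N h2 he := by
    cases s <;> simp
  constructor
  · intro W hW
    rw [ev]
    rcases hx with hx | hx <;> rw [hx]
    · exact hch.1 W hW _ _ (N * C.A 0) (-2) _ _
        (by omega) (by omega) (by omega) (by omega)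
    · exact hch.1 W hW _ _ (N * C.A 0) (-2) _ _
        (by omega) (by omega) (by omega) (by omega)
  · intro A hA
    rw [ef]
    rcases hx with hx | hx <;> rw [hx]
    · exact hch.2 A hA _ _ (N * C.A 0 + 1) (-2) _ _
        (by omega) (by omega) (by omega) (by omega)
    · exact hch.2 A hA _ _ (N * C.A 0 + 1) (-2) _ _
        (by omega) (by omega) (by omega) (by omega)

lemma link_T (h0 : N * C.H ≤ y) (h1 : y < N * C.H + 3) : Lk C N h2 he s y := by
  have hH := mul_gap (by omega : 0 < N) C.H0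
  rw [mul_zero] at hH
  have hH0 := C.H0
  have hc : cls C N s y = C.H + 1 := by
    unfold cls
    rw [if_pos h0]
  have ec : ccol C (cls C N s y) = C.CT := by
    rw [hc]; unfold ccol; rw [if_neg (by omega), if_neg (by omega), if_pos rfl]
  have ev : vP C N (cls C N s y) = (N * C.B (C.H - 1), N * C.H) := by
    rw [hc]; unfold vP; rw [if_neg (by omega), if_neg (by omega), if_pos rfl]
  have ef : fP C N (cls C N s y) = (N * C.B (C.H - 1) - 1, N * C.H) := by
    rw [hc]; unfold fP; rw [if_neg (by omega), if_neg (by omega), if_pos rfl]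
  obtain ⟨b1, b2⟩ := bx_q (C := C) (h2 := h2) (he := he) h4 (q := C.H - 1) (by omega) (by omega)
  have hab := mul_gap (by omega : 0 < N) (C.ab (C.H - 1) (by omega) (by omega))
  have hbox := inB_bx (C := C) (h2 := h2) (he := he)
  have t1 : ∀ x y', bx0 C N h2 he ≤ x → x < bx1 C N h2 he → N * C.H ≤ y' → y' < N * C.H + 3 →
      Tc C N h2 he (ccol C (cls C N s y)) x y' := by
    intro x y' g1 g2 g3 g4
    refine ⟨hbox x y' (by omega) (by omega) (by omega) (by omega), ?_, ?_⟩
    · rintro ⟨⟨-, n1⟩, -⟩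
      omega
    · rw [nac_T g3 (by omega), ec]
  have hch := chain2 (by omega) (by omega) (by omega) (by omega) t1 t1
  have eB := mul_ev he (C.B (C.H - 1))
  have eH := mul_ev he C.H
  have hx : (if s then bx1 C N h2 he else bx0 C N h2 he) = bx1 C N h2 he ∨
      (if s then bx1 C N h2 he else bx0 C N h2 he) = bx0 C N h2 he := by
    cases s <;> simp
  constructor
  · intro W hW
    rw [ev]
    rcases hx with hx | hx <;> rw [hx]
    · exact hch.1 W hW _ _ (N * C.B (C.H - 1)) (N * C.H) _ _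
        (by omega) (by omega) (by omega) (by omega)
    · exact hch.1 W hW _ _ (N * C.B (C.H - 1)) (N * C.H) _ _
        (by omega) (by omega) (by omega) (by omega)
  · intro A hA
    rw [ef]
    rcases hx with hx | hx <;> rw [hx]
    · exact hch.2 A hA _ _ (N * C.B (C.H - 1) - 1) (N * C.H) _ _
        (by omega) (by omega) (by omega) (by omega)
    · exact hch.2 A hA _ _ (N * C.B (C.H - 1) - 1) (N * C.H) _ _
        (by omega) (by omega) (by omega) (by omega)

/-- **Every row of the box is linked with its coarse side.** -/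
theorem link (h0 : -4 ≤ y) (h1 : y < N * C.H + 3) : Lk C N h2 he s y := by
  by_cases c1 : y < -1
  · exact link_B h4 h0 c1
  · by_cases c2 : N * C.H ≤ y
    · exact link_T h4 c2 h1
    · cases s
      · exact link_L h4 (by omega) (by omega)
      · exact link_R h4 (by omega) (by omega)

end link

end Pool.Agent.H33.Sp
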