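import Mathlib
import Pool.Agent.H33.Sp.Pos

set_option autoImplicit false
open Finset

/-! # Coarse sides and sides of the shape, ports -/

namespace Pool.Agent.H33.Sp

open Pool.Agent.H75.Perc hiding ph cc EE
open Pool.Agent.H75.TwoArm Pool.Agent.Q1 Pool.Agent.H33.Q1
open Pool.Agent.H69.Q1
open Pool.Agent.H33.R45 (rco rdco)
open Pool.Agent.H13.R45 (gp)
open Pool.Agent.Q1.M4 (Cell Good IsSide nextSide isSide_next PType Adj4 Conn4)
open Pool.Agent.H21.FM (Shape Wir wv ent pos_wv)
open Pool.Agent.H5.FM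
open Pool.Agent.H46.Sp (Win mm MM)
open Pool.Agent.H74.Win (natc InP InB sh_false fillc)
open Pool.Agent.H5.Q1 (oc)

lemma gp_vs {n : ℕ} {y0 x y : ℤ} : gp (x, y) + vs n y0 = gp (x, y + 2 * n * y0) := by
  have e : 2 * (n : ℤ) * y0 = 2 * (n * y0) := by ring
  rw [e]
  unfold gp vs
  refine Prod.ext ?_ ?_ <;> simp only [Prod.fst_add, Prod.snd_add] <;> omega

section

variable {S : Shape} {y0 y1 : ℤ} {a b : ℤ → ℤ} {yP yQ : ℤ} (F : RowF S.P.Q y0 y1 a b yP yQ)
  {n : ℕ}

lemma cwOf_H : (cwOf F).H = y1 - y0 := rfl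

/-- the points of a side -/
lemma pts (hn : 2 ≤ n) {i : ℕ} {X Y k x y x' y' : ℤ} (h1 : (S.P.side i).1 = (X, Y))
    (h2 : ((S.P.side i).2 - k) % 4 = 0)
    (h : (k = 0 ∧ x = 2 * n * X ∧ y = 2 * n * Y ∧ x' = x + 1 ∧ y' = y) ∨
      (k = 1 ∧ x = 2 * n * (X + 1) ∧ y = 2 * n * Y + 2 ∧ x' = x ∧ y' = y - 1) ∨
      (k = 2 ∧ x = 2 * n * (X + 1) ∧ y = 2 * n * (Y + 1) ∧ x' = x - 1 ∧ y' = y) ∨
      (k = 3 ∧ x = 2 * n * X ∧ y = 2 * n * Y + 2 ∧ x' = x ∧ y' = y - 1)) :
    (∃ j < n, wv n (S.P.side i) j = gp (x, y)) ∧ ∃ j < n, fi (ent n (S.P.side i) j) = gp (x', y') := by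
  have hv : ∀ j < n, ∀ u w, tv (wv n (S.P.side i) j) = (u, w) → wv n (S.P.side i) j = gp (u, w) := by
    intro j _ u w e
    rw [← e, (gp_tv _).1]
  have hf : ∀ j < n, ∀ u w, tv (wv n (S.P.side i) j) + dir ((S.P.side i).2 + 2 + 2) = (u, w) →
      fi (ent n (S.P.side i) j) = gp (u, w) := by
    intro j _ u w e
    rw [← e]
    unfold ent
    rw [← tf_fi_oc, (gp_tf _).1]
  have hp := fun (j : ℕ) (hj : j < n) => pos_wv (h := n) (by omega) (S.P.side i) j hj.le
  rw [h1] at hp
  simp only at hp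
  rcases h with ⟨hk, hx, hy, hx', hy'⟩ | ⟨hk, hx, hy, hx', hy'⟩ | ⟨hk, hx, hy, hx', hy'⟩ |
    ⟨hk, hx, hy, hx', hy'⟩
  · have e : dir ((S.P.side i).2 + 2 + 2) = (1, 0) := (dir0 (by omega)).1
    have h0 : tv (wv n (S.P.side i) 0) = (x, y) := by
      rcases hp 0 (by omega) with ⟨g, g'⟩ | ⟨g, g'⟩ | ⟨g, g'⟩ | ⟨g, g'⟩
      · rw [g', hx, hy]; refine Prod.ext ?_ ?_ <;> simp
      all_goals omega
    refine ⟨⟨0, by omega, hv 0 (by omega) _ _ h0⟩, 0, by omega, hf 0 (by omega) _ _ ?_⟩
    rw [h0, e, hx', hy']; refine Prod.ext ?_ ?_ <;> simp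
  · have e : dir ((S.P.side i).2 + 2 + 2) = (0, 1) := (dir1 (by omega)).1
    have h0 : tv (wv n (S.P.side i) 0) = (x, y - 2) := by
      rcases hp 0 (by omega) with ⟨g, g'⟩ | ⟨g, g'⟩ | ⟨g, g'⟩ | ⟨g, g'⟩
      · omega
      · rw [g', hx, hy]; refine Prod.ext ?_ ?_ <;> simp <;> ring
      all_goals omega
    have h1 : tv (wv n (S.P.side i) 1) = (x, y) := by
      rcases hp 1 (by omega) with ⟨g, g'⟩ | ⟨g, g'⟩ | ⟨g, g'⟩ | ⟨g, g'⟩
      · omega
      · rw [g', hx, hy]; refine Prod.ext ?_ ?_ <;> simp <;> ring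
      all_goals omega
    refine ⟨⟨1, by omega, hv 1 (by omega) _ _ h1⟩, 0, by omega, hf 0 (by omega) _ _ ?_⟩
    rw [h0, e, hx', hy']; refine Prod.ext ?_ ?_ <;> simp <;> ring
  · have e : dir ((S.P.side i).2 + 2 + 2) = (-1, 0) := (dir2 (by omega)).1
    have h0 : tv (wv n (S.P.side i) 0) = (x, y) := by
      rcases hp 0 (by omega) with ⟨g, g'⟩ | ⟨g, g'⟩ | ⟨g, g'⟩ | ⟨g, g'⟩
      · omega
      · omega
      · rw [g', hx, hy]; refine Prod.ext ?_ ?_ <;> simp <;> ring
      · omega
    refine ⟨⟨0, by omega, hv 0 (by omega) _ _ h0⟩, 0, by omega, hf 0 (by omega) _ _ ?_⟩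
    rw [h0, e, hx', hy']; refine Prod.ext ?_ ?_ <;> simp <;> ring
  · have e : dir ((S.P.side i).2 + 2 + 2) = (0, -1) := (dir3 (by omega)).1
    have hc : ((n - 1 : ℕ) : ℤ) = n - 1 := by push_cast [Nat.cast_sub (by omega : 1 ≤ n)]; ring
    have h0 : tv (wv n (S.P.side i) (n - 1)) = (x, y) := by
      rcases hp (n - 1) (by omega) with ⟨g, g'⟩ | ⟨g, g'⟩ | ⟨g, g'⟩ | ⟨g, g'⟩
      · omega
      · omega
      · omega
      · rw [g', hx, hy, hc]; refine Prod.ext ?_ ?_ <;> simp <;> ring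
    refine ⟨⟨n - 1, by omega, hv _ (by omega) _ _ h0⟩, n - 1, by omega, hf _ (by omega) _ _ ?_⟩
    rw [h0, e, hx', hy']; refine Prod.ext ?_ ?_ <;> simp <;> ring

/-- **The coarse sides are sides of the shape.** -/
theorem side_pt (hn : 2 ≤ n) {P : ℕ} (hP : P < 2 * (y1 - y0).toNat + 2) :
    ccol (cwOf F) P = wc S (idx S y0 y1 a b P) ∧
    (∃ j < n, gp (vP (cwOf F) (2 * n) P) + vs n y0 = wv n (S.P.side (idx S y0 y1 a b P)) j) ∧
    ∃ j < n, gp (fP (cwOf F) (2 * n) P) + vs n y0 = fi (ent n (S.P.side (idx S y0 y1 a b P)) j) := by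
  have h01 := F.y01
  have hH : ((y1 - y0).toNat : ℤ) = y1 - y0 := Int.toNat_of_nonneg (by omega)
  have hs := ix_spec (F.ring_side (P := P) (by omega))
  have frH : (cwOf F).H = y1 - y0 := rfl
  set i := idx S y0 y1 a b P with hi
  have hi' : ix S (rs y0 y1 a b P) = i := rfl
  rw [hi'] at hs
  obtain ⟨-, s1, s2⟩ := hs
  rcases Nat.eq_zero_or_pos P with h | h
  · subst h
    have e : rs y0 y1 a b 0 = ((a y0, y0), 0) := RowF.rs_B
    rw [e] at s1 s2
    obtain ⟨⟨j, j1, j2⟩, l, l1, l2⟩ := pts hn s1 s2 (Or.inl ⟨rfl, rfl, rfl, rfl, rfl⟩)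
    have eA : (cwOf F).A 0 = a y0 := by show a (0 + y0) = _; rw [zero_add]
    refine ⟨?_, ⟨j, j1, ?_⟩, l, l1, ?_⟩
    · unfold ccol
      rw [if_pos (by simp)]
      show wc S (ix S ((a y0, y0), 0)) = _
      rw [← hi', e]
    · rw [j2]
      unfold vP
      rw [if_pos (by simp), eA, gp_vs, zero_add]
    · rw [l2]
      unfold fP
      rw [if_pos (by simp), eA, gp_vs, zero_add]
  rcases lt_trichotomy P ((y1 - y0).toNat + 1) with g | g | g
  · obtain ⟨Y, hY⟩ : ∃ Y : ℤ, (P : ℤ) = Y + 1 := ⟨P - 1, by ring⟩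
    have e : rs y0 y1 a b P = ((b (Y + y0) - 1, Y + y0), 1) := by
      unfold rs
      rw [if_neg (by omega), if_pos (by omega), hY]
      rw [show y0 + (Y + 1) - 1 = Y + y0 by ring]
    rw [e] at s1 s2
    obtain ⟨⟨j, j1, j2⟩, l, l1, l2⟩ := pts hn s1 s2 (Or.inr (Or.inl ⟨rfl, rfl, rfl, rfl, rfl⟩))
    have eB : (cwOf F).B Y = b (Y + y0) := rfl
    refine ⟨?_, ⟨j, j1, ?_⟩, l, l1, ?_⟩
    · unfold ccol
      rw [if_neg (by omega), if_pos (by omega), hY, add_sub_cancel_right]
      show wc S (ix S ((b (Y + y0) - 1, Y + y0), 1)) = _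
      rw [← hi', e]
    · rw [j2]
      unfold vP
      rw [if_neg (by omega), if_pos (by omega), hY, add_sub_cancel_right, gp_vs, eB]
      congr 2
      · ring
      · ring
    · rw [l2]
      unfold fP
      rw [if_neg (by omega), if_pos (by omega), hY, add_sub_cancel_right, gp_vs, eB]
      congr 2
      · ring
      · ring
  · have e : rs y0 y1 a b P = ((b (y1 - 1) - 1, y1 - 1), 2) := by rw [g]; exact RowF.rs_T
    rw [e] at s1 s2
    obtain ⟨⟨j, j1, j2⟩, l, l1, l2⟩ := pts hn s1 s2 (Or.inr (Or.inr (Or.inl ⟨rfl, rfl, rfl, rfl, rfl⟩)))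
    have eB : (cwOf F).B (y1 - y0 - 1) = b (y1 - 1) := by
      show b (y1 - y0 - 1 + y0) = _; congr 1; ring
    refine ⟨?_, ⟨j, j1, ?_⟩, l, l1, ?_⟩
    · unfold ccol
      rw [if_neg (by omega), if_neg (by omega), if_pos (by omega)]
      show wc S (ix S ((b (y1 - 1) - 1, y1 - 1), 2)) = _
      rw [← hi', e]
    · rw [j2]
      unfold vP
      rw [if_neg (by omega), if_neg (by omega), if_pos (by omega), frH, gp_vs, eB]
      congr 2
      · ring
      · ring
    · rw [l2]
      unfold fP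
      rw [if_neg (by omega), if_neg (by omega), if_pos (by omega), frH, gp_vs, eB]
      congr 2
      · ring
      · ring
  · obtain ⟨Y, hY⟩ : ∃ Y : ℤ, (P : ℤ) = 2 * (y1 - y0) + 1 - Y := ⟨2 * (y1 - y0) + 1 - P, by ring⟩
    have e : rs y0 y1 a b P = ((a (Y + y0), Y + y0), 3) := by
      unfold rs
      rw [if_neg (by omega), if_neg (by omega), if_neg (by omega), if_pos (by omega), hY, hH]
      rw [show y0 + 2 * (y1 - y0) + 1 - (2 * (y1 - y0) + 1 - Y) = Y + y0 by ring]
    rw [e] at s1 s2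
    obtain ⟨⟨j, j1, j2⟩, l, l1, l2⟩ := pts hn s1 s2 (Or.inr (Or.inr (Or.inr ⟨rfl, rfl, rfl, rfl, rfl⟩)))
    have eA : (cwOf F).A Y = a (Y + y0) := rfl
    refine ⟨?_, ⟨j, j1, ?_⟩, l, l1, ?_⟩
    · unfold ccol
      rw [if_neg (by omega), if_neg (by omega), if_neg (by omega), hY, frH, sub_sub_cancel]
      show wc S (ix S ((a (Y + y0), Y + y0), 3)) = _
      rw [← hi', e]
    · rw [j2]
      unfold vP
      rw [if_neg (by omega), if_neg (by omega), if_neg (by omega), hY, frH, sub_sub_cancel, gp_vs, eA]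
      congr 2
      ring
    · rw [l2]
      unfold fP
      rw [if_neg (by omega), if_neg (by omega), if_neg (by omega), hY, frH, sub_sub_cancel, gp_vs, eA]
      congr 2
      ring

end

/-! ### Port rows -/

section port

variable {C : CW} {N : ℤ} {P : ℤ}

/-- the last row (counterclockwise) of the coarse side `P` -/
def prow (C : CW) (N P : ℤ) : Bool × ℤ := if P = 0 then (true, -2)
  else if P ≤ C.H then (true, if P - 1 < C.YQ then N * P - 2 else N * P - 1)
  else if P = C.H + 1 then (false, N * C.H)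
  else (false, if 2 * C.H + 1 - P < C.YP then N * (2 * C.H + 1 - P) - 1 else N * (2 * C.H + 1 - P))

/-- the next row (counterclockwise) -/
def frow (X : Bool × ℤ) : ℤ := if X.1 then X.2 + 1 else X.2 - 1

lemma cls_top (s : Bool) {y : ℤ} (h : N * C.H ≤ y) : cls C N s y = C.H + 1 := by unfold cls; rw [if_pos h]

lemma cls_bot (s : Bool) {y : ℤ} (h : ¬ N * C.H ≤ y) (h' : y < -1) : cls C N s y = 0 := by
  unfold cls; rw [if_neg h, if_pos h']

lemma cls_R {y : ℤ} (h : ¬ N * C.H ≤ y) (h' : ¬ y < -1) : cls C N true y = qR C N y + 1 := by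
  unfold cls; rw [if_neg h, if_neg h']; rfl

lemma cls_L {y : ℤ} (h : ¬ N * C.H ≤ y) (h' : ¬ y < -1) : cls C N false y = 2 * C.H + 1 - qL C N y := by
  unfold cls; rw [if_neg h, if_neg h']; rfl

/-- **The port row.** -/
theorem prow_spec (h4 : 4 ≤ N) (h0 : 0 ≤ P) (h1 : P ≤ 2 * C.H + 1) :
    (-4 ≤ (prow C N P).2 ∧ (prow C N P).2 < N * C.H + 3 ∧ -4 ≤ frow (prow C N P) ∧
      frow (prow C N P) < N * C.H + 3) ∧
    cls C N (prow C N P).1 (prow C N P).2 = P ∧
    cls C N (prow C N P).1 (frow (prow C N P)) = if P = 2 * C.H + 1 then 0 else P + 1 := by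
  have hH0 := C.H0
  have hP0 := C.P0
  have hP1 := C.P1
  have hQ0 := C.Q0
  have hQ1 := C.Q1
  have kH := mul_gap (by omega : 0 < N) C.H0
  have kP := mul_gap (by omega : 0 < N) C.P0
  have kPH := mul_mon (by omega : 0 < N) hP1
  have kQ := mul_mon (by omega : 0 < N) hQ0
  have kQH := mul_gap (by omega : 0 < N) hQ1
  rw [mul_zero] at kH kP kQ
  unfold frow prow
  by_cases c1 : P = 0
  · rw [if_pos c1]
    simp only [if_true]
    have e0 : (0 : ℤ) / N = 0 := Int.zero_ediv N
    refine ⟨by omega, ?_, ?_⟩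
    · rw [cls_bot _ (by omega) (by norm_num), c1]
    · rw [cls_R (by omega) (by norm_num), if_neg (by omega), c1]
      unfold qR
      rw [if_pos (by omega), show (-2 : ℤ) + 1 + 1 = 0 by norm_num, e0]
  rw [if_neg c1]
  by_cases c2 : P ≤ C.H
  · rw [if_pos c2]
    simp only [if_true]
    have m1 := mul_mon (by omega : 0 < N) (show 1 ≤ P by omega)
    have m2 := mul_mon (by omega : 0 < N) c2
    rw [mul_one] at m1
    have d1 : (N * P - 1) / N = P - 1 := by
      rw [show N * P - 1 = N * (P - 1) + (N - 1) by ring, qr_div (by omega) (by omega)]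
    have d2 : N * P / N = P := by
      have := qr_div (N := N) (q := P) (r := 0) le_rfl (by omega)
      rwa [add_zero] at this
    by_cases c3 : P - 1 < C.YQ
    · rw [if_pos c3]
      have m3 := mul_mon (by omega : 0 < N) (show P ≤ C.YQ by omega)
      refine ⟨by omega, ?_, ?_⟩
      · rw [cls_R (by omega) (by omega)]
        unfold qR
        rw [if_pos (by omega), show N * P - 2 + 1 = N * P - 1 by ring, d1]
        ring
      · rw [cls_R (by omega) (by omega), if_neg (by omega)]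
        unfold qR
        rw [if_pos (by omega), show N * P - 2 + 1 + 1 = N * P by ring, d2]
    · rw [if_neg c3]
      have m3 := mul_gap (by omega : 0 < N) (show C.YQ < P by omega)
      refine ⟨by omega, ?_, ?_⟩
      · rw [cls_R (by omega) (by omega)]
        unfold qR
        rw [if_neg (by omega), d1]
        ring
      · rw [if_neg (by omega), sub_add_cancel]
        rcases eq_or_lt_of_le c2 with e | e
        · rw [cls_top _ (by rw [e]), e]
        · have m4 := mul_gap (by omega : 0 < N) e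
          rw [cls_R (by omega) (by omega)]
          unfold qR
          rw [if_neg (by omega), d2]
  rw [if_neg c2]
  by_cases c3 : P = C.H + 1
  · rw [if_pos c3]
    simp only [Bool.false_eq_true, if_false]
    refine ⟨by omega, ?_, ?_⟩
    · rw [cls_top _ le_rfl, c3]
    · rw [cls_L (by omega) (by omega), if_neg (by omega)]
      unfold qL
      have d1 : (N * C.H - 1) / N = C.H - 1 := by
        rw [show N * C.H - 1 = N * (C.H - 1) + (N - 1) by ring, qr_div (by omega) (by omega)]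
      rw [if_neg (by omega), d1, c3]
      ring
  rw [if_neg c3]
  simp only [Bool.false_eq_true, if_false]
  obtain ⟨q, hq⟩ : ∃ q, 2 * C.H + 1 - P = q := ⟨_, rfl⟩
  rw [hq]
  have q0 : 0 ≤ q := by omega
  have q1 : q < C.H := by omega
  have m1 := mul_mon (by omega : 0 < N) q0
  have m2 := mul_gap (by omega : 0 < N) q1
  rw [mul_zero] at m1
  have d1 : (N * q - 1) / N = q - 1 := by
    rw [show N * q - 1 = N * (q - 1) + (N - 1) by ring, qr_div (by omega) (by omega)]
  have d2 : N * q / N = q := by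
    have := qr_div (N := N) (q := q) (r := 0) le_rfl (by omega)
    rwa [add_zero] at this
  by_cases c4 : q < C.YP
  · rw [if_pos c4]
    have m3 := mul_gap (by omega : 0 < N) c4
    refine ⟨by omega, ?_, ?_⟩
    · rw [cls_L (by omega) (by omega)]
      unfold qL
      rw [if_pos (by omega), sub_add_cancel, d2]
      omega
    · rcases eq_or_lt_of_le q0 with e | e
      · rw [cls_bot _ (by omega) (by rw [← e, mul_zero]; norm_num), if_pos (by omega)]
      · have m4 := mul_gap (by omega : 0 < N) e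
        rw [mul_zero] at m4
        rw [cls_L (by omega) (by omega), if_neg (by omega)]
        unfold qL
        rw [if_pos (by omega), show N * q - 1 - 1 + 1 = N * q - 1 by ring, d1]
        omega
  · rw [if_neg c4]
    have m3 := mul_mon (by omega : 0 < N) (show C.YP ≤ q by omega)
    refine ⟨by omega, ?_, ?_⟩
    · rw [cls_L (by omega) (by omega)]
      unfold qL
      rw [if_neg (by omega), d2]
      omega
    · rw [cls_L (by omega) (by omega), if_neg (by omega)]
      unfold qL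
      rw [if_neg (by omega), d1]
      omega

end port

/-! ### The marks on the ring -/

section marks

lemma arc_mono {S : Shape} {i j : ℕ} (h : i ≤ j) : arc S i ≤ arc S j := by
  have h1 := S.h23
  have h2 := S.h34
  unfold arc
  split_ifs <;> omega

lemma arc_le {S : Shape} (i : ℕ) : arc S i ≤ 3 := by
  unfold arc
  split_ifs <;> omega

lemma arc_vals (S : Shape) : arc S 0 = 0 ∧ arc S S.m2 = 1 ∧ arc S S.m3 = 2 ∧ arc S S.P.m = 3 := by
  have h0 := S.h02
  have h1 := S.h23
  have h2 := S.h34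
  unfold arc
  refine ⟨?_, ?_, ?_, ?_⟩
  · rw [if_pos h0]
  · rw [if_neg (by omega), if_pos h1]
  · rw [if_neg (by omega), if_neg (by omega), if_pos h2]
  · rw [if_neg (by omega), if_neg (by omega), if_neg (by omega)]

variable {S : Shape} {y0 y1 : ℤ} {a b : ℤ → ℤ} {yP yQ : ℤ} (F : RowF S.P.Q y0 y1 a b yP yQ)

include F

/-- **The first and the third mark on the ring.** -/
theorem exists_marks : (∃ P < 2 * (y1 - y0).toNat + 2, arc S (idx S y0 y1 a b P) = 3 ∧
      arc S (idx S y0 y1 a b ((P + 1) % (2 * (y1 - y0).toNat + 2))) = 0) ∧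
    ∃ P < 2 * (y1 - y0).toNat + 2, arc S (idx S y0 y1 a b P) = 1 ∧
      arc S (idx S y0 y1 a b ((P + 1) % (2 * (y1 - y0).toNat + 2))) = 2 := by
  obtain ⟨s, s1, s2, s3, s4, s5⟩ := F.ring_cut
  set M := 2 * (y1 - y0).toNat + 2 with hM
  obtain ⟨v0, v1, v2, v3⟩ := arc_vals S
  have g0 := S.h02
  have g1 := S.h23
  have g2 := S.h34
  have g3 := S.m4N
  have g4 : S.m4 = S.P.m := rfl
  set u : ℕ → ℕ := fun k => idx S y0 y1 a b ((s + k) % M) with hu
  have mod1 : ∀ k, k < M → (s + k) % M = if s + k < M then s + k else s + k - M := by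
    intro k hk
    split_ifs with h
    · exact Nat.mod_eq_of_lt h
    · rw [Nat.mod_eq_sub_mod (by omega), Nat.mod_eq_of_lt (by omega)]
  have step : ∀ k, k + 1 < M → u k < u (k + 1) := by
    intro k hk
    simp only [hu]
    rw [mod1 k (by omega), mod1 (k + 1) hk]
    rcases lt_trichotomy (s + k + 1) M with h | h | h
    · rw [if_pos (by omega), if_pos (by omega)]
      exact s4 (s + k) (by omega) h
    · rw [if_pos (by omega), if_neg (by omega), show s + (k + 1) - M = 0 by omega,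
        show s + k = 2 * (y1 - y0).toNat + 1 by omega]
      exact s5 (by omega)
    · rw [if_neg (by omega), if_neg (by omega), show s + (k + 1) - M = s + k - M + 1 by omega]
      exact s3 _ (by omega)
  have mono : ∀ n k, k + n < M → u k ≤ u (k + n) := by
    intro n
    induction n with
    | zero => intro k _; exact le_rfl
    | succ n ih =>
      intro k hk
      exact (ih k (by omega)).trans (step (k + n) (by omega)).le
  have wm : ∀ k l, k ≤ l → l < M → arc S (u k) ≤ arc S (u l) := by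
    intro k l h1 h2
    have := mono (l - k) k (by omega)
    rw [show k + (l - k) = l by omega] at this
    exact arc_mono this
  have occ : ∀ i < S.N, ∃ k < M, arc S (u k) = arc S i := by
    intro i hi
    obtain ⟨P, h1, h2⟩ := F.arc_pos hi
    by_cases h3 : s ≤ P
    · refine ⟨P - s, by omega, ?_⟩
      simp only [hu]
      rw [mod1 _ (by omega), if_pos (by omega), show s + (P - s) = P by omega, h2]
    · refine ⟨P + M - s, by omega, ?_⟩
      simp only [hu]
      rw [mod1 _ (by omega), if_neg (by omega), show s + (P + M - s) - M = P by omega, h2]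
  refine ⟨⟨s - 1, by omega, ?_, ?_⟩, ?_⟩
  · obtain ⟨k, k1, k2⟩ := occ S.P.m (by omega)
    have h1 := wm k (M - 1) (by omega) (by omega)
    have h2 : u (M - 1) = idx S y0 y1 a b (s - 1) := by
      simp only [hu]
      rw [mod1 _ (by omega), if_neg (by omega), show s + (M - 1) - M = s - 1 by omega]
    have h3 := arc_le (S := S) (u (M - 1))
    rw [h2] at h1 h3
    omega
  · obtain ⟨k, k1, k2⟩ := occ 0 (by omega)
    have h1 := wm 0 k (by omega) k1
    have h2 : u 0 = idx S y0 y1 a b ((s - 1 + 1) % M) := by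
      simp only [hu]
      rw [add_zero, Nat.sub_add_cancel s1]
    rw [h2] at h1
    omega
  · classical
    obtain ⟨k1, l1, l2⟩ := occ S.m2 (by omega)
    obtain ⟨k2, l3, l4⟩ := occ S.m3 (by omega)
    have hex : ∃ k, k < M ∧ 2 ≤ arc S (u k) := ⟨k2, l3, by omega⟩
    obtain ⟨k, ⟨h1, h2⟩, h3⟩ : ∃ k, (k < M ∧ 2 ≤ arc S (u k)) ∧ ∀ j < k, ¬ (j < M ∧ 2 ≤ arc S (u j)) :=
      ⟨Nat.find hex, Nat.find_spec hex, fun j hj => Nat.find_min hex hj⟩
    have h4 : k1 < k := by
      by_contra h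
      have := wm k k1 (by omega) l1
      omega
    have h5 : k ≤ k2 := by
      by_contra h
      exact h3 k2 (by omega) ⟨l3, by omega⟩
    have h6 := wm k k2 h5 l3
    have h7 := wm k1 (k - 1) (by omega) (by omega)
    have h8 := h3 (k - 1) (by omega)
    refine ⟨(s + (k - 1)) % M, Nat.mod_lt _ (by omega), ?_, ?_⟩
    · show arc S (u (k - 1)) = 1
      omega
    · rw [Nat.mod_add_mod, show s + (k - 1) + 1 = s + k by omega]
      show arc S (u k) = 2
      omega

end marks

end Pool.Agent.H33.Sp
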