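import Mathlib
import Pool.Agent.H33.Sp.Ring

set_option autoImplicit false
open Finset

/-! # The natural window of a shape and the three environments of the shape

`X1 F n`, `X3 F n` : the ports at the first and the third mark. `nat_W0`, `nat_W34`, `nat_W12` : the
environments of the shape have the increments of `XB O (ES F n hn) (WS F n hn)`, `O = oOne D L X1`,
`oTwo D L X1 X3`, `oTwo D L X3 X1`, up to a unit and the translation `vs n y0`. -/

namespace Pool.Agent.H33.Sp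

open Pool.Agent.H75.Perc hiding ph cc EE vx_c1 vx_c3
open Pool.Agent.H75.TwoArm Pool.Agent.Q1 Pool.Agent.H33.Q1
open Pool.Agent.H69.Q1
open Pool.Agent.H33.R45 (rco rdco)
open Pool.Agent.H13.R45 (gp)
open Pool.Agent.Q1.M4 (Cell Good IsSide nextSide isSide_next PType Adj4 Conn4)
open Pool.Agent.H21.FM (Shape Wir wv ent pos_wv hug IsEnv W0 r1 r3 v1 v3 c1 c3 EE)
open Pool.Agent.H33.FM (W12 W34 same_W0 same_W34 same_W12 dco_r1c1 dco_r3c3 vx_c1 vx_c3)
open Pool.Agent.H5.FM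
open Pool.Agent.H46.Sp (Win mm MM)
open Pool.Agent.H74.Win (natc InP InB sh_false fillc XB OutB)
open Pool.Agent.Q1.M6c (PlaneEnv)

section

variable {S : Shape} {y0 y1 : ℤ} {a b : ℤ → ℤ} {yP yQ : ℤ} (F : RowF S.P.Q y0 y1 a b yP yQ)
  (n : ℕ)

/-- coarse side before the first mark -/
noncomputable def P1 : ℕ := (exists_marks F).1.choose

/-- coarse side before the third mark -/
noncomputable def P3 : ℕ := (exists_marks F).2.choose

lemma P1_spec : P1 F < 2 * (y1 - y0).toNat + 2 ∧ arc S (idx S y0 y1 a b (P1 F)) = 3 ∧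
    arc S (idx S y0 y1 a b ((P1 F + 1) % (2 * (y1 - y0).toNat + 2))) = 0 :=
  (exists_marks F).1.choose_spec

lemma P3_spec : P3 F < 2 * (y1 - y0).toNat + 2 ∧ arc S (idx S y0 y1 a b (P3 F)) = 1 ∧
    arc S (idx S y0 y1 a b ((P3 F + 1) % (2 * (y1 - y0).toNat + 2))) = 2 :=
  (exists_marks F).2.choose_spec

/-- **The port at the first mark**: the last row of the arc IV. -/
noncomputable def X1 : Bool × ℤ := prow (cwOf F) (2 * n) (P1 F)

/-- **The port at the third mark**: the last row of the arc II. -/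
noncomputable def X3 : Bool × ℤ := prow (cwOf F) (2 * n) (P3 F)

variable {F n}

/-- the row after a port -/
lemma port_cls (hn : 2 ≤ n) {P : ℕ} (hP : P < 2 * (y1 - y0).toNat + 2) :
    cls (cwOf F) (2 * n) (prow (cwOf F) (2 * n) P).1 (prow (cwOf F) (2 * n) P).2 = P ∧
    cls (cwOf F) (2 * n) (prow (cwOf F) (2 * n) P).1 (frow (prow (cwOf F) (2 * n) P)) =
      ((P + 1) % (2 * (y1 - y0).toNat + 2) : ℕ) := by
  have h01 := F.y01
  have hH : ((y1 - y0).toNat : ℤ) = y1 - y0 := Int.toNat_of_nonneg (by omega)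
  have frH : (cwOf F).H = y1 - y0 := rfl
  obtain ⟨-, h1, h2⟩ := prow_spec (C := cwOf F) (N := 2 * n) (P := P) (by omega) (by omega)
    (by rw [frH]; omega)
  refine ⟨h1, h2.trans ?_⟩
  rcases eq_or_lt_of_le (show P ≤ 2 * (y1 - y0).toNat + 1 by omega) with e | e
  · rw [if_pos (by rw [frH]; omega), e, Nat.mod_self]
    rfl
  · rw [if_neg (by rw [frH]; omega), Nat.mod_eq_of_lt (by omega)]
    push_cast
    rfl

variable {hn : 1 ≤ n}

lemma portD_prow (h2 : 2 ≤ n) {P : ℕ} (hP : P < 2 * (y1 - y0).toNat + 2) :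
    PortD (winOf F n hn) (prow (cwOf F) (2 * n) P) := by
  have h01 := F.y01
  have hH : ((y1 - y0).toNat : ℤ) = y1 - y0 := Int.toNat_of_nonneg (by omega)
  have frH : (cwOf F).H = y1 - y0 := rfl
  obtain ⟨⟨k1, k2, k3, k4⟩, -, -⟩ := prow_spec (C := cwOf F) (N := 2 * n) (P := P) (by omega) (by omega)
    (by rw [frH]; omega)
  have eh : (winOf F n hn).h = 2 * n * (cwOf F).H := rfl
  refine ⟨k1, by rw [eh]; exact k2, fun h => ?_, fun h => ?_⟩
  · unfold frow at k3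
    rw [h] at k3
    simpa using k3
  · unfold frow at k4
    rw [h] at k4
    rw [eh]
    simpa using k4

lemma portD1 (h2 : 2 ≤ n) : PortD (winOf F n hn) (X1 F n) := portD_prow h2 (P1_spec F).1
lemma portD3 (h2 : 2 ≤ n) : PortD (winOf F n hn) (X3 F n) := portD_prow h2 (P3_spec F).1

/-- **The ports are apart.** -/
lemma ap13 (h2 : 2 ≤ n) : BF.Ap (X1 F n) (X3 F n) := by
  obtain ⟨a1, a2, a3⟩ := P1_spec F
  obtain ⟨b1, b2, b3⟩ := P3_spec F
  obtain ⟨c1, c2⟩ := port_cls (F := F) h2 a1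
  obtain ⟨d1, d2⟩ := port_cls (F := F) h2 b1
  change cls _ _ (X1 F n).1 (X1 F n).2 = _ at c1
  change cls _ _ (X1 F n).1 (frow (X1 F n)) = _ at c2
  change cls _ _ (X3 F n).1 (X3 F n).2 = _ at d1
  change cls _ _ (X3 F n).1 (frow (X3 F n)) = _ at d2
  intro hs
  by_contra hcon
  rw [← hs] at d1 d2
  have key : (X3 F n).2 = (X1 F n).2 ∨ (X3 F n).2 = frow (X1 F n) ∨ (X1 F n).2 = frow (X3 F n) := by
    unfold frow
    rw [← hs]
    split_ifs <;> omega
  rcases key with e | e | e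
  · rw [e, c1] at d1
    have : P1 F = P3 F := by exact_mod_cast d1
    rw [this] at a2
    omega
  · rw [e, c2] at d1
    have : (P1 F + 1) % (2 * (y1 - y0).toNat + 2) = P3 F := by exact_mod_cast d1
    rw [this] at a3
    omega
  · rw [← e, c1] at d2
    have : P1 F = (P3 F + 1) % (2 * (y1 - y0).toNat + 2) := by exact_mod_cast d2
    rw [this] at a2
    omega

lemma Ap.symm {X Y : Bool × ℤ} (h : BF.Ap X Y) : BF.Ap Y X := fun h' => (h h'.symm).symm

/-! ### Links in the frame of the shape -/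

section links

variable {Wo : Finset (ℤ × ℤ)} {s : Bool} {y : ℤ} {P : ℕ}

/-- the tiles of the coarse window are the random tiles -/
lemma inT_iff {x y : ℤ} : inT (cwOf F) (2 * n) x y ↔ lt (x, y) ∈ ES F n hn := by
  rw [mem_ES, tl_iff F hn]
  rfl

/-- a row of a wired side -/
lemma lvS (h2 : 2 ≤ n) (h0 : -4 ≤ y) (h1 : y < (winOf F n hn).h + 3)
    (hP : P < 2 * (y1 - y0).toNat + 2) (hc : cls (cwOf F) (2 * n) s y = P)
    (hw : arc S (idx S y0 y1 a b P) % 2 = 1) {x : ℤ}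
    (hx : x = if s then (winOf F n hn).b (winOf F n hn).yQ + 4 else
      (winOf F n hn).a ((winOf F n hn).yP - 1) - 4) :
    ∃ j < n, Co (WSO F n hn Wo) (gp (x, y + (x + y) % 2) + vs n y0) (wv n (S.P.side (idx S y0 y1 a b P)) j) := by
  have hi := F.idx_lt (S := S) (P := P) (by omega)
  obtain ⟨e1, ⟨j, hj, e2⟩, -⟩ := side_pt F h2 hP
  have hcol : ccol (cwOf F) P = true := by rw [e1, wc_iff, wd_arc hi]; exact hw
  have hL := link (C := cwOf F) (N := 2 * n) (h2 := by omega) (he := by omega) (s := s) (by omega) h0 h1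
  have h3 := hL.co (WS F n hn ∪ Wo) (fun x' y' ht => by
    rw [hc, hcol] at ht
    rw [mem_union]
    left
    rw [mem_WS]
    refine ⟨ht.1, ?_, ht.2.2⟩
    rw [← mem_ES (F := F) (hn := hn), ← inT_iff (hn := hn)]
    exact ht.2.1)
  rw [hc] at h3
  refine ⟨j, hj, ?_⟩
  rw [← e2, hx]
  exact co_sh h3

/-- a row of a free side -/
lemma lfS (h2 : 2 ≤ n) (hfar : ∀ x y, lt (x, y) ∈ Wo → ¬ InB (winOf F n hn) x y)
    (h0 : -4 ≤ y) (h1 : y < (winOf F n hn).h + 3)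
    (hP : P < 2 * (y1 - y0).toNat + 2) (hc : cls (cwOf F) (2 * n) s y = P)
    (hw : arc S (idx S y0 y1 a b P) % 2 = 0) {x : ℤ}
    (hx : x = if s then (winOf F n hn).b (winOf F n hn).yQ + 4 else
      (winOf F n hn).a ((winOf F n hn).yP - 1) - 4) :
    ∃ j < n, DCo (EE S n ∪ WSO F n hn Wo) (gp (x, y + (x + y + 1) % 2) + vs n y0)
      (fi (ent n (S.P.side (idx S y0 y1 a b P)) j)) := by
  have hi := F.idx_lt (S := S) (P := P) (by omega)
  obtain ⟨e1, -, ⟨j, hj, e2⟩⟩ := side_pt F h2 hP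
  have hcol : ccol (cwOf F) P = false := by
    rw [e1, ← Bool.not_eq_true, wc_iff, wd_arc hi]; omega
  have hL := link (C := cwOf F) (N := 2 * n) (h2 := by omega) (he := by omega) (s := s) (by omega) h0 h1
  have h3 := hL.dco (ES F n hn ∪ (WS F n hn ∪ Wo)) (fun x' y' ht => by
    rw [hc, hcol] at ht
    rw [mem_union, mem_union, mem_WS]
    rintro (h | h | h)
    · exact ht.2.1 (inT_iff.2 h)
    · rw [ht.2.2] at h; exact absurd h.2.2 (by simp)
    · exact hfar _ _ h ht.1)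
  rw [hc] at h3
  refine ⟨j, hj, ?_⟩
  rw [← e2, hx]
  have h4 := dco_sh (v := vs n y0) h3
  rw [shl_union, shl_ES] at h4
  exact h4

end links

/-! ### Walls and marks -/

section walls

variable {W : Finset (ℤ × ℤ)} {i j : ℕ}

lemma arc3_range (h : arc S i = 3) : S.P.m ≤ i := by
  unfold arc at h
  split_ifs at h <;> omega

lemma arc1_range (h : arc S i = 1) : S.m2 ≤ i ∧ i < S.m3 := by
  unfold arc at h
  split_ifs at h <;> omega

lemma arc0_range (h : arc S i = 0) : i < S.m2 := by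
  unfold arc at h
  split_ifs at h <;> omega

lemma arc2_range (h : arc S i = 2) : S.m3 ≤ i ∧ i < S.P.m := by
  unfold arc at h
  split_ifs at h <;> omega

lemma co_v1 (hh : 0 < n) (hW : Wir S n W) (hi : i < S.N) (h : arc S i = 3) (hj : j < n) :
    Co W (wv n (S.P.side i) j) (v1 S n) := by
  have h1 := arc3_range h
  have h4 : S.m4 = S.P.m := rfl
  have h2 := (hug S hh).wiredE W hW i (S.N - 1) (by omega)
    (fun l h1 hl => Or.inr ⟨by omega, by omega⟩) j hj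
  rw [show S.N - 1 + 1 = S.N by omega, ← Pool.Agent.H21.FM.c1_eqN] at h2
  have h3 := Pool.Agent.H21.FM.inOrb_vx h2.inOrb
  rw [vx_c1] at h3
  unfold ent at h3
  rw [Pool.Agent.H5.Q1.vx_oc] at h3
  exact h3.symm

lemma co_v3 (hh : 0 < n) (hW : Wir S n W) (h : arc S i = 1) (hj : j < n) :
    Co W (wv n (S.P.side i) j) (v3 S n) := by
  have h1 := arc1_range h
  have h2 := (hug S hh).wiredE W hW i (S.m3 - 1) (by omega)
    (fun l h1 hl => Or.inl ⟨by omega, by omega⟩) j hj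
  rw [show S.m3 - 1 + 1 = S.m3 by omega] at h2
  have h3 := Pool.Agent.H21.FM.inOrb_vx h2.inOrb
  change Co W (vx (c3 S n)) _ at h3
  rw [vx_c3] at h3
  unfold ent at h3
  rw [Pool.Agent.H5.Q1.vx_oc] at h3
  exact h3.symm

lemma dco_f1 (hh : 0 < n) (hW : Wir S n W) (h : arc S i = 0) (hj : j < n) :
    DCo (EE S n ∪ W) (fi (ent n (S.P.side i) j)) (fi (r1 S n)) := by
  have h1 := arc0_range h
  have h2 := (hug S hh).freeE W hW 0 i (by omega) (fun l h1 hl => Or.inl (by omega)) j hj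
  exact (Pool.Agent.H21.FM.inOrb_fi h2.inOrb).symm.trans (dco_r1c1 hh hW).symm

lemma dco_f3 (hh : 0 < n) (hW : Wir S n W) (h : arc S i = 2) (hj : j < n) :
    DCo (EE S n ∪ W) (fi (ent n (S.P.side i) j)) (fi (r3 S n)) := by
  have h1 := arc2_range h
  have h4 : S.m4 = S.P.m := rfl
  have h2 := (hug S hh).freeE W hW S.m3 i (by omega) (fun l h1 hl => Or.inr ⟨by omega, by omega⟩) j hj
  exact (Pool.Agent.H21.FM.inOrb_fi h2.inOrb).symm.trans (dco_r3c3 hh hW).symm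

end walls

/-! ### Ports and marks -/

section ports

variable {Wo : Finset (ℤ × ℤ)} {L : ℤ} {hL : 2 ≤ L} {Z : Bool × ℤ}

lemma frow_range {P : ℕ} (h2 : 2 ≤ n) (hP : P < 2 * (y1 - y0).toNat + 2) :
    -4 ≤ (prow (cwOf F) (2 * n) P).2 ∧ (prow (cwOf F) (2 * n) P).2 < (winOf F n hn).h + 3 ∧
    -4 ≤ frow (prow (cwOf F) (2 * n) P) ∧ frow (prow (cwOf F) (2 * n) P) < (winOf F n hn).h + 3 := by
  have h01 := F.y01
  have frH : (cwOf F).H = y1 - y0 := rfl
  exact (prow_spec (C := cwOf F) (N := 2 * n) (P := P) (by omega) (by omega) (by rw [frH]; omega)).1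

lemma co_nv (h2 : 2 ≤ n) {P : ℕ} (hP : P < 2 * (y1 - y0).toNat + 2)
    (hw : arc S (idx S y0 y1 a b P) % 2 = 1) :
    ∃ j < n, Co (WSO F n hn Wo) ((bfD (winOf F n hn) L hL Z).nv ((bfD (winOf F n hn) L hL Z).pos
      (prow (cwOf F) (2 * n) P)) + vs n y0) (wv n (S.P.side (idx S y0 y1 a b P)) j) := by
  obtain ⟨a1, a2, -, -⟩ := frow_range (F := F) (hn := hn) h2 hP
  have hp := isP_bf (L := L) (hL := hL) (X' := Z) (portD_prow (F := F) (hn := hn) h2 hP)
  unfold BF.nv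
  rw [BF.px_pos hp, BF.py_pos hp]
  exact lvS h2 a1 a2 hP (port_cls (F := F) h2 hP).1 hw rfl

lemma dco_nd (h2 : 2 ≤ n) (hfar : ∀ x y, lt (x, y) ∈ Wo → ¬ InB (winOf F n hn) x y) {P : ℕ}
    (hP : P < 2 * (y1 - y0).toNat + 2)
    (hw : arc S (idx S y0 y1 a b ((P + 1) % (2 * (y1 - y0).toNat + 2))) % 2 = 0) :
    ∃ j < n, DCo (EE S n ∪ WSO F n hn Wo) ((bfD (winOf F n hn) L hL Z).nd
      ((bfD (winOf F n hn) L hL Z).pos (prow (cwOf F) (2 * n) P) + 1) + vs n y0)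
      (fi (ent n (S.P.side (idx S y0 y1 a b ((P + 1) % (2 * (y1 - y0).toNat + 2)))) j)) := by
  obtain ⟨-, -, a1, a2⟩ := frow_range (F := F) (hn := hn) h2 hP
  have hp := isP_bf (L := L) (hL := hL) (X' := Z) (portD_prow (F := F) (hn := hn) h2 hP)
  rw [BF.nd_succ hp]
  exact lfS h2 hfar a1 a2 (Nat.mod_lt _ (by omega)) (port_cls (F := F) h2 hP).2 hw rfl

variable {W : Finset (ℤ × ℤ)}

lemma co_X1 (h2 : 2 ≤ n) (hW : Wir S n (WSO F n hn Wo)) : Co (WSO F n hn Wo)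
    ((bfD (winOf F n hn) L hL Z).nv ((bfD (winOf F n hn) L hL Z).pos (X1 F n)) + vs n y0) (v1 S n) := by
  obtain ⟨a1, a2, a3⟩ := P1_spec F
  obtain ⟨j, hj, h⟩ := co_nv (F := F) (hn := hn) (Wo := Wo) (L := L) (hL := hL) (Z := Z) h2 a1 (by omega)
  exact h.trans (co_v1 (by omega) hW (F.idx_lt (by omega)) a2 hj)

lemma co_X3 (h2 : 2 ≤ n) (hW : Wir S n (WSO F n hn Wo)) : Co (WSO F n hn Wo)
    ((bfD (winOf F n hn) L hL Z).nv ((bfD (winOf F n hn) L hL Z).pos (X3 F n)) + vs n y0) (v3 S n) := by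
  obtain ⟨a1, a2, a3⟩ := P3_spec F
  obtain ⟨j, hj, h⟩ := co_nv (F := F) (hn := hn) (Wo := Wo) (L := L) (hL := hL) (Z := Z) h2 a1 (by omega)
  exact h.trans (co_v3 (by omega) hW a2 hj)

lemma dco_X1 (h2 : 2 ≤ n) (hfar : ∀ x y, lt (x, y) ∈ Wo → ¬ InB (winOf F n hn) x y)
    (hW : Wir S n (WSO F n hn Wo)) : DCo (EE S n ∪ WSO F n hn Wo)
    ((bfD (winOf F n hn) L hL Z).nd ((bfD (winOf F n hn) L hL Z).pos (X1 F n) + 1) + vs n y0)
      (fi (r1 S n)) := by
  obtain ⟨a1, a2, a3⟩ := P1_spec F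
  obtain ⟨j, hj, h⟩ := dco_nd (F := F) (hn := hn) (Wo := Wo) (L := L) (hL := hL) (Z := Z) h2 hfar a1
    (by omega)
  exact h.trans (dco_f1 (by omega) hW a3 hj)

lemma dco_X3 (h2 : 2 ≤ n) (hfar : ∀ x y, lt (x, y) ∈ Wo → ¬ InB (winOf F n hn) x y)
    (hW : Wir S n (WSO F n hn Wo)) : DCo (EE S n ∪ WSO F n hn Wo)
    ((bfD (winOf F n hn) L hL Z).nd ((bfD (winOf F n hn) L hL Z).pos (X3 F n) + 1) + vs n y0)
      (fi (r3 S n)) := by
  obtain ⟨a1, a2, a3⟩ := P3_spec F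
  obtain ⟨j, hj, h⟩ := dco_nd (F := F) (hn := hn) (Wo := Wo) (L := L) (hL := hL) (Z := Z) h2 hfar a1
    (by omega)
  exact h.trans (dco_f3 (by omega) hW a3 hj)

/-- from the large box to the random labels of the shape -/
lemma dco_down {f g : ℤ × ℤ} (h : DCo (Pool.Agent.H74.Win.GB (winOf F n hn) ∪ (WS F n hn ∪ Wo)) f g) :
    DCo (EE S n ∪ WSO F n hn Wo) (f + vs n y0) (g + vs n y0) := by
  have h4 := dco_sh (v := vs n y0) (h.anti (union_subset_union_left ES_sub))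
  rw [shl_union, shl_ES] at h4
  exact h4

end ports

end

lemma BF.pos_succ_ne {B : BF} {X Y : Bool × ℤ} (hX : B.IsP X) (hY : B.IsP Y) (hA : BF.Ap X Y) :
    B.pos Y + 1 ≠ B.pos X := by
  obtain ⟨a1, a2, a3, a4⟩ := hX
  obtain ⟨c1, c2, c3, c4⟩ := hY
  unfold BF.Ap at hA
  unfold BF.pos BF.N
  have b2 := B.hy
  rcases hs : X.1 with _ | _ <;> rcases ht : Y.1 with _ | _ <;>
    simp only [hs, ht, Bool.false_eq_true, Bool.true_eq_false, if_false, if_true, true_implies] at hA c3 c4 a3 a4 ⊢ <;>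
    omega

lemma le2 {n : ℕ} (h : 2 ≤ n) : 1 ≤ n := le_trans one_le_two h

section main

variable {S : Shape} {y0 y1 : ℤ} {a b : ℤ → ℤ} {yP yQ : ℤ} (F : RowF S.P.Q y0 y1 a b yP yQ)
  (n : ℕ) (h2 : 2 ≤ n) (L : ℤ) (hL : 2 ≤ L)

/-- **Type X** -/
noncomputable def oX : OutB (winOf F n (le2 h2)) := oOne (winOf F n (le2 h2)) L hL (X1 F n) (portD1 h2)

/-- **Type Y**, root at the first mark -/
noncomputable def oY1 : OutB (winOf F n (le2 h2)) :=
  oTwo (winOf F n (le2 h2)) L hL (X1 F n) (X3 F n) (portD1 h2) (portD3 h2)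

/-- **Type Y**, root at the third mark -/
noncomputable def oY3 : OutB (winOf F n (le2 h2)) :=
  oTwo (winOf F n (le2 h2)) L hL (X3 F n) (X1 F n) (portD3 h2) (portD1 h2)

/-- the natural environment of the shape in the frame of the window, with the outside `O` -/
noncomputable def XS (O : OutB (winOf F n (le2 h2))) : Env :=
  XB O (ES F n (le2 h2)) (WS F n (le2 h2)) ES_sub WS_sub ES_disj

variable {F n h2 L hL}

lemma oX_odd : ∀ e ∈ (oX F n h2 L hL).Wo, (e.1 + e.2) % 2 = 1 := fun _ he => BF.odd_LS he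
lemma oY1_odd : ∀ e ∈ (oY1 F n h2 L hL).Wo, (e.1 + e.2) % 2 = 1 := fun _ he => BF.odd_LS he
lemma oY3_odd : ∀ e ∈ (oY3 F n h2 L hL).Wo, (e.1 + e.2) % 2 = 1 := fun _ he => BF.odd_LS he

lemma oX_wir : Wir S n (WSO F n (le2 h2) (oX F n h2 L hL).Wo) := wir_nat h2 oX_odd (oX F n h2 L hL).far
lemma oY1_wir : Wir S n (WSO F n (le2 h2) (oY1 F n h2 L hL).Wo) :=
  wir_nat h2 oY1_odd (oY1 F n h2 L hL).far
lemma oY3_wir : Wir S n (WSO F n (le2 h2) (oY3 F n h2 L hL).Wo) :=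
  wir_nat h2 oY3_odd (oY3 F n h2 L hL).far

lemma oX_root : Co (WSO F n (le2 h2) (oX F n h2 L hL).Wo) (vx (oX F n h2 L hL).c0 + vs n y0) (v1 S n) ∧
    DCo (EE S n ∪ WSO F n (le2 h2) (oX F n h2 L hL).Wo) (fi (oX F n h2 L hL).c0 + vs n y0) (fi (r1 S n)) := by
  constructor
  · have h3 := co_oOne (D := winOf F n (le2 h2)) (L := L) (hL := hL) (portD1 h2)
    have h4 := co_sh (v := vs n y0) (h3.mono (subset_union_right (s₁ := WS F n (le2 h2))))
    exact h4.trans (co_X1 h2 (oX_wir (h2 := h2)))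
  · exact (dco_down (dco_oOne (L := L) (hL := hL) (portD1 h2) WS_sub)).trans
      (dco_X1 h2 (oX F n h2 L hL).far (oX_wir (h2 := h2)))

lemma oX_typ : DCo (EE S n ∪ WSO F n (le2 h2) (oX F n h2 L hL).Wo) (fi (r1 S n)) (fi (r3 S n)) := by
  have p1 := isP_bf (L := L) (hL := hL) (X' := X1 F n) (portD1 (F := F) (hn := le2 h2) h2)
  have p3 := isP_bf (L := L) (hL := hL) (X' := X1 F n) (portD3 (F := F) (hn := le2 h2) h2)
  have r1 := BF.pos_range p1
  have r3 := BF.pos_range p3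
  have hF := fx_oOne (L := L) (hL := hL) (portD1 (F := F) (hn := le2 h2) h2) WS_sub
  have hj := hF.join (C := fun r => r = (bfD (winOf F n (le2 h2)) L hL (X1 F n)).pos (X1 F n))
    rfl (show 0 ≤ (bfD (winOf F n (le2 h2)) L hL (X1 F n)).pos (X1 F n) + 1 by omega)
    r1.2 (by omega)
    (show 0 ≤ (bfD (winOf F n (le2 h2)) L hL (X1 F n)).pos (X3 F n) + 1 by omega) r3.2
    (BF.pos_succ_ne p1 p3 (ap13 h2))
  rw [GB_bf] at hj
  exact ((dco_X1 h2 (oX F n h2 L hL).far (oX_wir (h2 := h2))).symm.trans (dco_down hj)).trans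
    (dco_X3 h2 (oX F n h2 L hL).far (oX_wir (h2 := h2)))

lemma oY1_root : Co (WSO F n (le2 h2) (oY1 F n h2 L hL).Wo) (vx (oY1 F n h2 L hL).c0 + vs n y0) (v1 S n) ∧
    DCo (EE S n ∪ WSO F n (le2 h2) (oY1 F n h2 L hL).Wo) (fi (oY1 F n h2 L hL).c0 + vs n y0)
      (fi (r1 S n)) := by
  constructor
  · have h3 := co_oTwo (D := winOf F n (le2 h2)) (L := L) (hL := hL) (portD1 h2) (portD3 h2)
    have h4 := co_sh (v := vs n y0) (h3.mono (subset_union_right (s₁ := WS F n (le2 h2))))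
    exact h4.trans (co_X1 h2 (oY1_wir (h2 := h2)))
  · exact (dco_down (dco_oTwo (L := L) (hL := hL) (portD1 h2) (portD3 h2) (ap13 h2) WS_sub)).trans
      (dco_X1 h2 (oY1 F n h2 L hL).far (oY1_wir (h2 := h2)))

lemma oY1_typ : Co (WSO F n (le2 h2) (oY1 F n h2 L hL).Wo) (v1 S n) (v3 S n) := by
  have hF := fy_oTwo (L := L) (hL := hL) (portD1 (F := F) (hn := le2 h2) h2) (portD3 h2)
    (ap13 h2) WS_sub
  exact ((co_X1 h2 (oY1_wir (h2 := h2))).symm.trans (co_sh hF.co)).trans (co_X3 h2 (oY1_wir (h2 := h2)))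

lemma oY3_root : Co (WSO F n (le2 h2) (oY3 F n h2 L hL).Wo) (vx (oY3 F n h2 L hL).c0 + vs n y0) (v3 S n) ∧
    DCo (EE S n ∪ WSO F n (le2 h2) (oY3 F n h2 L hL).Wo) (fi (oY3 F n h2 L hL).c0 + vs n y0)
      (fi (r3 S n)) := by
  constructor
  · have h3 := co_oTwo (D := winOf F n (le2 h2)) (L := L) (hL := hL) (portD3 h2) (portD1 h2)
    have h4 := co_sh (v := vs n y0) (h3.mono (subset_union_right (s₁ := WS F n (le2 h2))))
    exact h4.trans (co_X3 h2 (oY3_wir (h2 := h2)))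
  · exact (dco_down (dco_oTwo (L := L) (hL := hL) (portD3 h2) (portD1 h2) (Ap.symm (ap13 h2)) WS_sub)).trans
      (dco_X3 h2 (oY3 F n h2 L hL).far (oY3_wir (h2 := h2)))

lemma oY3_typ : Co (WSO F n (le2 h2) (oY3 F n h2 L hL).Wo) (v1 S n) (v3 S n) := by
  have hF := fy_oTwo (L := L) (hL := hL) (portD3 (F := F) (hn := le2 h2) h2) (portD1 h2)
    (Ap.symm (ap13 h2)) WS_sub
  exact ((co_X1 h2 (oY3_wir (h2 := h2))).symm.trans (co_sh hF.co).symm).trans (co_X3 h2 (oY3_wir (h2 := h2)))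

/-! ### The identities -/

/-- the environment in the frame of the shape is a plane environment -/
lemma pXS (O : OutB (winOf F n (le2 h2))) (hodd : ∀ e ∈ O.Wo, (e.1 + e.2) % 2 = 1) :
    PlaneEnv (shX (vs n y0) (XS F n h2 O)) (WSO F n (le2 h2) O.Wo) := by
  have ho : ∀ e ∈ WS F n (le2 h2) ∪ O.Wo, (e.1 + e.2) % 2 = 1 := by
    intro e he
    rw [mem_union] at he
    rcases he with he | he
    · exact WS_odd he
    · exact hodd e he
  have h : PlaneEnv (XS F n h2 O) (WS F n (le2 h2) ∪ O.Wo) := by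
    unfold XS XB
    exact M6c.planeEnv_plane ho
  exact planeEnv_sh h

lemma eXS (O : OutB (winOf F n (le2 h2))) :
    (shX (vs n y0) (XS F n h2 O)).E = EE S n := shl_ES

lemma lab_shc {c v : ℤ × ℤ} : lab (shc v c) = ((lab c).1 + 2 * v.1, (lab c).2 + 2 * v.2) ∧
    plab (shc v c) = ((plab c).1 + 2 * v.1, (plab c).2 + 2 * v.2) := by
  unfold lab plab shc
  constructor <;> simp only <;> split_ifs <;> refine Prod.ext ?_ ?_ <;> simp only <;> omega

lemma mem_EE_shc {c : ℤ × ℤ} (hc : lab c ∈ ES F n (le2 h2) ∨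
    plab c ∈ ES F n (le2 h2)) :
    lab (shc (vs n y0) c) ∈ EE S n ∨ plab (shc (vs n y0) c) ∈ EE S n := by
  have e : EE S n = shl (vs n y0) (ES F n (le2 h2)) := shl_ES.symm
  rw [e, lab_shc.1, lab_shc.2, mem_shl', mem_shl']
  exact hc

/-- **The environment of the shape with two disconnected wired arcs.** -/
theorem nat_W0 (hn4 : 4 ≤ n) {X : Env} (hX : IsEnv S n (W0 S n) (r1 S n) (S.k 0 + 1) X) :
    ∃ κ : ℤ, ∀ c, (lab c ∈ ES F n (le2 h2) ∨ plab c ∈ ES F n (le2 h2)) →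
      (XS F n h2 (oX F n h2 L hL)).inc c = ph κ * X.inc (shc (vs n y0) c) := by
  obtain ⟨κ, hκ⟩ := same_W0 hn4 (oX_wir (h2 := h2)) hX (pXS (oX F n h2 L hL) oX_odd) (eXS _) (oX_typ (h2 := h2))
    (by rw [shX_c0, vx_shc]; exact oX_root.1) (by rw [shX_c0, fi_shc]; exact oX_root.2)
  refine ⟨κ, fun c hc => ?_⟩
  rw [← inc_sh (v := vs n y0), hκ _ (mem_EE_shc (h2 := h2) hc)]

/-- **The environment of the shape with connected wired arcs, root at the first mark.** -/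
theorem nat_W34 (hn4 : 4 ≤ n) {X : Env} (hX : IsEnv S n (W34 S n) (r1 S n) (S.k 0 + 1) X) :
    ∃ κ : ℤ, ∀ c, (lab c ∈ ES F n (le2 h2) ∨ plab c ∈ ES F n (le2 h2)) →
      (XS F n h2 (oY1 F n h2 L hL)).inc c = ph κ * X.inc (shc (vs n y0) c) := by
  obtain ⟨κ, hκ⟩ := same_W34 hn4 (oY1_wir (h2 := h2)) hX (pXS (oY1 F n h2 L hL) oY1_odd) (eXS _) (oY1_typ (h2 := h2))
    (by rw [shX_c0, vx_shc]; exact oY1_root.1) (by rw [shX_c0, fi_shc]; exact oY1_root.2)
  refine ⟨κ, fun c hc => ?_⟩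
  rw [← inc_sh (v := vs n y0), hκ _ (mem_EE_shc (h2 := h2) hc)]

/-- **The environment of the shape with connected wired arcs, root at the third mark.** -/
theorem nat_W12 (hn4 : 4 ≤ n) {X : Env} (hX : IsEnv S n (W12 S n) (r3 S n) (S.k S.m3 + 1) X) :
    ∃ κ : ℤ, ∀ c, (lab c ∈ ES F n (le2 h2) ∨ plab c ∈ ES F n (le2 h2)) →
      (XS F n h2 (oY3 F n h2 L hL)).inc c = ph κ * X.inc (shc (vs n y0) c) := by
  obtain ⟨κ, hκ⟩ := same_W12 hn4 (oY3_wir (h2 := h2)) hX (pXS (oY3 F n h2 L hL) oY3_odd) (eXS _) (oY3_typ (h2 := h2))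
    (by rw [shX_c0, vx_shc]; exact oY3_root.1) (by rw [shX_c0, fi_shc]; exact oY3_root.2)
  refine ⟨κ, fun c hc => ?_⟩
  rw [← inc_sh (v := vs n y0), hκ _ (mem_EE_shc (h2 := h2) hc)]

end main

end Pool.Agent.H33.Sp
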