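import Mathlib
import Pool.Agent.H33.Sp.NatId
import Pool.Agent.H5.FM.Ring3
import Pool.Agent.H13.Sp.RingA
import Pool.Agent.H74.Win.StripR

set_option autoImplicit false
open Finset

/-! # The marks of the window of a shape

`prow_of` : a row is the port row of its coarse side if the next row belongs to another side. `marksD` : the
wired rows of the large box of `winOf F n hn` with a free next row are the two ports `X1 F n`, `X3 F n`.
`rootB_one`, `rootB_two` : the root is away from the large box. -/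

namespace Pool.Agent.H33.Sp

open Pool.Agent.H75.Perc hiding ph cc EE vx_c1 vx_c3
open Pool.Agent.H75.TwoArm Pool.Agent.Q1 Pool.Agent.H33.Q1
open Pool.Agent.H69.Q1
open Pool.Agent.H13.R45 (gp)
open Pool.Agent.H21.FM (Shape)
open Pool.Agent.H5.FM
open Pool.Agent.H46.Sp (Win)
open Pool.Agent.H74.Win (cLf cRt RootB)
open Pool.Agent.H13.Sp (WFc)

section rows

variable {C : CW} {N : ℤ} {y P : ℤ}

/-- the quotient changes only at multiples -/
lemma quo_step (hN : 1 < N) (h : (y + 1) / N ≠ y / N) : y + 1 = N * ((y + 1) / N) ∧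
    (y + 1) / N = y / N + 1 := by
  have e1 := Int.mul_ediv_add_emod (y + 1) N
  have e2 := Int.emod_nonneg (y + 1) (show N ≠ 0 by omega)
  have e3 := Int.emod_lt_of_pos (y + 1) (show 0 < N by omega)
  obtain ⟨q, hq⟩ : ∃ q, (y + 1) / N = q := ⟨_, rfl⟩
  obtain ⟨r, hr⟩ : ∃ r, (y + 1) % N = r := ⟨_, rfl⟩
  rw [hq] at h e1 ⊢
  rw [hr] at e1 e2 e3
  rcases (by omega : r = 0 ∨ 1 ≤ r) with h4 | h4
  · subst h4
    have h5 : y / N = q - 1 := by
      rw [show y = N * (q - 1) + (N - 1) by rw [mul_sub, mul_one]; omega]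
      exact qr_div (by omega) (by omega)
    omega
  · exfalso
    apply h
    rw [show y = N * q + (r - 1) by omega]
    exact (qr_div (by omega) (by omega)).symm

/-- **A change of the coarse side happens at a port row.** -/
theorem prow_of (h4 : 4 ≤ N) {s : Bool} (h : cls C N s (frow (s, y)) ≠ cls C N s y) :
    (s, y) = prow C N (cls C N s y) ∧ 0 ≤ cls C N s y ∧ cls C N s y ≤ 2 * C.H + 1 := by
  have hH0 := C.H0
  have hP0 := C.P0
  have hP1 := C.P1
  have hQ0 := C.Q0
  have hQ1 := C.Q1
  have kH := mul_gap (by omega : 0 < N) C.H0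
  have kP := mul_gap (by omega : 0 < N) C.P0
  have kPH := mul_mon (by omega : 0 < N) hP1
  have kQ := mul_mon (by omega : 0 < N) hQ0
  have kQH := mul_gap (by omega : 0 < N) hQ1
  rw [mul_zero] at kH kP kQ
  cases s with
  | false =>
    have ef : frow (false, y) = y - 1 := by unfold frow; simp
    rw [ef] at h
    by_cases c1 : N * C.H ≤ y
    · rw [cls_top _ c1] at h ⊢
      have c2 : ¬ N * C.H ≤ y - 1 := fun c2 => h (cls_top _ c2)
      unfold prow
      rw [if_neg (by omega), if_neg (by omega), if_pos rfl]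
      exact ⟨by rw [show y = N * C.H by omega], by omega, by omega⟩
    by_cases c2 : y < -1
    · rw [cls_bot _ c1 c2, cls_bot _ (by omega) (by omega)] at h
      exact absurd rfl h
    rw [cls_L c1 c2] at h ⊢
    obtain ⟨q0, q1⟩ := qL_range (C := C) h4 (by omega : -1 ≤ y) (by omega)
    refine ⟨?_, by omega, by omega⟩
    unfold prow
    rw [if_neg (by omega), if_neg (by omega), if_neg (by omega),
      show 2 * C.H + 1 - (2 * C.H + 1 - qL C N y) = qL C N y by ring]
    by_cases c3 : y = -1
    · subst c3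
      have e : qL C N (-1) = 0 := by
        unfold qL
        rw [if_pos (by omega)]
        norm_num
      rw [e, if_pos (by omega)]
      norm_num
    rw [cls_L (by omega) (by omega)] at h
    by_cases c4 : y + 1 < N * C.YP
    · have e1 : qL C N y = (y + 1) / N := by unfold qL; rw [if_pos c4]
      have e2 : qL C N (y - 1) = y / N := by unfold qL; rw [if_pos (by omega), sub_add_cancel]
      rw [e1, e2] at h
      rw [e1] at q0 q1 ⊢
      obtain ⟨g1, g2⟩ := quo_step (N := N) (y := y) (by omega) (by omega)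
      have g3 : (y + 1) / N < C.YP := div_lo h4 c4
      rw [if_pos g3]
      exact Prod.ext rfl (by simp only; omega)
    · have e1 : qL C N y = y / N := by unfold qL; rw [if_neg c4]
      by_cases c5 : y - 1 + 1 < N * C.YP
      · have e2 : qL C N (y - 1) = y / N := by unfold qL; rw [if_pos c5, sub_add_cancel]
        rw [e1, e2] at h
        exact absurd rfl h
      · have e2 : qL C N (y - 1) = (y - 1) / N := by unfold qL; rw [if_neg c5]
        rw [e1, e2] at h
        rw [e1] at q0 q1 ⊢
        obtain ⟨g1, g2⟩ := quo_step (N := N) (y := y - 1) (by omega) (by rw [sub_add_cancel]; omega)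
        rw [sub_add_cancel] at g1
        have g3 : C.YP ≤ y / N := div_hi h4 (by omega)
        rw [if_neg (by omega)]
        exact Prod.ext rfl g1
  | true =>
    have ef : frow (true, y) = y + 1 := by unfold frow; simp
    rw [ef] at h
    by_cases c1 : N * C.H ≤ y
    · rw [cls_top _ c1, cls_top _ (by omega)] at h
      exact absurd rfl h
    by_cases c2 : y < -1
    · rw [cls_bot _ c1 c2] at h ⊢
      have c3 : ¬ y + 1 < -1 := fun c3 => h (cls_bot _ (by omega) c3)
      unfold prow
      rw [if_pos rfl]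
      exact ⟨by rw [show y = -2 by omega], by omega, by omega⟩
    rw [cls_R c1 c2] at h ⊢
    obtain ⟨q0, q1⟩ := qR_range (C := C) h4 (by omega : -1 ≤ y) (by omega)
    refine ⟨?_, by omega, by omega⟩
    unfold prow
    rw [if_neg (by omega), if_pos (by omega), add_sub_cancel_right]
    by_cases c3 : N * C.H ≤ y + 1
    · have e : qR C N y = C.H - 1 := by
        unfold qR
        have e2 : y = N * (C.H - 1) + (N - 1) := by rw [mul_sub, mul_one]; omega
        have e3 := mul_mon (by omega : 0 < N) (show C.YQ ≤ C.H - 1 by omega)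
        rw [if_neg (by omega), e2, qr_div (by omega) (by omega)]
      rw [e, if_neg (by omega), sub_add_cancel]
      exact Prod.ext rfl (by simp only; omega)
    rw [cls_R (by omega) (by omega)] at h
    by_cases c4 : y + 1 < N * C.YQ
    · have e1 : qR C N y = (y + 1) / N := by unfold qR; rw [if_pos (by omega)]
      have e2 : qR C N (y + 1) = (y + 1 + 1) / N := by unfold qR; rw [if_pos c4]
      rw [e1, e2] at h
      rw [e1] at q0 q1 ⊢
      obtain ⟨g1, g2⟩ := quo_step (N := N) (y := y + 1) (by omega) (by omega)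
      have g3 : (y + 1) / N < C.YQ := div_lo h4 c4
      rw [if_pos g3, ← g2]
      exact Prod.ext rfl (by simp only; omega)
    · have e2 : qR C N (y + 1) = (y + 1) / N := by unfold qR; rw [if_neg c4]
      by_cases c5 : y < N * C.YQ
      · have e1 : qR C N y = (y + 1) / N := by unfold qR; rw [if_pos c5]
        rw [e1, e2] at h
        exact absurd rfl h
      · have e1 : qR C N y = y / N := by unfold qR; rw [if_neg c5]
        rw [e1, e2] at h
        rw [e1] at q0 q1 ⊢
        obtain ⟨g1, g2⟩ := quo_step (N := N) (y := y) (by omega) (by omega)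
        have g3 : C.YQ ≤ y / N := div_hi h4 (by omega)
        rw [if_neg (by omega), ← g2]
        exact Prod.ext rfl (by simp only; omega)

end rows

section marks

variable {S : Shape} {y0 y1 : ℤ} {a b : ℤ → ℤ} {yP yQ : ℤ} {F : RowF S.P.Q y0 y1 a b yP yQ}
  {n : ℕ} {hn : 1 ≤ n} {y : ℤ}

/-- colours of the rows on the left -/
lemma cLf_ccol (h2 : 2 ≤ n) : cLf (winOf F n hn) y = ccol (cwOf F) (cls (cwOf F) (2 * n) false y) := by
  have hH := (cwOf F).H0
  have hhH : (winOf F n hn).h = 2 * n * (cwOf F).H := rfl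
  have kH := mul_gap (by omega : (0 : ℤ) < 2 * n) (cwOf F).H0
  rw [mul_zero] at kH
  unfold cLf
  rw [hhH]
  by_cases c1 : y < -1
  · rw [if_pos c1, cls_bot _ (by omega) c1]
    unfold ccol
    rw [if_pos rfl]
    rfl
  rw [if_neg c1]
  by_cases c2 : 2 * n * (cwOf F).H ≤ y
  · rw [if_pos c2, cls_top _ c2]
    unfold ccol
    rw [if_neg (by omega), if_neg (by omega), if_pos rfl]
    rfl
  rw [if_neg c2, cls_L c2 c1]
  obtain ⟨q0, q1⟩ := qL_range (C := cwOf F) (N := 2 * n) (by omega) (by omega : -1 ≤ y) (by omega)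
  unfold ccol
  rw [if_neg (by omega), if_neg (by omega), if_neg (by omega), sub_sub_cancel, ← wcl_qL]
  rfl

/-- colours of the rows on the right -/
lemma cRt_ccol (h2 : 2 ≤ n) : cRt (winOf F n hn) y = ccol (cwOf F) (cls (cwOf F) (2 * n) true y) := by
  have hH := (cwOf F).H0
  have hhH : (winOf F n hn).h = 2 * n * (cwOf F).H := rfl
  have kH := mul_gap (by omega : (0 : ℤ) < 2 * n) (cwOf F).H0
  rw [mul_zero] at kH
  unfold cRt
  rw [hhH]
  by_cases c1 : y < -1
  · rw [if_pos c1, cls_bot _ (by omega) c1]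
    unfold ccol
    rw [if_pos rfl]
    rfl
  rw [if_neg c1]
  by_cases c2 : 2 * n * (cwOf F).H ≤ y
  · rw [if_pos c2, cls_top _ c2]
    unfold ccol
    rw [if_neg (by omega), if_neg (by omega), if_pos rfl]
    rfl
  rw [if_neg c2, cls_R c2 c1]
  obtain ⟨q0, q1⟩ := qR_range (C := cwOf F) (N := 2 * n) (by omega) (by omega : -1 ≤ y) (by omega)
  unfold ccol
  rw [if_neg (by omega), if_pos (by omega), add_sub_cancel_right, ← wcr_qR]
  rfl

/-- the colour of a coarse side is the parity of its arc -/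
lemma ccol_iff (h2 : 2 ≤ n) {P : ℕ} (hP : P < 2 * (y1 - y0).toNat + 2) :
    (ccol (cwOf F) P = true ↔ arc S (idx S y0 y1 a b P) % 2 = 1) ∧
    (ccol (cwOf F) P = false ↔ arc S (idx S y0 y1 a b P) % 2 = 0) := by
  have hi := F.idx_lt (S := S) (P := P) (by omega)
  obtain ⟨e1, -, -⟩ := side_pt F h2 hP
  have h : ccol (cwOf F) P = true ↔ arc S (idx S y0 y1 a b P) % 2 = 1 := by
    rw [e1, wc_iff, wd_arc hi]
  refine ⟨h, ?_⟩
  rw [← Bool.not_eq_true, h]
  omega

variable (F) in
/-- **The two marks on the ring are unique.** -/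
theorem marks_unique {P : ℕ} (hP : P < 2 * (y1 - y0).toNat + 2)
    (h1 : arc S (idx S y0 y1 a b P) % 2 = 1)
    (h2 : arc S (idx S y0 y1 a b ((P + 1) % (2 * (y1 - y0).toNat + 2))) % 2 = 0) : P = P1 F ∨ P = P3 F := by
  obtain ⟨s, j1, j2, j3, hs, k1, k2, k3, k4, hA⟩ := F.ring_arcs
  obtain ⟨a1, a2, a3⟩ := P1_spec F
  obtain ⟨b1, b2, b3⟩ := P3_spec F
  set R := 2 * (y1 - y0).toNat + 2 with hR
  -- every position is `(s + j) % R`
  have pos : ∀ P < R, ∃ j < R, (s + j) % R = P ∧ (P + 1) % R = (s + (j + 1)) % R := by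
    intro P hP
    have h : ∃ j < R, (s + j) % R = P := by
      rcases le_or_gt s P with h | h
      · exact ⟨P - s, by omega, by rw [show s + (P - s) = P by omega]; exact Nat.mod_eq_of_lt hP⟩
      · refine ⟨P + R - s, by omega, ?_⟩
        rw [show s + (P + R - s) = P + R by omega, Nat.add_mod_right]
        exact Nat.mod_eq_of_lt hP
    obtain ⟨j, hj, e⟩ := h
    refine ⟨j, hj, e, ?_⟩
    rw [← e, Nat.mod_add_mod, add_assoc]
  have nxt : ∀ j < R, arc S (idx S y0 y1 a b ((s + (j + 1)) % R)) =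
      if j + 1 = R then 0 else if j + 1 < j1 then 0 else if j + 1 < j2 then 1 else if j + 1 < j3 then 2
        else 3 := by
    intro j hj
    by_cases e : j + 1 = R
    · rw [if_pos e, e, Nat.add_mod_right]
      have := hA 0 (by omega)
      rw [add_zero] at this
      rw [this, if_pos k1]
    · rw [if_neg e]
      exact hA (j + 1) (by omega)
  have key : ∀ P < R, arc S (idx S y0 y1 a b P) % 2 = 1 →
      arc S (idx S y0 y1 a b ((P + 1) % R)) % 2 = 0 →
      (arc S (idx S y0 y1 a b P) = 3 ∧ P = (s + (R - 1)) % R) ∨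
      (arc S (idx S y0 y1 a b P) = 1 ∧ P = (s + (j2 - 1)) % R) := by
    intro P hP g1 g2
    obtain ⟨j, hj, e1, e2⟩ := pos P hP
    have n1 := nxt j hj
    have n2 := hA j hj
    rw [← e2] at n1
    rw [e1] at n2
    rw [n1] at g2
    rw [n2] at g1 ⊢
    rcases (by
      split_ifs at g1 g2 ⊢ <;> omega : j = R - 1 ∨ j = j2 - 1) with h | h
    · left
      rw [← h]
      refine ⟨?_, e1.symm⟩
      rw [if_neg (by omega), if_neg (by omega), if_neg (by omega)]
    · right
      rw [← h]
      refine ⟨?_, e1.symm⟩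
      rw [if_neg (by omega), if_pos (by omega)]
  rcases key P hP h1 h2 with ⟨-, g⟩ | ⟨-, g⟩
  · left
    rcases key (P1 F) a1 (by omega) (by omega) with ⟨-, g'⟩ | ⟨g', -⟩
    · rw [g, g']
    · omega
  · right
    rcases key (P3 F) b1 (by omega) (by omega) with ⟨g', -⟩ | ⟨-, g'⟩
    · omega
    · rw [g, g']

lemma wfc_prow (h2 : 2 ≤ n) {P : ℕ} (hP : P < 2 * (y1 - y0).toNat + 2)
    (k1 : arc S (idx S y0 y1 a b P) % 2 = 1)
    (k2 : arc S (idx S y0 y1 a b ((P + 1) % (2 * (y1 - y0).toNat + 2))) % 2 = 0) :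
    WFc (cLf (winOf F n hn)) (cRt (winOf F n hn)) (prow (cwOf F) (2 * n) P) := by
  obtain ⟨c1, c2⟩ := port_cls (F := F) h2 hP
  have g1 := ((ccol_iff (F := F) h2 hP).1).2 k1
  have g2 := ((ccol_iff (F := F) h2 (Nat.mod_lt (P + 1) (by omega))).2).2 k2
  rw [← c1] at g1
  rw [← c2] at g2
  unfold WFc
  unfold frow at g2
  rcases hs : (prow (cwOf F) (2 * n) P).1 with _ | _
  · rw [hs] at g1 g2
    simp only [Bool.false_eq_true, if_false] at g2 ⊢
    rw [cLf_ccol h2, cLf_ccol h2]
    exact ⟨g1, g2⟩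
  · rw [hs] at g1 g2
    simp only [if_true] at g2 ⊢
    rw [cRt_ccol h2, cRt_ccol h2]
    exact ⟨g1, g2⟩

/-- **The marks of the window of a shape.** -/
theorem marksD (h2 : 2 ≤ n) (X : Bool × ℤ) :
    WFc (cLf (winOf F n hn)) (cRt (winOf F n hn)) X ↔ X = X1 F n ∨ X = X3 F n := by
  have h01 := F.y01
  have hH : ((y1 - y0).toNat : ℤ) = y1 - y0 := Int.toNat_of_nonneg (by omega)
  have frH : (cwOf F).H = y1 - y0 := rfl
  constructor
  · intro h
    obtain ⟨s, y⟩ := X
    have hc : ccol (cwOf F) (cls (cwOf F) (2 * n) s y) = true ∧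
        ccol (cwOf F) (cls (cwOf F) (2 * n) s (frow (s, y))) = false := by
      unfold WFc at h
      unfold frow
      cases s with
      | false =>
        simp only [Bool.false_eq_true, if_false] at h ⊢
        rwa [cLf_ccol h2, cLf_ccol h2] at h
      | true =>
        simp only [if_true] at h ⊢
        rwa [cRt_ccol h2, cRt_ccol h2] at h
    obtain ⟨e, p0, p1⟩ := prow_of (C := cwOf F) (N := 2 * n) (y := y) (s := s) (by omega) (by
      intro hcon
      rw [hcon, hc.1] at hc
      exact absurd hc.2 (by decide))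
    obtain ⟨P, hPe⟩ : ∃ P : ℕ, cls (cwOf F) (2 * n) s y = P := ⟨_, (Int.toNat_of_nonneg p0).symm⟩
    rw [hPe] at e p1
    have hP : P < 2 * (y1 - y0).toNat + 2 := by rw [frH] at p1; omega
    obtain ⟨c1, c2⟩ := port_cls (F := F) h2 hP
    rw [← e] at c1 c2
    have g1 := ((ccol_iff (F := F) h2 hP).1).1 (by rw [← hPe]; exact hc.1)
    have g2 := ((ccol_iff (F := F) h2 (Nat.mod_lt (P + 1) (by omega))).2).1 (by rw [← c2]; exact hc.2)
    rcases marks_unique F hP g1 g2 with rfl | rfl
    · exact Or.inl e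
    · exact Or.inr e
  · obtain ⟨a1, a2, a3⟩ := P1_spec F
    obtain ⟨b1, b2, b3⟩ := P3_spec F
    rintro (rfl | rfl)
    · exact wfc_prow h2 a1 (by omega) (by omega)
    · exact wfc_prow h2 b1 (by omega) (by omega)

/-- **The two ports are different.** -/
theorem x13_ne (h2 : 2 ≤ n) : X1 F n ≠ X3 F n := by
  obtain ⟨a1, a2, a3⟩ := P1_spec F
  obtain ⟨b1, b2, b3⟩ := P3_spec F
  obtain ⟨c1, -⟩ := port_cls (F := F) h2 a1
  obtain ⟨d1, -⟩ := port_cls (F := F) h2 b1
  intro e
  change cls _ _ (X1 F n).1 (X1 F n).2 = _ at c1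
  change cls _ _ (X3 F n).1 (X3 F n).2 = _ at d1
  rw [e, d1] at c1
  have : P3 F = P1 F := by exact_mod_cast c1
  rw [this, a2] at b2
  omega

end marks

/-! ### The root is away from the large box -/

section root

variable {D : Win} {L : ℤ} {hL : 2 ≤ L} {X Y : Bool × ℤ}

lemma root_away (h : PortD D X) (x y : ℤ) (hin : Pool.Agent.H74.Win.InB D x y) :
    ¬ Tch x y (tv (vx ((bfD D L hL X).c0 X))) ∧ ¬ Tch x y (tf (fi ((bfD D L hL X).c0 X))) := by
  have hf := fit_bf (L := L) (hL := hL) h
  have e3 : (bfD D L hL X).FL = D.a (D.yP - 1) - 4 - L - (D.a (D.yP - 1) + L + X.2 + 1) % 2 := rfl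
  have e4 : (bfD D L hL X).FR = D.b D.yQ + 4 + L + (D.b D.yQ + L + X.2) % 2 := rfl
  unfold Pool.Agent.H74.Win.InB at hin
  rw [(BF.vf_c0 hf).1, (BF.vf_c0 hf).2]
  unfold Tch
  rcases hs : X.1 with _ | _
  · have := hf.pL hs
    simp only [Bool.false_eq_true, if_false]
    rw [tv_gp (by omega), tf_gp (by omega)]
    simp only
    omega
  · have := hf.pR hs
    simp only [if_true]
    rw [tv_gp (by omega), tf_gp (by omega)]
    simp only
    omega

/-- one wire -/
theorem rootB_one (h : PortD D X) : RootB (oOne D L hL X h) := fun x y hin => root_away h x y hin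

/-- two wires -/
theorem rootB_two (h : PortD D X) (h' : PortD D Y) : RootB (oTwo D L hL X Y h h') :=
  fun x y hin => root_away h x y hin

end root

end Pool.Agent.H33.Sp
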